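import Mathlib

/-!
# Hessian equations: the definitions

`hess u x` is the Hessian matrix of `u` at `x`, `S k A` is the `k`-th elementary symmetric function
of the eigenvalues of `A`, and `IsSolutionT k Ω u` says that `u` is the `k`-admissible classical
solution of `S_k(D²u) = 1` in `Ω`, `u = 0` on the boundary of `Ω`.
-/

namespace Pool.Agent.Work.MP_d9fde0_an

open Matrix

/-- The Hessian matrix of `u` at `x`. -/
noncomputable def hess {n : ℕ} (u : EuclideanSpace ℝ (Fin n) → ℝ) (x : EuclideanSpace ℝ (Fin n)) :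
    Matrix (Fin n) (Fin n) ℝ :=
  Matrix.of fun i j => iteratedFDeriv ℝ 2 u x
    ![EuclideanSpace.single i (1 : ℝ), EuclideanSpace.single j (1 : ℝ)]

/-- The `k`-th elementary symmetric function of the eigenvalues of the `n × n` matrix `A`: the
coefficient of `s ^ (n - k)` in `det (s I + A)`. -/
noncomputable def S {n : ℕ} (k : ℕ) (A : Matrix (Fin n) (Fin n) ℝ) : ℝ :=
  ((-A).charpoly).coeff (n - k)

/-- `u` is a `k`-admissible classical solution of `S_k(D²u) = 1` in `Ω`, `u = 0` on `∂Ω`. -/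
structure IsSolutionT {n : ℕ} (k : ℕ) (Ω : Set (EuclideanSpace ℝ (Fin n)))
    (u : EuclideanSpace ℝ (Fin n) → ℝ) : Prop where
  /-- `u` is twice continuously differentiable in `Ω` -/
  contDiffOn : ContDiffOn ℝ 2 u Ω
  /-- `u` is continuous up to the boundary -/
  continuousOn : ContinuousOn u (closure Ω)
  /-- `u` is `k`-admissible: `D²u(x)` lies in the cone `Γ_k` -/
  admissible : ∀ x ∈ Ω, ∀ i, 1 ≤ i → i ≤ k → 0 < S i (hess u x)
  /-- the equation -/
  equation : ∀ x ∈ Ω, S k (hess u x) = 1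
  /-- the boundary condition -/
  boundary : ∀ x ∈ frontier Ω, u x = 0

/-- `Ω` is a bounded convex domain with smooth boundary all of whose principal curvatures are
positive: near each boundary point, `Ω = {ρ < 0}` with `ρ` smooth, `Dρ ≠ 0`, and the second
fundamental form `D²ρ / |Dρ|` is positive definite on the tangent space. -/
structure IsSmoothConvexDomain {n : ℕ} (Ω : Set (EuclideanSpace ℝ (Fin n))) : Prop where
  isOpen : IsOpen Ω
  nonempty : Ω.Nonempty
  isBounded : Bornology.IsBounded Ω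
  convex : Convex ℝ Ω
  boundary : ∀ p ∈ frontier Ω, ∃ ρ : EuclideanSpace ℝ (Fin n) → ℝ, ContDiff ℝ ⊤ ρ ∧
    (∀ᶠ x in nhds p, x ∈ Ω ↔ ρ x < 0) ∧ ρ p = 0 ∧ fderiv ℝ ρ p ≠ 0 ∧
    ∀ v : EuclideanSpace ℝ (Fin n), v ≠ 0 → fderiv ℝ ρ p v = 0 →
      0 < iteratedFDeriv ℝ 2 ρ p ![v, v]


end Pool.Agent.Work.MP_d9fde0_an
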