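import Mathlib
import Pool.Agent.Work.MP_d9fde0_an.Defs

/-!
# The eigenvalue problem: definitions

`IsSolutionE k Λ Ω u` says that `u` is a `k`-admissible solution of `S_k(D²u) = Λ (-u)^k` in `Ω`,
`u = 0` on the boundary and `u < 0` in `Ω`. The rest of the file defines the domain in `ℝ⁴` and the
auxiliary functions of the proof.
-/

namespace Pool.Agent.Work.MP_d9fde0_an

open Filter Topology

/-- `u` is a `k`-admissible solution of `S_k(D²u) = Λ (-u)^k` in `Ω`, `u = 0` on `∂Ω`, `u < 0` in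
`Ω`. -/
structure IsSolutionE {n : ℕ} (k : ℕ) (Λ : ℝ) (Ω : Set (EuclideanSpace ℝ (Fin n)))
    (u : EuclideanSpace ℝ (Fin n) → ℝ) : Prop where
  /-- `u` is twice continuously differentiable in `Ω` -/
  contDiffOn : ContDiffOn ℝ 2 u Ω
  /-- `u` is continuous up to the boundary -/
  continuousOn : ContinuousOn u (closure Ω)
  /-- `u` is `k`-admissible: `D²u(x)` lies in the cone `Γ_k` -/
  admissible : ∀ x ∈ Ω, ∀ i, 1 ≤ i → i ≤ k → 0 < S i (hess u x)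
  /-- the equation -/
  equation : ∀ x ∈ Ω, S k (hess u x) = Λ * (-u x) ^ k
  /-- the sign -/
  neg : ∀ x ∈ Ω, u x < 0
  /-- the boundary condition -/
  boundary : ∀ x ∈ frontier Ω, u x = 0

noncomputable section

/-- four dimensional space, coordinates `0, 1, 2, 3` -/
abbrev E4 : Type := EuclideanSpace ℝ (Fin 4)

/-! ### constants -/

def eR : ℝ := 1 / 500
def eh : ℝ := 1 / 10 ^ 20
def elam : ℝ := 100 / eh
def emu : ℝ := 100 / (eR * eh)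
def eγ : ℝ := eh / 20
def ed : ℝ := 8 * eR * eh
def eσ : ℝ := Real.pi / (2 * (1 - 29 / 10 * eh))
def eσ₂ : ℝ := √(eσ ^ 2 - eh / 10)
def eσw : ℝ := Real.pi / (2 * (1 - 27 / 10 * eh))

/-! ### the domain -/

/-- the defining function: a smoothed polytope
`|z₀| < 1 - z₃/T`, `|z₁| < R z₃/T`, `|z₂| < R z₃/T` -/
def rho (T : ℝ) (z : E4) : ℝ :=
  Real.exp (elam * (z 0 - 1 + z 3 / T)) + Real.exp (elam * (-z 0 - 1 + z 3 / T))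
    + Real.exp (emu * (z 1 - eR * (z 3 / T))) + Real.exp (emu * (-z 1 - eR * (z 3 / T)))
    + Real.exp (emu * (z 2 - eR * (z 3 / T))) + Real.exp (emu * (-z 2 - eR * (z 3 / T))) - 1

/-- the domain -/
def OmE (T : ℝ) : Set E4 := {z | rho T z < 0}

/-! ### planar functions -/

/-- `A` and `B` are the second derivatives of `v` in the two variables at `(a, b)` -/
def Has2 (v : ℝ → ℝ → ℝ) (a b A B : ℝ) : Prop :=
  (∃ v' : ℝ → ℝ, (∀ᶠ s in 𝓝 a, HasDerivAt (fun s => v s b) (v' s) s) ∧ HasDerivAt v' A a) ∧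
  (∃ v' : ℝ → ℝ, (∀ᶠ s in 𝓝 b, HasDerivAt (fun s => v a s) (v' s) s) ∧ HasDerivAt v' B b)

/-- strictly superharmonic at `(a, b)` -/
def Sup2 (v : ℝ → ℝ → ℝ) (a b : ℝ) : Prop := ∃ A B, Has2 v a b A B ∧ A + B < 0

/-- subharmonic at `(a, b)` -/
def Sub2 (v : ℝ → ℝ → ℝ) (a b : ℝ) : Prop := ∃ A B, Has2 v a b A B ∧ 0 ≤ A + B

/-! ### the barrier -/

/-- the matrix `D²W - ∇W ⊗ ∇W`, `∇W = (f1, b1, b2, g1)`, `D²W` block diagonal -/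
def Mb (f1 f2 g1 g2 b1 b2 c11 c12 c22 : ℝ) : Matrix (Fin 4) (Fin 4) ℝ :=
  !![f2 - f1 ^ 2, -(f1 * b1), -(f1 * b2), -(f1 * g1);
     -(f1 * b1), c11 - b1 ^ 2, c12 - b1 * b2, -(b1 * g1);
     -(f1 * b2), c12 - b1 * b2, c22 - b2 ^ 2, -(b2 * g1);
     -(f1 * g1), -(b1 * g1), -(b2 * g1), g2 - g1 ^ 2]

/-- `bw = -cos(σ z₀)^(1-γ) cosh(σ₂(z₃ - y₀))^(1-γ) (d² - z₁² - z₂²)^γ` -/
def bw (σ σ₂ γ d y₀ : ℝ) (z : E4) : ℝ :=
  -Real.exp ((1 - γ) * Real.log (Real.cos (σ * z 0))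
    + (1 - γ) * Real.log (Real.cosh (σ₂ * (z 3 - y₀)))
    + γ * Real.log (d ^ 2 - z 1 ^ 2 - z 2 ^ 2))

/-- `D²(bw) = (-bw) • Mw` -/
def Mw (σ σ₂ γ d y₀ : ℝ) (z : E4) : Matrix (Fin 4) (Fin 4) ℝ :=
  Mb ((1 - γ) * σ * Real.tan (σ * z 0)) ((1 - γ) * σ ^ 2 / Real.cos (σ * z 0) ^ 2)
    (-((1 - γ) * σ₂ * Real.tanh (σ₂ * (z 3 - y₀))))
    (-((1 - γ) * σ₂ ^ 2 / Real.cosh (σ₂ * (z 3 - y₀)) ^ 2))
    (2 * γ * z 1 / (d ^ 2 - z 1 ^ 2 - z 2 ^ 2)) (2 * γ * z 2 / (d ^ 2 - z 1 ^ 2 - z 2 ^ 2))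
    (γ * (2 / (d ^ 2 - z 1 ^ 2 - z 2 ^ 2) + 4 * z 1 ^ 2 / (d ^ 2 - z 1 ^ 2 - z 2 ^ 2) ^ 2))
    (γ * (4 * (z 1 * z 2) / (d ^ 2 - z 1 ^ 2 - z 2 ^ 2) ^ 2))
    (γ * (2 / (d ^ 2 - z 1 ^ 2 - z 2 ^ 2) + 4 * z 2 ^ 2 / (d ^ 2 - z 1 ^ 2 - z 2 ^ 2) ^ 2))

end

end Pool.Agent.Work.MP_d9fde0_an
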