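import Pool.Agent.Work.MP_d9fde0_an.EDefs

/-!
# The domain in four dimensional space
-/

namespace Pool.Agent.Work.MP_d9fde0_an

open Filter Topology

namespace EDom

variable {m : ℕ}

/-- sum of exponentials of affine functions -/
noncomputable def F (L : Fin m → E4 →L[ℝ] ℝ) (c : Fin m → ℝ) (z : E4) : ℝ :=
  ∑ i, Real.exp (L i z + c i) - 1

theorem contDiff_F (L : Fin m → E4 →L[ℝ] ℝ) (c : Fin m → ℝ) : ContDiff ℝ ⊤ (F L c) := by
  unfold F
  refine ContDiff.sub (ContDiff.sum fun i _ => ?_) contDiff_const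
  exact Real.contDiff_exp.comp ((L i).contDiff.add contDiff_const)

theorem hasFDerivAt_term (L : E4 →L[ℝ] ℝ) (c : ℝ) (z : E4) :
    HasFDerivAt (fun z => Real.exp (L z + c)) (Real.exp (L z + c) • L) z :=
  (L.hasFDerivAt.add_const c).exp

theorem hasFDerivAt_F (L : Fin m → E4 →L[ℝ] ℝ) (c : Fin m → ℝ) (z : E4) :
    HasFDerivAt (F L c) (∑ i, Real.exp (L i z + c i) • L i) z := by
  unfold F
  refine HasFDerivAt.sub_const 1 ?_
  have := HasFDerivAt.fun_sum (u := Finset.univ) (fun i _ => hasFDerivAt_term (L i) (c i) z)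
  exact this

theorem fderiv_F (L : Fin m → E4 →L[ℝ] ℝ) (c : Fin m → ℝ) :
    fderiv ℝ (F L c) = fun z => ∑ i, Real.exp (L i z + c i) • L i :=
  funext fun z => (hasFDerivAt_F L c z).fderiv

theorem iter_F (L : Fin m → E4 →L[ℝ] ℝ) (c : Fin m → ℝ) (z v : E4) :
    iteratedFDeriv ℝ 2 (F L c) z ![v, v] = ∑ i, Real.exp (L i z + c i) * (L i v) ^ 2 := by
  rw [iteratedFDeriv_two_apply, fderiv_F]
  have h : HasFDerivAt (fun z => ∑ i, Real.exp (L i z + c i) • L i)
      (∑ i, (Real.exp (L i z + c i) • L i).smulRight (L i)) z := by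
    refine HasFDerivAt.fun_sum fun i _ => ?_
    exact (hasFDerivAt_term (L i) (c i) z).smul_const (L i)
  rw [h.fderiv]
  simp only [Matrix.cons_val_zero, Matrix.cons_val_one]
  simp only [_root_.sum_apply, ContinuousLinearMap.smulRight_apply,
    _root_.smul_apply, smul_eq_mul]
  refine Finset.sum_congr rfl fun i _ => ?_
  ring

theorem F_tangent (L : Fin m → E4 →L[ℝ] ℝ) (c : Fin m → ℝ) (p z : E4) :
    F L c p + fderiv ℝ (F L c) p (z - p) ≤ F L c z := by
  rw [fderiv_F]
  simp only [_root_.sum_apply, _root_.smul_apply, smul_eq_mul]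
  unfold F
  have h : ∀ i, Real.exp (L i p + c i) + Real.exp (L i p + c i) * L i (z - p) ≤
      Real.exp (L i z + c i) := by
    intro i
    have h1 := Real.add_one_le_exp (L i (z - p))
    have h2 : Real.exp (L i z + c i) = Real.exp (L i p + c i) * Real.exp (L i (z - p)) := by
      rw [← Real.exp_add]
      congr 1
      rw [map_sub]; ring
    rw [h2]
    have h3 := Real.exp_pos (L i p + c i)
    nlinarith
  have h4 := Finset.sum_le_sum fun i (_ : i ∈ Finset.univ) => h i
  rw [Finset.sum_add_distrib] at h4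
  linarith

theorem convexOn_F (L : Fin m → E4 →L[ℝ] ℝ) (c : Fin m → ℝ) : ConvexOn ℝ Set.univ (F L c) := by
  refine ⟨convex_univ, ?_⟩
  intro x _ y _ a b ha hb hab
  have h1 := F_tangent L c (a • x + b • y) x
  have h2 := F_tangent L c (a • x + b • y) y
  have h3 : a • (x - (a • x + b • y)) + b • (y - (a • x + b • y)) = 0 := by
    have hb' : b = 1 - a := by linarith
    subst hb'
    module
  have h4 := congrArg (fderiv ℝ (F L c) (a • x + b • y)) h3
  rw [map_add, map_smul, map_smul, map_zero, smul_eq_mul, smul_eq_mul] at h4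
  simp only [smul_eq_mul]
  set A := fderiv ℝ (F L c) (a • x + b • y) (x - (a • x + b • y))
  set B := fderiv ℝ (F L c) (a • x + b • y) (y - (a • x + b • y))
  set f0 := F L c (a • x + b • y)
  have h5 := mul_le_mul_of_nonneg_left h1 ha
  have h6 := mul_le_mul_of_nonneg_left h2 hb
  have h7 : a * (f0 + A) + b * (f0 + B) = f0 := by
    have hb' : b = 1 - a := by linarith
    subst hb'
    linear_combination h4
  linarith

/-- the linear parts -/
noncomputable def Lin (T : ℝ) : Fin 6 → E4 →L[ℝ] ℝ :=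
  ![elam • (EuclideanSpace.proj 0 + (1 / T) • EuclideanSpace.proj 3),
    elam • (-EuclideanSpace.proj 0 + (1 / T) • EuclideanSpace.proj 3),
    emu • (EuclideanSpace.proj 1 - (eR / T) • EuclideanSpace.proj 3),
    emu • (-EuclideanSpace.proj 1 - (eR / T) • EuclideanSpace.proj 3),
    emu • (EuclideanSpace.proj 2 - (eR / T) • EuclideanSpace.proj 3),
    emu • (-EuclideanSpace.proj 2 - (eR / T) • EuclideanSpace.proj 3)]

/-- the constant parts -/
noncomputable def Cst : Fin 6 → ℝ := ![-elam, -elam, 0, 0, 0, 0]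

theorem Lin_zero (T : ℝ) (z : E4) : Lin T 0 z = elam * (z 0 + z 3 / T) := by
  simp only [Lin, Matrix.cons_val_zero, _root_.smul_apply,
    _root_.add_apply, PiLp.proj_apply, smul_eq_mul]
  ring

theorem Lin_one (T : ℝ) (z : E4) : Lin T 1 z = elam * (-z 0 + z 3 / T) := by
  simp only [Lin, Matrix.cons_val_one, Matrix.cons_val_zero, _root_.smul_apply,
    _root_.add_apply, _root_.neg_apply, PiLp.proj_apply,
    smul_eq_mul]
  ring

theorem Lin_two (T : ℝ) (z : E4) : Lin T 2 z = emu * (z 1 - eR * (z 3 / T)) := by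
  simp only [Lin, Matrix.cons_val, _root_.smul_apply,
    _root_.sub_apply, PiLp.proj_apply, smul_eq_mul]
  ring

theorem Lin_three (T : ℝ) (z : E4) : Lin T 3 z = emu * (-z 1 - eR * (z 3 / T)) := by
  simp only [Lin, Matrix.cons_val, _root_.smul_apply,
    _root_.sub_apply, _root_.neg_apply, PiLp.proj_apply,
    smul_eq_mul]
  ring

theorem Lin_four (T : ℝ) (z : E4) : Lin T 4 z = emu * (z 2 - eR * (z 3 / T)) := by
  simp only [Lin, Matrix.cons_val, _root_.smul_apply,
    _root_.sub_apply, PiLp.proj_apply, smul_eq_mul]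
  ring

theorem Lin_five (T : ℝ) (z : E4) : Lin T 5 z = emu * (-z 2 - eR * (z 3 / T)) := by
  simp only [Lin, Matrix.cons_val, _root_.smul_apply,
    _root_.sub_apply, _root_.neg_apply, PiLp.proj_apply,
    smul_eq_mul]
  ring

theorem rho_eq (T : ℝ) : rho T = F (Lin T) Cst := by
  funext z
  unfold rho F
  rw [Fin.sum_univ_six, Lin_zero, Lin_one, Lin_two, Lin_three, Lin_four, Lin_five]
  have c0 : Cst 0 = -elam := rfl
  have c1 : Cst 1 = -elam := rfl
  have c2 : Cst 2 = 0 := rfl
  have c3 : Cst 3 = 0 := rfl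
  have c4 : Cst 4 = 0 := rfl
  have c5 : Cst 5 = 0 := rfl
  rw [c0, c1, c2, c3, c4, c5]
  simp only [add_zero]
  have e1 : elam * (z 0 - 1 + z 3 / T) = elam * (z 0 + z 3 / T) + -elam := by ring
  have e2 : elam * (-z 0 - 1 + z 3 / T) = elam * (-z 0 + z 3 / T) + -elam := by ring
  rw [e1, e2]

theorem elam_pos : 0 < elam := by unfold elam eh; positivity

theorem emu_pos : 0 < emu := by unfold emu eR eh; positivity

theorem eR_pos : 0 < eR := by unfold eR; norm_num

theorem continuous_rho (T : ℝ) : Continuous (rho T) := by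
  rw [rho_eq]; exact (contDiff_F _ _).continuous

end EDom

theorem omE_subset {T : ℝ} (hT : 1 ≤ T) {z : E4} (hz : z ∈ closure (OmE T)) :
    |z 0| ≤ 1 - z 3 / T ∧ |z 1| ≤ eR * (z 3 / T) ∧ |z 2| ≤ eR * (z 3 / T) := by
  have h0 : rho T z ≤ 0 := by
    have h1 : closure (OmE T) ⊆ {z | rho T z ≤ 0} :=
      closure_minimal (fun x (hx : rho T x < 0) => (hx.le : rho T x ≤ 0))
        (isClosed_le (EDom.continuous_rho T) continuous_const)
    exact h1 hz
  unfold rho at h0
  have key : ∀ x : ℝ, Real.exp x ≤ 1 → x ≤ 0 := by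
    intro x hx
    rwa [Real.exp_le_one_iff] at hx
  have p1 := Real.exp_pos (elam * (z 0 - 1 + z 3 / T))
  have p2 := Real.exp_pos (elam * (-z 0 - 1 + z 3 / T))
  have p3 := Real.exp_pos (emu * (z 1 - eR * (z 3 / T)))
  have p4 := Real.exp_pos (emu * (-z 1 - eR * (z 3 / T)))
  have p5 := Real.exp_pos (emu * (z 2 - eR * (z 3 / T)))
  have p6 := Real.exp_pos (emu * (-z 2 - eR * (z 3 / T)))
  have q1 := key (elam * (z 0 - 1 + z 3 / T)) (by linarith)
  have q2 := key (elam * (-z 0 - 1 + z 3 / T)) (by linarith)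
  have q3 := key (emu * (z 1 - eR * (z 3 / T))) (by linarith)
  have q4 := key (emu * (-z 1 - eR * (z 3 / T))) (by linarith)
  have q5 := key (emu * (z 2 - eR * (z 3 / T))) (by linarith)
  have q6 := key (emu * (-z 2 - eR * (z 3 / T))) (by linarith)
  have hel := EDom.elam_pos
  have hem := EDom.emu_pos
  have r1 := nonpos_of_mul_nonpos_right q1 hel
  have r2 := nonpos_of_mul_nonpos_right q2 hel
  have r3 := nonpos_of_mul_nonpos_right q3 hem
  have r4 := nonpos_of_mul_nonpos_right q4 hem
  have r5 := nonpos_of_mul_nonpos_right q5 hem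
  have r6 := nonpos_of_mul_nonpos_right q6 hem
  refine ⟨abs_le.2 ⟨by linarith, by linarith⟩, abs_le.2 ⟨by linarith, by linarith⟩,
    abs_le.2 ⟨by linarith, by linarith⟩⟩

theorem mem_omE {T : ℝ} (hT : 1 ≤ T) {z : E4} (h0 : |z 0| ≤ 1 - z 3 / T - eh / 20)
    (h1 : |z 1| ≤ eR * (z 3 / T) - eR * eh / 10) (h2 : |z 2| ≤ eR * (z 3 / T) - eR * eh / 10) :
    z ∈ OmE T := by
  have hel := EDom.elam_pos
  have hem := EDom.emu_pos
  have he1 : elam * (eh / 20) = 5 := by
    unfold elam eh; norm_num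
  have he2 : emu * (eR * eh / 10) = 10 := by
    unfold emu eR eh; norm_num
  rw [abs_le] at h0 h1 h2
  change rho T z < 0
  unfold rho
  have hexp5 : Real.exp (-5) < 1 / 10 := by
    have h := Real.exp_one_gt_d9
    have h5 : Real.exp 5 = Real.exp 1 ^ 5 := by rw [← Real.exp_nat_mul]; norm_num
    have h6 : (2 : ℝ) ^ 5 < Real.exp 1 ^ 5 := by gcongr; linarith
    rw [Real.exp_neg, h5, inv_lt_comm₀ (by positivity) (by norm_num)]
    refine lt_trans ?_ h6
    norm_num
  have hexp10 : Real.exp (-10) < 1 / 10 :=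
    lt_trans (Real.exp_lt_exp.2 (by norm_num)) hexp5
  have t1 : Real.exp (elam * (z 0 - 1 + z 3 / T)) ≤ Real.exp (-5) := by
    apply Real.exp_le_exp.2
    have : elam * (z 0 - 1 + z 3 / T) ≤ elam * (-(eh / 20)) :=
      mul_le_mul_of_nonneg_left (by linarith) hel.le
    linarith
  have t2 : Real.exp (elam * (-z 0 - 1 + z 3 / T)) ≤ Real.exp (-5) := by
    apply Real.exp_le_exp.2
    have : elam * (-z 0 - 1 + z 3 / T) ≤ elam * (-(eh / 20)) :=
      mul_le_mul_of_nonneg_left (by linarith) hel.le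
    linarith
  have t3 : Real.exp (emu * (z 1 - eR * (z 3 / T))) ≤ Real.exp (-10) := by
    apply Real.exp_le_exp.2
    have : emu * (z 1 - eR * (z 3 / T)) ≤ emu * (-(eR * eh / 10)) :=
      mul_le_mul_of_nonneg_left (by linarith) hem.le
    linarith
  have t4 : Real.exp (emu * (-z 1 - eR * (z 3 / T))) ≤ Real.exp (-10) := by
    apply Real.exp_le_exp.2
    have : emu * (-z 1 - eR * (z 3 / T)) ≤ emu * (-(eR * eh / 10)) :=
      mul_le_mul_of_nonneg_left (by linarith) hem.le
    linarith
  have t5 : Real.exp (emu * (z 2 - eR * (z 3 / T))) ≤ Real.exp (-10) := by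
    apply Real.exp_le_exp.2
    have : emu * (z 2 - eR * (z 3 / T)) ≤ emu * (-(eR * eh / 10)) :=
      mul_le_mul_of_nonneg_left (by linarith) hem.le
    linarith
  have t6 : Real.exp (emu * (-z 2 - eR * (z 3 / T))) ≤ Real.exp (-10) := by
    apply Real.exp_le_exp.2
    have : emu * (-z 2 - eR * (z 3 / T)) ≤ emu * (-(eR * eh / 10)) :=
      mul_le_mul_of_nonneg_left (by linarith) hem.le
    linarith
  linarith

theorem ball_subset_omE {T : ℝ} (hT : 1 ≤ T) :
    Metric.closedBall (EuclideanSpace.single 3 (T / 2) : E4) (eR / 4) ⊆ OmE T := by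
  intro z hz
  have hT0 : 0 < T := by linarith
  have hR := EDom.eR_pos
  have hn : ‖z - EuclideanSpace.single 3 (T / 2)‖ ≤ eR / 4 := by
    rwa [Metric.mem_closedBall, dist_eq_norm] at hz
  have hcoord : ∀ i : Fin 4, |(z - EuclideanSpace.single 3 (T / 2) : E4) i| ≤ eR / 4 := by
    intro i
    rw [← Real.norm_eq_abs]
    exact (PiLp.norm_apply_le (z - EuclideanSpace.single 3 (T / 2) : E4) i).trans hn
  have c0 : |z 0| ≤ eR / 4 := by simpa using hcoord 0
  have c1 : |z 1| ≤ eR / 4 := by simpa using hcoord 1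
  have c2 : |z 2| ≤ eR / 4 := by simpa using hcoord 2
  have c3 : |z 3 - T / 2| ≤ eR / 4 := by simpa using hcoord 3
  have hq : |z 3 / T - 1 / 2| ≤ eR / 4 := by
    have : z 3 / T - 1 / 2 = (z 3 - T / 2) / T := by field_simp
    rw [this, abs_div, abs_of_pos hT0, div_le_iff₀ hT0]
    refine c3.trans ?_
    nlinarith
  rw [abs_le] at hq
  have heh : eh ≤ 1 / 10 := by unfold eh; norm_num
  have heh0 : 0 < eh := by unfold eh; norm_num
  have hR2 : eR ≤ 1 / 10 := by unfold eR; norm_num
  apply mem_omE hT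
  · linarith
  · have h1 : eR * (z 3 / T) - eR * eh / 10 = eR * (z 3 / T - eh / 10) := by ring
    rw [h1]
    refine c1.trans ?_
    rw [div_eq_mul_inv]
    exact mul_le_mul_of_nonneg_left (by linarith) hR.le
  · have h1 : eR * (z 3 / T) - eR * eh / 10 = eR * (z 3 / T - eh / 10) := by ring
    rw [h1]
    refine c2.trans ?_
    rw [div_eq_mul_inv]
    exact mul_le_mul_of_nonneg_left (by linarith) hR.le

theorem omE_domain {T : ℝ} (hT : 1 ≤ T) : IsSmoothConvexDomain (OmE T) := by
  have hT0 : 0 < T := by linarith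
  have hcenter : (EuclideanSpace.single 3 (T / 2) : E4) ∈ OmE T :=
    ball_subset_omE hT (Metric.mem_closedBall_self (by have := EDom.eR_pos; positivity))
  refine ⟨isOpen_lt (EDom.continuous_rho T) continuous_const, ⟨_, hcenter⟩, ?_, ?_, ?_⟩
  · rw [isBounded_iff_forall_norm_le]
    refine ⟨3 + T, ?_⟩
    intro z hz
    obtain ⟨h0, h1, h2⟩ := omE_subset hT (subset_closure hz)
    have hR := EDom.eR_pos
    have hR2 : eR ≤ 1 := by unfold eR; norm_num
    have hq0 : 0 ≤ z 3 / T := by
      have : 0 ≤ eR * (z 3 / T) := (abs_nonneg _).trans h1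
      exact nonneg_of_mul_nonneg_right this hR
    have hq1 : z 3 / T ≤ 1 := by
      have := (abs_nonneg _).trans h0
      linarith
    have h3 : 0 ≤ z 3 := by
      have := mul_nonneg hq0 hT0.le
      rwa [div_mul_cancel₀ _ hT0.ne'] at this
    have h3' : z 3 ≤ T := by rwa [div_le_one hT0] at hq1
    have b0 : |z 0| ≤ 1 := h0.trans (by linarith)
    have b1 : |z 1| ≤ 1 := h1.trans (by nlinarith)
    have b2 : |z 2| ≤ 1 := h2.trans (by nlinarith)
    have s0 : z 0 ^ 2 ≤ 1 := by rw [← sq_abs]; nlinarith [abs_nonneg (z 0)]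
    have s1 : z 1 ^ 2 ≤ 1 := by rw [← sq_abs]; nlinarith [abs_nonneg (z 1)]
    have s2 : z 2 ^ 2 ≤ 1 := by rw [← sq_abs]; nlinarith [abs_nonneg (z 2)]
    rw [EuclideanSpace.norm_eq]
    apply Real.sqrt_le_iff.2
    refine ⟨by linarith, ?_⟩
    simp only [Real.norm_eq_abs, sq_abs, Fin.sum_univ_four]
    nlinarith
  · have h := (EDom.convexOn_F (EDom.Lin T) EDom.Cst).convex_lt 0
    have e : OmE T = {z ∈ Set.univ | EDom.F (EDom.Lin T) EDom.Cst z < 0} := by
      ext z
      simp [OmE, EDom.rho_eq]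
    rw [e]; exact h
  · intro p hp
    have hp0 : rho T p = 0 :=
      frontier_lt_subset_eq (EDom.continuous_rho T) continuous_const hp
    refine ⟨rho T, ?_, Eventually.of_forall fun x => Iff.rfl, hp0, ?_, ?_⟩
    · rw [EDom.rho_eq]; exact EDom.contDiff_F _ _
    · intro h
      have h1 := EDom.F_tangent (EDom.Lin T) EDom.Cst p (EuclideanSpace.single 3 (T / 2))
      rw [← EDom.rho_eq, h, hp0] at h1
      have h2 : rho T (EuclideanSpace.single 3 (T / 2)) < 0 := hcenter
      simp at h1
      linarith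
    · intro v hv _
      rw [EDom.rho_eq, EDom.iter_F]
      have hnn : ∀ i, 0 ≤ Real.exp (EDom.Lin T i p + EDom.Cst i) * (EDom.Lin T i v) ^ 2 :=
        fun i => by positivity
      by_contra hcon
      push Not at hcon
      have h0 := (Finset.sum_eq_zero_iff_of_nonneg (fun i _ => hnn i)).1
        (le_antisymm hcon (Finset.sum_nonneg fun i _ => hnn i))
      have hz : ∀ i, EDom.Lin T i v = 0 := by
        intro i
        have h1 := h0 i (Finset.mem_univ i)
        rcases mul_eq_zero.1 h1 with h2 | h2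
        · exact absurd h2 (Real.exp_pos _).ne'
        · exact pow_eq_zero_iff (two_ne_zero) |>.1 h2
      have e0 := hz 0
      have e1 := hz 1
      have e2 := hz 2
      have e4 := hz 4
      rw [EDom.Lin_zero] at e0
      rw [EDom.Lin_one] at e1
      rw [EDom.Lin_two] at e2
      rw [EDom.Lin_four] at e4
      have hel := EDom.elam_pos.ne'
      have hem := EDom.emu_pos.ne'
      have f0 := (mul_eq_zero.1 e0).resolve_left hel
      have f1 := (mul_eq_zero.1 e1).resolve_left hel
      have f2 := (mul_eq_zero.1 e2).resolve_left hem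
      have f4 := (mul_eq_zero.1 e4).resolve_left hem
      have g3 : v 3 / T = 0 := by linarith
      have g0 : v 0 = 0 := by linarith
      have g1 : v 1 = 0 := by rw [g3] at f2; linarith
      have g2 : v 2 = 0 := by rw [g3] at f4; linarith
      have g3' : v 3 = 0 := by
        rcases div_eq_zero_iff.1 g3 with h | h
        · exact h
        · exact absurd h hT0.ne'
      apply hv
      ext i
      fin_cases i
      · exact g0
      · exact g1
      · exact g2
      · exact g3'

end Pool.Agent.Work.MP_d9fde0_an
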