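import Mathlib
import Pool.Agent.Work.MP_d9fde0_an.Defs

/-!
# Linear algebra: elementary symmetric functions of the eigenvalues of a symmetric matrix

Monotonicity of `S_{n-1}` on the cone `Γ_{n-1}`.
-/

namespace Pool.Agent.Work.MP_d9fde0_an

open Matrix Polynomial

section General

variable {n : ℕ}

theorem charpoly_neg_of_isHermitian {A : Matrix (Fin n) (Fin n) ℝ} (hA : A.IsHermitian) :
    (-A).charpoly = ∏ i, (Polynomial.X + C (hA.eigenvalues i)) := by
  have h1 : -A = Unitary.conjStarAlgAut ℝ _ hA.eigenvectorUnitary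
      (diagonal (fun i => -(hA.eigenvalues i))) := by
    have h2 : (diagonal (fun i => -(hA.eigenvalues i)) : Matrix (Fin n) (Fin n) ℝ)
        = -(diagonal (RCLike.ofReal ∘ hA.eigenvalues)) := by
      rw [Matrix.diagonal_neg]
      rfl
    rw [h2, map_neg, ← hA.spectral_theorem]
  rw [h1, Unitary.conjStarAlgAut_apply, charpoly_mul_comm, ← mul_assoc]
  simp [charpoly_diagonal]

theorem S_eq_esymm {k : ℕ} (hk : k ≤ n) {A : Matrix (Fin n) (Fin n) ℝ}
    (hA : A.IsHermitian) :
    S k A = (Finset.univ.val.map hA.eigenvalues).esymm k := by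
  unfold S
  rw [charpoly_neg_of_isHermitian hA]
  have h1 : (∏ i, (Polynomial.X + C (hA.eigenvalues i)) : ℝ[X])
      = ((Finset.univ.val.map hA.eigenvalues).map (fun r => Polynomial.X + C r)).prod := by
    rw [Multiset.map_map]
    rfl
  rw [h1, Multiset.prod_X_add_C_coeff]
  · congr 1
    simp
    omega
  · simp

theorem S_smul {k : ℕ} (hk : k ≤ n) (c : ℝ) (A : Matrix (Fin n) (Fin n) ℝ) :
    S k (c • A) = c ^ k * S k A := by
  have key : ∀ B : Matrix (Fin n) (Fin n) ℝ, B.charpoly.coeff (n - k)
      = MvPolynomial.eval (fun p : Fin n × Fin n => B p.1 p.2)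
        ((Matrix.charpoly.univ ℝ (Fin n)).coeff (n - k)) := by
    intro B
    have := Matrix.charpoly.univ_coeff_eval₂Hom (Fin n) (RingHom.id ℝ)
      (fun p : Fin n × Fin n => B p.1 p.2) (n - k)
    exact this.symm
  unfold S
  have h3 : -(c • A) = c • (-A) := by simp
  rw [h3, key, key (-A)]
  have hom := Matrix.charpoly.univ_coeff_isHomogeneous ℝ (Fin n) (n - k) k (by simp; omega)
  have h4 : (fun p : Fin n × Fin n => (c • (-A)) p.1 p.2)
      = c • (fun p : Fin n × Fin n => (-A) p.1 p.2) := by
    ext p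
    simp
  rw [h4, MvPolynomial.eval_eq', MvPolynomial.eval_eq', Finset.mul_sum]
  refine Finset.sum_congr rfl (fun d hd => ?_)
  have h5 : d.degree = k := by
    by_contra hne
    exact (MvPolynomial.mem_support_iff.1 hd) (hom.coeff_eq_zero hne)
  have h6 : ∏ i, ((c • (fun p : Fin n × Fin n => (-A) p.1 p.2)) i) ^ d i
      = c ^ k * ∏ i, ((-A) i.1 i.2) ^ d i := by
    simp only [Pi.smul_apply, smul_eq_mul, mul_pow, Finset.prod_mul_distrib]
    rw [Finset.prod_pow_eq_pow_sum, ← h5, Finsupp.degree_eq_sum]
  rw [h6]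
  ring

theorem continuous_S {k : ℕ} : Continuous (fun A : Matrix (Fin n) (Fin n) ℝ => S k A) := by
  have key : ∀ B : Matrix (Fin n) (Fin n) ℝ, B.charpoly.coeff (n - k)
      = MvPolynomial.eval (fun p : Fin n × Fin n => B p.1 p.2)
        ((Matrix.charpoly.univ ℝ (Fin n)).coeff (n - k)) := by
    intro B
    have := Matrix.charpoly.univ_coeff_eval₂Hom (Fin n) (RingHom.id ℝ)
      (fun p : Fin n × Fin n => B p.1 p.2) (n - k)
    exact this.symm
  unfold S
  simp_rw [key]
  have h1 := MvPolynomial.continuous_eval ((Matrix.charpoly.univ ℝ (Fin n)).coeff (n - k))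
  refine h1.comp ?_
  refine continuous_pi (fun p => ?_)
  exact (continuous_id.matrix_elem p.1 p.2).neg

/-! ### Monotonicity -/

/-- `S_{n-1}` is the derivative of `det (s I + A)` at `0` -/
theorem S_pred_eq (hn : 1 ≤ n) (A : Matrix (Fin n) (Fin n) ℝ) :
    S (n - 1) A = (derivative (-A).charpoly).eval 0 := by
  unfold S
  rw [← Polynomial.coeff_zero_eq_eval_zero, Polynomial.coeff_derivative]
  have : n - (n - 1) = 1 := by omega
  rw [this]
  simp

/-- `A` is good if the derivative of `det (s I + A)` is positive for `s ≥ 0` -/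
def GoodM (A : Matrix (Fin n) (Fin n) ℝ) : Prop :=
  ∀ s : ℝ, 0 ≤ s → 0 < (derivative (-A).charpoly).eval s

theorem good_of_pos (hn : 1 ≤ n) {A : Matrix (Fin n) (Fin n) ℝ}
    (h : ∀ j, 1 ≤ j → j ≤ n - 1 → 0 < S j A) : GoodM A := by
  intro s hs
  have hdeg : (-A).charpoly.natDegree = n := by simp
  rw [Polynomial.derivative_eval, Polynomial.sum_over_range _ (by simp), hdeg]
  rw [Finset.sum_range_succ']
  simp only [Nat.cast_zero, mul_zero, zero_mul, add_zero]
  obtain ⟨m, rfl⟩ : ∃ m, n = m + 1 := ⟨n - 1, by omega⟩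
  rw [Finset.sum_range_succ']
  have hcoef : ∀ i, 1 ≤ i → i ≤ m + 1 → 0 < (-A).charpoly.coeff i := by
    intro i hi1 hi2
    rcases Nat.eq_or_lt_of_le hi2 with h3 | h3
    · have := Matrix.charpoly_monic (-A)
      rw [Polynomial.Monic, Polynomial.leadingCoeff, hdeg] at this
      rw [h3, this]
      norm_num
    · have := h (m + 1 - i) (by omega) (by omega)
      unfold S at this
      have h4 : m + 1 - (m + 1 - i) = i := by omega
      rw [h4] at this
      exact this
  apply add_pos_of_nonneg_of_pos
  · apply Finset.sum_nonneg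
    intro i hi
    have := hcoef (i + 1 + 1) (by omega) (by simp at hi; omega)
    positivity
  · have := hcoef 1 le_rfl (by omega)
    simpa using this

/-- the matrix determinant lemma for diagonal matrices -/
theorem det_diagonal_add_vecMulVec (d u v : Fin n → ℝ) (hd : ∀ i, d i ≠ 0) :
    (diagonal d + vecMulVec u v).det = ∏ i, d i + ∑ i, (u i * v i) * ∏ j ∈ Finset.univ.erase i, d j := by
  have h1 : vecMulVec u v = replicateCol Unit u * replicateRow Unit v := by
    ext i j
    simp [vecMulVec_apply, Matrix.mul_apply]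
  have hu : IsUnit (diagonal d).det := by
    rw [det_diagonal]
    exact isUnit_iff_ne_zero.2 (Finset.prod_ne_zero_iff.2 (fun i _ => hd i))
  rw [h1, det_add_replicateCol_mul_replicateRow hu, det_diagonal]
  have h2 : (diagonal d)⁻¹ = diagonal (fun i => (d i)⁻¹) := by
    apply Matrix.inv_eq_right_inv
    rw [diagonal_mul_diagonal]
    ext i j
    by_cases hij : i = j
    · subst hij
      simp [hd]
    · simp [hij]
  rw [h2, det_unique]
  have h3 : ∀ i, ∑ x, v x * diagonal (fun i => (d i)⁻¹) x i = v i * (d i)⁻¹ := by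
    intro i
    rw [Finset.sum_eq_single i]
    · simp
    · intro b _ hb
      simp [hb]
    · simp
  simp only [Matrix.add_apply, Matrix.one_apply_eq, Matrix.mul_apply, Matrix.replicateRow_apply,
    Matrix.replicateCol_apply, h3]
  rw [mul_add, mul_one, Finset.mul_sum]
  congr 1
  refine Finset.sum_congr rfl (fun i _ => ?_)
  rw [← Finset.mul_prod_erase Finset.univ d (Finset.mem_univ i)]
  have := hd i
  field_simp

theorem charpoly_diagonal_rank_one (l c : Fin n → ℝ) :
    (-(diagonal l + vecMulVec c c)).charpoly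
      = ∏ i, (Polynomial.X + C (l i))
        + ∑ i, C (c i ^ 2) * ∏ j ∈ Finset.univ.erase i, (Polynomial.X + C (l j)) := by
  apply Polynomial.eq_of_infinite_eval_eq
  have hfin : (Set.range (fun i => -(l i))).Finite := Set.finite_range _
  refine Set.Infinite.mono ?_ hfin.infinite_compl
  intro s hs
  have hs' : ∀ i, s + l i ≠ 0 := by
    intro i h0
    exact hs ⟨i, by simp; linarith⟩
  simp only [Set.mem_ofPred_eq]
  rw [eval_charpoly]
  have h1 : Matrix.scalar (Fin n) s - -(diagonal l + vecMulVec c c)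
      = diagonal (fun i => s + l i) + vecMulVec c c := by
    rw [Matrix.scalar_apply, sub_neg_eq_add, ← add_assoc, diagonal_add]
  rw [h1, det_diagonal_add_vecMulVec _ _ _ hs']
  simp only [eval_add, eval_prod, eval_finsetSum, eval_mul, eval_C, eval_X]
  congr 1
  exact Finset.sum_congr rfl (fun i _ => by ring)

theorem derivative_prod_X_add_C (T : Finset (Fin n)) (l : Fin n → ℝ) (s : ℝ) :
    (derivative (∏ j ∈ T, (Polynomial.X + C (l j)))).eval s
      = ∑ i ∈ T, ∏ j ∈ T.erase i, (s + l j) := by
  rw [Polynomial.derivative_prod_finset, eval_finsetSum]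
  refine Finset.sum_congr rfl (fun i _ => ?_)
  simp [eval_prod]

theorem core (l : Fin n → ℝ)
    (hg : ∀ s : ℝ, 0 ≤ s → 0 < (derivative (∏ i, (Polynomial.X + C (l i)))).eval s)
    (i : Fin n) (s : ℝ) (hs : 0 ≤ s) :
    0 ≤ (derivative (∏ j ∈ Finset.univ.erase i, (Polynomial.X + C (l j)))).eval s := by
  classical
  -- at most one nonpositive entry
  have hmono : StrictMonoOn (fun s => (∏ i, (Polynomial.X + C (l i))).eval s) (Set.Ici (0 : ℝ)) := by
    apply strictMonoOn_of_deriv_pos (convex_Ici 0)
    · exact (Polynomial.continuous _).continuousOn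
    · intro x hx
      rw [interior_Ici] at hx
      rw [Polynomial.deriv]
      exact hg x (le_of_lt hx)
  have hroot : ∀ j, (∏ i, (Polynomial.X + C (l i))).eval (-(l j)) = 0 := by
    intro j
    rw [eval_prod]
    apply Finset.prod_eq_zero (Finset.mem_univ j)
    simp
  have hU' : ∀ j j', j ≠ j' → l j ≤ 0 → l j' ≤ 0 → l j < l j' → False := by
    intro j j' hne h1 h2 h3
    have := hmono (a := -(l j')) (b := -(l j)) (by simp; exact h2) (by simp; exact h1) (by linarith)
    simp only [hroot] at this
    exact lt_irrefl _ this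
  have hU : ∀ j j', j ≠ j' → l j ≤ 0 → l j' ≤ 0 → False := by
    intro j j' hne h1 h2
    rcases lt_trichotomy (l j) (l j') with h3 | h3 | h3
    · exact hU' j j' hne h1 h2 h3
    · have h4 := hg (-(l j)) (by linarith)
      rw [derivative_prod_X_add_C] at h4
      have h5 : ∑ i, ∏ k ∈ Finset.univ.erase i, (-(l j) + l k) = 0 := by
        apply Finset.sum_eq_zero
        intro i _
        by_cases hij : i = j
        · subst hij
          apply Finset.prod_eq_zero (i := j') (by simp [hne.symm])
          rw [h3]; ring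
        · apply Finset.prod_eq_zero (i := j) (by simp [Ne.symm hij])
          ring
      rw [h5] at h4
      exact lt_irrefl _ h4
    · exact hU' j' j hne.symm h2 h1 h3
  by_cases hall : ∀ k, k ≠ i → 0 ≤ s + l k
  · rw [derivative_prod_X_add_C]
    apply Finset.sum_nonneg
    intro a ha
    apply Finset.prod_nonneg
    intro k hk
    apply hall
    simp at hk
    exact hk.2
  · push Not at hall
    obtain ⟨k0, hk0, hneg⟩ := hall
    have hpos : ∀ j, j ≠ k0 → 0 < s + l j := by
      intro j hj
      by_contra hcon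
      exact hU j k0 hj (by linarith) (by linarith)
    have h1 := hg s hs
    rw [← Finset.mul_prod_erase Finset.univ _ (Finset.mem_univ i), derivative_mul] at h1
    simp only [derivative_add, derivative_X, derivative_C, add_zero, one_mul, eval_add, eval_mul,
      eval_X, eval_C] at h1
    have h2 : (∏ j ∈ Finset.univ.erase i, (Polynomial.X + C (l j))).eval s < 0 := by
      rw [eval_prod, ← Finset.mul_prod_erase _ _ (by simp [hk0] : k0 ∈ Finset.univ.erase i)]
      apply mul_neg_of_neg_of_pos
      · simpa using hneg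
      · apply Finset.prod_pos
        intro j hj
        simp only [Finset.mem_erase, Finset.mem_univ, and_true] at hj
        simpa using hpos j hj.1
    have h3 : 0 < s + l i := hpos i (Ne.symm hk0)
    by_contra hcon
    push Not at hcon
    have := mul_nonneg_of_nonpos_of_nonpos (neg_nonpos.2 h3.le) hcon.le
    nlinarith

theorem rank_one {A : Matrix (Fin n) (Fin n) ℝ} (hA : A.IsHermitian) (hg : GoodM A)
    (v : Fin n → ℝ) (s : ℝ) (hs : 0 ≤ s) :
    (derivative (-A).charpoly).eval s
      ≤ (derivative (-(A + vecMulVec v v)).charpoly).eval s := by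
  set U : Matrix (Fin n) (Fin n) ℝ := (hA.eigenvectorUnitary : Matrix (Fin n) (Fin n) ℝ) with hUdef
  have hUU : U * star U = 1 := Unitary.coe_mul_star_self hA.eigenvectorUnitary
  have hUU' : star U * U = 1 := Unitary.coe_star_mul_self hA.eigenvectorUnitary
  have hstar : star U = Uᵀ := by
    rw [Matrix.star_eq_conjTranspose, Matrix.conjTranspose_eq_transpose_of_trivial]
  set c : Fin n → ℝ := star U *ᵥ v with hc
  have hv : U *ᵥ c = v := by
    rw [hc, Matrix.mulVec_mulVec, hUU, Matrix.one_mulVec]
  have hA1 : A = U * diagonal hA.eigenvalues * star U := by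
    conv_lhs => rw [hA.spectral_theorem, Unitary.conjStarAlgAut_apply]
    rfl
  have hvv : vecMulVec v v = U * vecMulVec c c * star U := by
    rw [Matrix.mul_vecMulVec, Matrix.vecMulVec_mul, hv, hstar, Matrix.vecMul_transpose, hv]
  have hsum : -(A + vecMulVec v v) = U * (-(diagonal hA.eigenvalues + vecMulVec c c)) * star U := by
    rw [hvv]
    conv_lhs => rw [hA1]
    noncomm_ring
  have hchar : (-(A + vecMulVec v v)).charpoly
      = (-(diagonal hA.eigenvalues + vecMulVec c c)).charpoly := by
    rw [hsum, mul_assoc, charpoly_mul_comm, mul_assoc, hUU', mul_one]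
  rw [hchar, charpoly_diagonal_rank_one, charpoly_neg_of_isHermitian hA]
  rw [derivative_add, eval_add, le_add_iff_nonneg_right, derivative_sum, eval_finsetSum]
  apply Finset.sum_nonneg
  intro i _
  rw [derivative_C_mul, eval_mul, eval_C]
  apply mul_nonneg (sq_nonneg _)
  apply core _ _ _ _ hs
  intro t ht
  have := hg t ht
  rwa [charpoly_neg_of_isHermitian hA] at this

open scoped MatrixOrder in
theorem exists_eq_sum_of_posSemidef {P : Matrix (Fin n) (Fin n) ℝ} (hP : P.PosSemidef) :
    ∃ B : Matrix (Fin n) (Fin n) ℝ, P = ∑ i, vecMulVec (B i) (B i) := by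
  obtain ⟨B, hB⟩ := CStarAlgebra.nonneg_iff_eq_star_mul_self.mp hP.nonneg
  refine ⟨B, ?_⟩
  rw [hB]
  ext a b
  simp [Matrix.mul_apply, Matrix.sum_apply, vecMulVec_apply, Matrix.star_eq_conjTranspose]

/-- monotonicity of `S_{n-1}` on the cone `Γ_{n-1}` -/
theorem S_mono (hn : 2 ≤ n) {A P : Matrix (Fin n) (Fin n) ℝ} (hA : A.IsHermitian)
    (hP : P.PosSemidef) (h : ∀ j, 1 ≤ j → j ≤ n - 1 → 0 < S j A) :
    S (n - 1) A ≤ S (n - 1) (A + P) := by
  classical
  obtain ⟨B, hP'⟩ := exists_eq_sum_of_posSemidef hP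
  have key : ∀ T : Finset (Fin n), (A + ∑ i ∈ T, vecMulVec (B i) (B i)).IsHermitian ∧
      GoodM (A + ∑ i ∈ T, vecMulVec (B i) (B i)) ∧
      (derivative (-A).charpoly).eval 0
        ≤ (derivative (-(A + ∑ i ∈ T, vecMulVec (B i) (B i))).charpoly).eval 0 := by
    intro T
    induction T using Finset.induction_on with
    | empty => simpa using ⟨hA, good_of_pos (by omega) h⟩
    | insert a T ha ih =>
      obtain ⟨h1, h2, h3⟩ := ih
      rw [Finset.sum_insert ha]
      have h4 : A + (vecMulVec (B a) (B a) + ∑ i ∈ T, vecMulVec (B i) (B i))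
          = (A + ∑ i ∈ T, vecMulVec (B i) (B i)) + vecMulVec (B a) (B a) := by abel
      rw [h4]
      refine ⟨h1.add ?_, ?_, ?_⟩
      · ext i j
        simp [vecMulVec_apply, mul_comm]
      · intro s hs
        exact lt_of_lt_of_le (h2 s hs) (rank_one h1 h2 _ s hs)
      · exact h3.trans (rank_one h1 h2 _ 0 le_rfl)
  have := (key Finset.univ).2.2
  rw [← hP', ← S_pred_eq (by omega), ← S_pred_eq (by omega)] at this
  exact this

end General

end Pool.Agent.Work.MP_d9fde0_an
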