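import Mathlib
import Pool.Agent.Work.MP_d9fde0_an.LinAlg
import Pool.Agent.Work.MP_d9fde0_an.EDefs

/-!
# Elementary symmetric functions of 4×4 matrices
-/

set_option autoImplicit false
set_option linter.unusedSimpArgs false

namespace Pool.Agent.Work.MP_d9fde0_an

open Matrix Polynomial

namespace EMat

/-- determinant of a 4×4 matrix, expanded -/
theorem det_four {R : Type*} [CommRing R] (M : Matrix (Fin 4) (Fin 4) R) : M.det =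
    M 0 0 * (M 1 1 * (M 2 2 * M 3 3 - M 2 3 * M 3 2) - M 1 2 * (M 2 1 * M 3 3 - M 2 3 * M 3 1)
      + M 1 3 * (M 2 1 * M 3 2 - M 2 2 * M 3 1))
    - M 0 1 * (M 1 0 * (M 2 2 * M 3 3 - M 2 3 * M 3 2) - M 1 2 * (M 2 0 * M 3 3 - M 2 3 * M 3 0)
      + M 1 3 * (M 2 0 * M 3 2 - M 2 2 * M 3 0))
    + M 0 2 * (M 1 0 * (M 2 1 * M 3 3 - M 2 3 * M 3 1) - M 1 1 * (M 2 0 * M 3 3 - M 2 3 * M 3 0)
      + M 1 3 * (M 2 0 * M 3 1 - M 2 1 * M 3 0))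
    - M 0 3 * (M 1 0 * (M 2 1 * M 3 2 - M 2 2 * M 3 1) - M 1 1 * (M 2 0 * M 3 2 - M 2 2 * M 3 0)
      + M 1 2 * (M 2 0 * M 3 1 - M 2 1 * M 3 0)) := by
  rw [Matrix.det_succ_row_zero]
  simp only [Fin.sum_univ_succ, Matrix.det_fin_three, Matrix.submatrix_apply, Fin.sum_univ_zero]
  simp [Fin.succAbove, Fin.succ, Fin.castSucc]
  ring

theorem charpoly_four (A : Matrix (Fin 4) (Fin 4) ℝ) : (-A).charpoly =
    X ^ 4 + C (A 0 0 + A 1 1 + A 2 2 + A 3 3) * X ^ 3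
    + C ((A 0 0 * A 1 1 - A 0 1 * A 1 0) + (A 0 0 * A 2 2 - A 0 2 * A 2 0)
      + (A 0 0 * A 3 3 - A 0 3 * A 3 0) + (A 1 1 * A 2 2 - A 1 2 * A 2 1)
      + (A 1 1 * A 3 3 - A 1 3 * A 3 1) + (A 2 2 * A 3 3 - A 2 3 * A 3 2)) * X ^ 2
    + C ((A 0 0 * (A 1 1 * A 2 2 - A 1 2 * A 2 1) - A 0 1 * (A 1 0 * A 2 2 - A 1 2 * A 2 0)
        + A 0 2 * (A 1 0 * A 2 1 - A 1 1 * A 2 0))
      + (A 0 0 * (A 1 1 * A 3 3 - A 1 3 * A 3 1) - A 0 1 * (A 1 0 * A 3 3 - A 1 3 * A 3 0)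
        + A 0 3 * (A 1 0 * A 3 1 - A 1 1 * A 3 0))
      + (A 0 0 * (A 2 2 * A 3 3 - A 2 3 * A 3 2) - A 0 2 * (A 2 0 * A 3 3 - A 2 3 * A 3 0)
        + A 0 3 * (A 2 0 * A 3 2 - A 2 2 * A 3 0))
      + (A 1 1 * (A 2 2 * A 3 3 - A 2 3 * A 3 2) - A 1 2 * (A 2 1 * A 3 3 - A 2 3 * A 3 1)
        + A 1 3 * (A 2 1 * A 3 2 - A 2 2 * A 3 1))) * X
    + C A.det := by
  have hd : ∀ i : Fin 4, (-A).charmatrix i i = X + C (A i i) := by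
    intro i
    rw [Matrix.charmatrix_apply_eq]
    simp
  have ho : ∀ i j : Fin 4, i ≠ j → (-A).charmatrix i j = C (A i j) := by
    intro i j hij
    rw [Matrix.charmatrix_apply_ne _ _ _ hij]
    simp
  rw [Matrix.charpoly, det_four, det_four A]
  rw [hd 0, hd 1, hd 2, hd 3, ho 0 1 (by decide), ho 0 2 (by decide), ho 0 3 (by decide),
    ho 1 0 (by decide), ho 1 2 (by decide), ho 1 3 (by decide), ho 2 0 (by decide),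
    ho 2 1 (by decide), ho 2 3 (by decide), ho 3 0 (by decide), ho 3 1 (by decide),
    ho 3 2 (by decide)]
  simp only [map_add, map_sub, map_mul]
  ring

end EMat

open EMat

theorem S_one_four (A : Matrix (Fin 4) (Fin 4) ℝ) : S 1 A = A 0 0 + A 1 1 + A 2 2 + A 3 3 := by
  rw [S, charpoly_four]
  simp [coeff_X, coeff_C, -map_add, -map_sub, -map_mul]

theorem S_two_four (A : Matrix (Fin 4) (Fin 4) ℝ) : S 2 A =
    (A 0 0 * A 1 1 - A 0 1 * A 1 0) + (A 0 0 * A 2 2 - A 0 2 * A 2 0)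
    + (A 0 0 * A 3 3 - A 0 3 * A 3 0) + (A 1 1 * A 2 2 - A 1 2 * A 2 1)
    + (A 1 1 * A 3 3 - A 1 3 * A 3 1) + (A 2 2 * A 3 3 - A 2 3 * A 3 2) := by
  rw [S, charpoly_four]
  simp [coeff_X, coeff_C, -map_add, -map_sub, -map_mul]

theorem S_three_four (A : Matrix (Fin 4) (Fin 4) ℝ) : S 3 A =
    (A 0 0 * (A 1 1 * A 2 2 - A 1 2 * A 2 1) - A 0 1 * (A 1 0 * A 2 2 - A 1 2 * A 2 0)
      + A 0 2 * (A 1 0 * A 2 1 - A 1 1 * A 2 0))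
    + (A 0 0 * (A 1 1 * A 3 3 - A 1 3 * A 3 1) - A 0 1 * (A 1 0 * A 3 3 - A 1 3 * A 3 0)
      + A 0 3 * (A 1 0 * A 3 1 - A 1 1 * A 3 0))
    + (A 0 0 * (A 2 2 * A 3 3 - A 2 3 * A 3 2) - A 0 2 * (A 2 0 * A 3 3 - A 2 3 * A 3 0)
      + A 0 3 * (A 2 0 * A 3 2 - A 2 2 * A 3 0))
    + (A 1 1 * (A 2 2 * A 3 3 - A 2 3 * A 3 2) - A 1 2 * (A 2 1 * A 3 3 - A 2 3 * A 3 1)
      + A 1 3 * (A 2 1 * A 3 2 - A 2 2 * A 3 1)) := by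
  rw [S, charpoly_four]
  simp [coeff_X, coeff_C, -map_add, -map_sub, -map_mul]

end Pool.Agent.Work.MP_d9fde0_an
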