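import Mathlib
import Pool.Agent.Work.MP_d9fde0_an.EDefs
import Pool.Agent.Work.MP_d9fde0_an.EMat

/-!
# The barrier inequality
-/

namespace Pool.Agent.Work.MP_d9fde0_an

namespace EBar

theorem S3_Mb (f1 f2 g1 g2 b1 b2 c11 c12 c22 : ℝ) :
    S 3 (Mb f1 f2 g1 g2 b1 b2 c11 c12 c22)
      = (c11 * c22 - c12 ^ 2) * (f2 + g2 - f1 ^ 2 - g1 ^ 2)
        - (c22 * b1 ^ 2 - 2 * c12 * b1 * b2 + c11 * b2 ^ 2) * (f2 + g2)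
        + (c11 + c22) * (f2 * g2 - f1 ^ 2 * g2 - g1 ^ 2 * f2) - (b1 ^ 2 + b2 ^ 2) * (f2 * g2) := by
  rw [S_three_four]
  simp [Mb]
  ring

theorem S2_Mb (f1 f2 g1 g2 b1 b2 c11 c12 c22 : ℝ) :
    S 2 (Mb f1 f2 g1 g2 b1 b2 c11 c12 c22)
      = (c11 * c22 - c12 ^ 2 - (c22 * b1 ^ 2 - 2 * c12 * b1 * b2 + c11 * b2 ^ 2))
        + ((c11 + c22) * (f2 + g2 - f1 ^ 2 - g1 ^ 2) - (b1 ^ 2 + b2 ^ 2) * (f2 + g2))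
        + (f2 * g2 - f1 ^ 2 * g2 - g1 ^ 2 * f2) := by
  rw [S_two_four]
  simp [Mb]
  ring

theorem S1_Mb (f1 f2 g1 g2 b1 b2 c11 c12 c22 : ℝ) :
    S 1 (Mb f1 f2 g1 g2 b1 b2 c11 c12 c22)
      = (f2 + g2 - f1 ^ 2 - g1 ^ 2) + (c11 + c22 - (b1 ^ 2 + b2 ^ 2)) := by
  rw [S_one_four]
  simp [Mb]
  ring

/-- lower bound for the determinant `det E` -/
theorem detE_ge {γ σ σ₂ t k : ℝ} (hγ0 : 0 < γ) (hγ1 : γ < 1) (ht : 0 ≤ t) (hk0 : 0 ≤ k)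
    (hk1 : k ≤ 1) :
    -(σ ^ 2 * σ₂ ^ 2) - σ₂ ^ 2 * (1 + γ) * (σ ^ 2 * t + σ₂ ^ 2 * k)
      ≤ -((1 - γ) ^ 2 * (σ ^ 2 * σ₂ ^ 2)
        * (1 + γ * t * (1 - k) + (1 - γ) * k * t - γ * k)) := by
  have h1 : 1 + γ * t * (1 - k) + (1 - γ) * k * t - γ * k ≤ 1 + (1 + γ) * t := by
    have e1 : 0 ≤ γ * t * k := by positivity
    have e2 : 0 ≤ γ * k * t := by positivity
    have e3 : k * t ≤ 1 * t := mul_le_mul_of_nonneg_right hk1 ht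
    have e4 : 0 ≤ γ * k := by positivity
    linarith
  have h2 : (1 - γ) ^ 2 ≤ 1 := by nlinarith
  have h3 : 0 ≤ 1 + (1 + γ) * t := by positivity
  have hs : 0 ≤ σ ^ 2 * σ₂ ^ 2 := by positivity
  have h4 : (1 - γ) ^ 2 * (1 + γ * t * (1 - k) + (1 - γ) * k * t - γ * k)
      ≤ 1 + (1 + γ) * t := by
    calc (1 - γ) ^ 2 * (1 + γ * t * (1 - k) + (1 - γ) * k * t - γ * k)
        ≤ (1 - γ) ^ 2 * (1 + (1 + γ) * t) := mul_le_mul_of_nonneg_left h1 (sq_nonneg _)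
      _ ≤ 1 * (1 + (1 + γ) * t) := mul_le_mul_of_nonneg_right h2 h3
      _ = _ := one_mul _
  have h5 := mul_le_mul_of_nonneg_left h4 hs
  have h6 : 0 ≤ σ₂ ^ 2 * (1 + γ) * (σ₂ ^ 2 * k) := by positivity
  linarith

/-- the values of the geometric quantities -/
theorem quad {γ Q x y : ℝ} (hQ : 0 < Q) :
    (γ * (2 / Q + 4 * x ^ 2 / Q ^ 2)) * (γ * (2 / Q + 4 * y ^ 2 / Q ^ 2))
        - (γ * (4 * (x * y) / Q ^ 2)) ^ 2 = 4 * γ ^ 2 * (Q + 2 * (x ^ 2 + y ^ 2)) / Q ^ 3 ∧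
    (γ * (2 / Q + 4 * y ^ 2 / Q ^ 2)) * (2 * γ * x / Q) ^ 2
        - 2 * (γ * (4 * (x * y) / Q ^ 2)) * (2 * γ * x / Q) * (2 * γ * y / Q)
        + (γ * (2 / Q + 4 * x ^ 2 / Q ^ 2)) * (2 * γ * y / Q) ^ 2
      = 8 * γ ^ 3 * (x ^ 2 + y ^ 2) / Q ^ 3 ∧
    γ * (2 / Q + 4 * x ^ 2 / Q ^ 2) + γ * (2 / Q + 4 * y ^ 2 / Q ^ 2)
      = 4 * γ * (Q + (x ^ 2 + y ^ 2)) / Q ^ 2 ∧
    (2 * γ * x / Q) ^ 2 + (2 * γ * y / Q) ^ 2 = 4 * γ ^ 2 * (x ^ 2 + y ^ 2) / Q ^ 2 := by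
  have hQ' : Q ≠ 0 := hQ.ne'
  refine ⟨?_, ?_, ?_, ?_⟩
  · field_simp; ring
  · field_simp; ring
  · field_simp; ring
  · field_simp; ring

/-- the inequality for `S_3` -/
theorem core3 {γ σ σ₂ θ t k Q r D Λ h2 : ℝ} (hγ0 : 0 < γ) (hγ1 : γ < 1) (hθ : 0 < θ)
    (ht : 0 ≤ t) (hk0 : 0 ≤ k) (hk1 : k ≤ 1) (hQ : 0 < Q) (hr : 0 ≤ r) (hD : Q + r = D)
    (hh : h2 = σ ^ 2 * t + σ₂ ^ 2 * k)
    (h1a : D * σ₂ ^ 2 * (1 + γ) ≤ γ ^ 2 * (1 - γ))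
    (h1b : 2 * D * σ ^ 2 * σ₂ ^ 2 ≤ γ * (1 - γ) ^ 2 * θ)
    (hΛ : Λ * D ^ 2 < 2 * γ ^ 2 * (1 - γ) ^ 2 * θ) :
    Λ < (4 * γ ^ 2 * (Q + 2 * r) / Q ^ 3) * ((1 - γ) * (θ + γ * h2))
      - (8 * γ ^ 3 * r / Q ^ 3) * ((1 - γ) * (θ + h2))
      + (4 * γ * D / Q ^ 2) * (-((1 - γ) ^ 2 * (σ ^ 2 * σ₂ ^ 2)
        * (1 + γ * t * (1 - k) + (1 - γ) * k * t - γ * k)))
      - (4 * γ ^ 2 * r / Q ^ 2) * (-((1 - γ) ^ 2 * (σ ^ 2 * σ₂ ^ 2) * ((1 + t) * (1 - k)))) := by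
  have hD0 : 0 < D := by linarith
  have hh0 : 0 ≤ h2 := by rw [hh]; positivity
  have hg1 : 0 < 1 - γ := by linarith
  have hE := detE_ge (σ := σ) (σ₂ := σ₂) hγ0 hγ1 ht hk0 hk1
  rw [← hh] at hE
  set E := -((1 - γ) ^ 2 * (σ ^ 2 * σ₂ ^ 2)
        * (1 + γ * t * (1 - k) + (1 - γ) * k * t - γ * k)) with hEdef
  have hA : 0 ≤ (1 - γ) ^ 2 * (σ ^ 2 * σ₂ ^ 2) * ((1 + t) * (1 - k)) := by
    have : 0 ≤ 1 - k := by linarith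
    positivity
  have hQD : Q ≤ D := by linarith
  -- write everything over `Q ^ 3`
  have e : (4 * γ ^ 2 * (Q + 2 * r) / Q ^ 3) * ((1 - γ) * (θ + γ * h2))
      - (8 * γ ^ 3 * r / Q ^ 3) * ((1 - γ) * (θ + h2))
      + (4 * γ * D / Q ^ 2) * E
      - (4 * γ ^ 2 * r / Q ^ 2) * (-((1 - γ) ^ 2 * (σ ^ 2 * σ₂ ^ 2) * ((1 + t) * (1 - k))))
      = (4 * γ / Q ^ 3) * (γ * (1 - γ) * ((Q + 2 * r - 2 * γ * r) * θ + γ * Q * h2)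
        + Q * (D * E + γ * r * ((1 - γ) ^ 2 * (σ ^ 2 * σ₂ ^ 2) * ((1 + t) * (1 - k))))) := by
    have hQ' : Q ≠ 0 := hQ.ne'
    field_simp
    ring
  rw [e]
  -- the bracket
  have b1 : γ * (1 - γ) * ((1 - γ) * D * θ) ≤ γ * (1 - γ) * ((Q + 2 * r - 2 * γ * r) * θ) := by
    apply mul_le_mul_of_nonneg_left _ (by positivity)
    apply mul_le_mul_of_nonneg_right _ hθ.le
    rw [← hD]
    nlinarith [mul_nonneg hγ0.le hQ.le, mul_nonneg hg1.le hr]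
  have b2 : Q * (D * (σ₂ ^ 2 * (1 + γ) * h2)) ≤ γ * (1 - γ) * (γ * Q * h2) := by
    have := mul_le_mul_of_nonneg_right h1a (mul_nonneg hQ.le hh0)
    calc Q * (D * (σ₂ ^ 2 * (1 + γ) * h2)) = D * σ₂ ^ 2 * (1 + γ) * (Q * h2) := by ring
      _ ≤ γ ^ 2 * (1 - γ) * (Q * h2) := this
      _ = _ := by ring
  have b3 : Q * (D * (-(σ ^ 2 * σ₂ ^ 2) - σ₂ ^ 2 * (1 + γ) * h2)) ≤ Q * (D * E) := by
    apply mul_le_mul_of_nonneg_left _ hQ.le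
    exact mul_le_mul_of_nonneg_left hE hD0.le
  have b4 : 0 ≤ Q * (γ * r * ((1 - γ) ^ 2 * (σ ^ 2 * σ₂ ^ 2) * ((1 + t) * (1 - k)))) := by
    positivity
  have b5 : Q * (D * (σ ^ 2 * σ₂ ^ 2)) ≤ γ * (1 - γ) ^ 2 * θ * D / 2 := by
    have hs : 0 ≤ D * (σ ^ 2 * σ₂ ^ 2) := by positivity
    have h1 : Q * (D * (σ ^ 2 * σ₂ ^ 2)) ≤ D * (D * (σ ^ 2 * σ₂ ^ 2)) :=
      mul_le_mul_of_nonneg_right hQD hs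
    have h2 := mul_le_mul_of_nonneg_right h1b hD0.le
    calc Q * (D * (σ ^ 2 * σ₂ ^ 2)) ≤ D * (D * (σ ^ 2 * σ₂ ^ 2)) := h1
      _ = (2 * D * σ ^ 2 * σ₂ ^ 2 * D) / 2 := by ring
      _ ≤ (γ * (1 - γ) ^ 2 * θ * D) / 2 := by linarith
  have hbr : γ * (1 - γ) ^ 2 * θ * D / 2
      ≤ γ * (1 - γ) * ((Q + 2 * r - 2 * γ * r) * θ + γ * Q * h2)
        + Q * (D * E + γ * r * ((1 - γ) ^ 2 * (σ ^ 2 * σ₂ ^ 2) * ((1 + t) * (1 - k)))) := by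
    have b6 : γ * (1 - γ) * ((1 - γ) * D * θ) = γ * (1 - γ) ^ 2 * θ * D := by ring
    have b7 : Q * (D * (-(σ ^ 2 * σ₂ ^ 2) - σ₂ ^ 2 * (1 + γ) * h2))
        = -(Q * (D * (σ ^ 2 * σ₂ ^ 2))) - Q * (D * (σ₂ ^ 2 * (1 + γ) * h2)) := by ring
    rw [b6] at b1
    rw [b7] at b3
    rw [mul_add (γ * (1 - γ)), mul_add Q]
    linarith
  have hQ3 : 0 < Q ^ 3 := by positivity
  have hfac : 0 < 4 * γ / Q ^ 3 := by positivity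
  have hlow := mul_le_mul_of_nonneg_left hbr hfac.le
  refine lt_of_lt_of_le ?_ hlow
  have hQ3D : Q ^ 3 ≤ D ^ 3 := by gcongr
  have hpos : 0 < 2 * γ ^ 2 * (1 - γ) ^ 2 * θ := by positivity
  have e2 : 4 * γ / Q ^ 3 * (γ * (1 - γ) ^ 2 * θ * D / 2)
      = (2 * γ ^ 2 * (1 - γ) ^ 2 * θ) * D / Q ^ 3 := by ring
  rw [e2, lt_div_iff₀ hQ3]
  rcases le_or_gt Λ 0 with hl | hl
  · have : Λ * Q ^ 3 ≤ 0 := mul_nonpos_of_nonpos_of_nonneg hl hQ3.le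
    have : 0 < 2 * γ ^ 2 * (1 - γ) ^ 2 * θ * D := by positivity
    linarith
  · calc Λ * Q ^ 3 ≤ Λ * D ^ 3 := mul_le_mul_of_nonneg_left hQ3D hl.le
      _ = (Λ * D ^ 2) * D := by ring
      _ < (2 * γ ^ 2 * (1 - γ) ^ 2 * θ) * D := mul_lt_mul_of_pos_right hΛ hD0

/-- the inequality for `S_2` -/
theorem core2 {γ σ σ₂ θ t k Q r D h2 : ℝ} (hγ0 : 0 < γ) (hγ1 : γ < 1) (hθ : 0 < θ)
    (ht : 0 ≤ t) (hk0 : 0 ≤ k) (hk1 : k ≤ 1) (hQ : 0 < Q) (hr : 0 ≤ r) (hD : Q + r = D)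
    (hh : h2 = σ ^ 2 * t + σ₂ ^ 2 * k)
    (h1a : D * σ₂ ^ 2 * (1 + γ) ≤ γ ^ 2 * (1 - γ))
    (h1b : 2 * D * σ ^ 2 * σ₂ ^ 2 ≤ γ * (1 - γ) ^ 2 * θ) (h3 : θ * D ≤ γ) :
    0 < (4 * γ ^ 2 * (Q + 2 * r) / Q ^ 3 - 8 * γ ^ 3 * r / Q ^ 3)
      + ((4 * γ * D / Q ^ 2) * ((1 - γ) * (θ + γ * h2))
        - (4 * γ ^ 2 * r / Q ^ 2) * ((1 - γ) * (θ + h2)))
      + (-((1 - γ) ^ 2 * (σ ^ 2 * σ₂ ^ 2)
        * (1 + γ * t * (1 - k) + (1 - γ) * k * t - γ * k))) := by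
  have hD0 : 0 < D := by linarith
  have hh0 : 0 ≤ h2 := by rw [hh]; positivity
  have hg1 : 0 < 1 - γ := by linarith
  have hE := detE_ge (σ := σ) (σ₂ := σ₂) hγ0 hγ1 ht hk0 hk1
  rw [← hh] at hE
  have hQD : Q ≤ D := by linarith
  have hQ3D : Q ^ 3 ≤ D ^ 3 := by gcongr
  have hQ2D : Q ^ 2 ≤ D ^ 2 := by gcongr
  -- first part
  have p1 : 4 * γ ^ 2 * (1 - γ) / D ^ 2
      ≤ 4 * γ ^ 2 * (Q + 2 * r) / Q ^ 3 - 8 * γ ^ 3 * r / Q ^ 3 := by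
    have e : 4 * γ ^ 2 * (Q + 2 * r) / Q ^ 3 - 8 * γ ^ 3 * r / Q ^ 3
        = 4 * γ ^ 2 * (Q + 2 * r - 2 * γ * r) / Q ^ 3 := by ring
    rw [e, div_le_div_iff₀ (by positivity) (by positivity)]
    have h1 : (1 - γ) * D ≤ Q + 2 * r - 2 * γ * r := by
      rw [← hD]
      nlinarith [mul_nonneg hγ0.le hQ.le, mul_nonneg hg1.le hr]
    calc 4 * γ ^ 2 * (1 - γ) * Q ^ 3 ≤ 4 * γ ^ 2 * (1 - γ) * D ^ 3 :=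
          mul_le_mul_of_nonneg_left hQ3D (by positivity)
      _ = 4 * γ ^ 2 * ((1 - γ) * D) * D ^ 2 := by ring
      _ ≤ 4 * γ ^ 2 * (Q + 2 * r - 2 * γ * r) * D ^ 2 := by gcongr
  -- second part
  have p2 : σ₂ ^ 2 * (1 + γ) * h2 ≤ (4 * γ * D / Q ^ 2) * ((1 - γ) * (θ + γ * h2))
        - (4 * γ ^ 2 * r / Q ^ 2) * ((1 - γ) * (θ + h2)) := by
    have e : (4 * γ * D / Q ^ 2) * ((1 - γ) * (θ + γ * h2))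
        - (4 * γ ^ 2 * r / Q ^ 2) * ((1 - γ) * (θ + h2))
        = (4 * γ * (1 - γ) * ((D - γ * r) * θ + γ * (D - r) * h2)) / Q ^ 2 := by
      ring
    rw [e, le_div_iff₀ (by positivity)]
    have hDr : D - r = Q := by linarith
    rw [hDr]
    have h1 : 0 ≤ (D - γ * r) * θ := by
      apply mul_nonneg _ hθ.le
      nlinarith
    have h2' := mul_le_mul_of_nonneg_right h1a hh0
    have h4 : σ₂ ^ 2 * (1 + γ) * h2 * Q ^ 2 ≤ (γ ^ 2 * (1 - γ) * h2) * Q := by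
      have h5 : Q * (D * σ₂ ^ 2 * (1 + γ) * h2) ≤ Q * (γ ^ 2 * (1 - γ) * h2) :=
        mul_le_mul_of_nonneg_left h2' hQ.le
      have h6 : Q * (Q * (σ₂ ^ 2 * (1 + γ) * h2)) ≤ Q * (D * (σ₂ ^ 2 * (1 + γ) * h2)) := by
        apply mul_le_mul_of_nonneg_left _ hQ.le
        apply mul_le_mul_of_nonneg_right hQD
        positivity
      linarith
    have h7 : 0 ≤ γ ^ 2 * (1 - γ) * h2 * Q := by positivity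
    have h8 : 0 ≤ 4 * γ * (1 - γ) * ((D - γ * r) * θ) := by positivity
    linarith
  -- third part
  have p3 : σ ^ 2 * σ₂ ^ 2 < 4 * γ ^ 2 * (1 - γ) / D ^ 2 := by
    rw [lt_div_iff₀ (by positivity)]
    have h1 := mul_le_mul_of_nonneg_right h1b hD0.le
    have h2 : γ * (1 - γ) ^ 2 * θ * D ≤ γ * (1 - γ) ^ 2 * γ := by
      have := mul_le_mul_of_nonneg_left h3 (show 0 ≤ γ * (1 - γ) ^ 2 by positivity)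
      linarith
    have h3' : γ * (1 - γ) ^ 2 * γ ≤ γ ^ 2 * (1 - γ) := by
      have : (1 - γ) ^ 2 ≤ 1 - γ := by nlinarith
      nlinarith [sq_nonneg γ]
    have h4 : 0 < γ ^ 2 * (1 - γ) := by positivity
    nlinarith
  linarith

end EBar

open EBar in
theorem bar_ineq {σ σ₂ γ d y₀ θ Λ : ℝ} {z : E4} (hγ0 : 0 < γ) (hγ1 : γ < 1) (hθ : 0 < θ)
    (hσ : σ₂ ^ 2 = σ ^ 2 - θ) (hd : 0 < d) (hcos : 0 < Real.cos (σ * z 0))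
    (hQ : z 1 ^ 2 + z 2 ^ 2 ≤ d ^ 2 / 2) (h1a : d ^ 2 * σ₂ ^ 2 * (1 + γ) ≤ γ ^ 2 * (1 - γ))
    (h1b : 2 * d ^ 2 * σ ^ 2 * σ₂ ^ 2 ≤ γ * (1 - γ) ^ 2 * θ) (h3 : θ * d ^ 2 ≤ γ)
    (h2 : Λ * d ^ 4 < 2 * γ ^ 2 * (1 - γ) ^ 2 * θ) :
    (∀ j, 1 ≤ j → j ≤ 3 → 0 < S j (Mw σ σ₂ γ d y₀ z)) ∧ Λ < S 3 (Mw σ σ₂ γ d y₀ z) := by
  have hg1 : 0 < 1 - γ := by linarith
  have hd2 : 0 < d ^ 2 := by positivity
  -- names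
  obtain ⟨t, ht⟩ : ∃ t, t = Real.tan (σ * z 0) ^ 2 := ⟨_, rfl⟩
  obtain ⟨k, hk⟩ : ∃ k, k = Real.tanh (σ₂ * (z 3 - y₀)) ^ 2 := ⟨_, rfl⟩
  have ht0 : 0 ≤ t := by rw [ht]; positivity
  have hk0 : 0 ≤ k := by rw [hk]; positivity
  have hch : 0 < Real.cosh (σ₂ * (z 3 - y₀)) := Real.cosh_pos _
  have hsec : 1 / Real.cos (σ * z 0) ^ 2 = 1 + t := by
    rw [ht, Real.tan_eq_sin_div_cos]
    have := Real.sin_sq_add_cos_sq (σ * z 0)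
    field_simp
    linarith
  have hsech : 1 / Real.cosh (σ₂ * (z 3 - y₀)) ^ 2 = 1 - k := by
    rw [hk, Real.tanh_eq_sinh_div_cosh]
    have := Real.cosh_sq (σ₂ * (z 3 - y₀))
    field_simp
    linarith
  have hk1 : k ≤ 1 := by
    have : 0 < 1 / Real.cosh (σ₂ * (z 3 - y₀)) ^ 2 := by positivity
    linarith
  obtain ⟨Q, hQd⟩ : ∃ Q, Q = d ^ 2 - z 1 ^ 2 - z 2 ^ 2 := ⟨_, rfl⟩
  have hQ0 : 0 < Q := by rw [hQd]; linarith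
  obtain ⟨q1, q2, q3, q4⟩ := quad (γ := γ) (x := z 1) (y := z 2) hQ0
  have hr0 : 0 ≤ z 1 ^ 2 + z 2 ^ 2 := by positivity
  have hD : Q + (z 1 ^ 2 + z 2 ^ 2) = d ^ 2 := by rw [hQd]; ring
  obtain ⟨hh, hhd⟩ : ∃ hh, hh = σ ^ 2 * t + σ₂ ^ 2 * k := ⟨_, rfl⟩
  have hf2 : (1 - γ) * σ ^ 2 / Real.cos (σ * z 0) ^ 2 = (1 - γ) * σ ^ 2 * (1 + t) := by
    rw [← hsec]; ring
  have hg2 : -((1 - γ) * σ₂ ^ 2 / Real.cosh (σ₂ * (z 3 - y₀)) ^ 2)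
      = -((1 - γ) * σ₂ ^ 2 * (1 - k)) := by
    rw [← hsech]; ring
  have hf1 : ((1 - γ) * σ * Real.tan (σ * z 0)) ^ 2 = (1 - γ) ^ 2 * σ ^ 2 * t := by
    rw [ht]; ring
  have hg1' : (-((1 - γ) * σ₂ * Real.tanh (σ₂ * (z 3 - y₀)))) ^ 2 = (1 - γ) ^ 2 * σ₂ ^ 2 * k := by
    rw [hk]; ring
  have hE1 : (1 - γ) * σ ^ 2 * (1 + t) + -((1 - γ) * σ₂ ^ 2 * (1 - k)) - (1 - γ) ^ 2 * σ ^ 2 * t
      - (1 - γ) ^ 2 * σ₂ ^ 2 * k = (1 - γ) * (θ + γ * hh) := by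
    have : θ = σ ^ 2 - σ₂ ^ 2 := by linarith
    rw [hhd, this]; ring
  have hA1 : (1 - γ) * σ ^ 2 * (1 + t) + -((1 - γ) * σ₂ ^ 2 * (1 - k)) = (1 - γ) * (θ + hh) := by
    have : θ = σ ^ 2 - σ₂ ^ 2 := by linarith
    rw [hhd, this]; ring
  have hE2 : (1 - γ) * σ ^ 2 * (1 + t) * -((1 - γ) * σ₂ ^ 2 * (1 - k))
      - (1 - γ) ^ 2 * σ ^ 2 * t * -((1 - γ) * σ₂ ^ 2 * (1 - k))
      - (1 - γ) ^ 2 * σ₂ ^ 2 * k * ((1 - γ) * σ ^ 2 * (1 + t))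
      = -((1 - γ) ^ 2 * (σ ^ 2 * σ₂ ^ 2)
        * (1 + γ * t * (1 - k) + (1 - γ) * k * t - γ * k)) := by ring
  have hA2 : (1 - γ) * σ ^ 2 * (1 + t) * -((1 - γ) * σ₂ ^ 2 * (1 - k))
      = -((1 - γ) ^ 2 * (σ ^ 2 * σ₂ ^ 2) * ((1 + t) * (1 - k))) := by ring
  have h1a' : d ^ 2 * σ₂ ^ 2 * (1 + γ) ≤ γ ^ 2 * (1 - γ) := h1a
  have h2' : Λ * (d ^ 2) ^ 2 < 2 * γ ^ 2 * (1 - γ) ^ 2 * θ := by
    have : (d ^ 2) ^ 2 = d ^ 4 := by ring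
    rw [this]; exact h2
  have h20 : (0 : ℝ) * (d ^ 2) ^ 2 < 2 * γ ^ 2 * (1 - γ) ^ 2 * θ := by
    rw [zero_mul]; positivity
  have e3 : S 3 (Mw σ σ₂ γ d y₀ z)
      = (4 * γ ^ 2 * (Q + 2 * (z 1 ^ 2 + z 2 ^ 2)) / Q ^ 3) * ((1 - γ) * (θ + γ * hh))
      - (8 * γ ^ 3 * (z 1 ^ 2 + z 2 ^ 2) / Q ^ 3) * ((1 - γ) * (θ + hh))
      + (4 * γ * d ^ 2 / Q ^ 2) * (-((1 - γ) ^ 2 * (σ ^ 2 * σ₂ ^ 2)
        * (1 + γ * t * (1 - k) + (1 - γ) * k * t - γ * k)))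
      - (4 * γ ^ 2 * (z 1 ^ 2 + z 2 ^ 2) / Q ^ 2)
        * (-((1 - γ) ^ 2 * (σ ^ 2 * σ₂ ^ 2) * ((1 + t) * (1 - k)))) := by
    unfold Mw
    rw [S3_Mb, ← hQd, hf1, hg1', hf2, hg2, q1, q2, q3, q4, hE1, hA1, hE2, hA2, hD]
  have e2 : S 2 (Mw σ σ₂ γ d y₀ z)
      = (4 * γ ^ 2 * (Q + 2 * (z 1 ^ 2 + z 2 ^ 2)) / Q ^ 3
          - 8 * γ ^ 3 * (z 1 ^ 2 + z 2 ^ 2) / Q ^ 3)
      + ((4 * γ * d ^ 2 / Q ^ 2) * ((1 - γ) * (θ + γ * hh))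
        - (4 * γ ^ 2 * (z 1 ^ 2 + z 2 ^ 2) / Q ^ 2) * ((1 - γ) * (θ + hh)))
      + (-((1 - γ) ^ 2 * (σ ^ 2 * σ₂ ^ 2)
        * (1 + γ * t * (1 - k) + (1 - γ) * k * t - γ * k))) := by
    unfold Mw
    rw [S2_Mb, ← hQd, hf1, hg1', hf2, hg2, q1, q2, q3, q4, hE1, hA1, hE2, hD]
  have e1 : S 1 (Mw σ σ₂ γ d y₀ z)
      = (1 - γ) * (θ + γ * hh)
        + (4 * γ * d ^ 2 / Q ^ 2 - 4 * γ ^ 2 * (z 1 ^ 2 + z 2 ^ 2) / Q ^ 2) := by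
    unfold Mw
    rw [S1_Mb, ← hQd, hf1, hg1', hf2, hg2, q3, q4, hE1, hD]
  have hc3 := fun (L : ℝ) (hL : L * (d ^ 2) ^ 2 < 2 * γ ^ 2 * (1 - γ) ^ 2 * θ) =>
    core3 hγ0 hγ1 hθ ht0 hk0 hk1 hQ0 hr0 hD hhd h1a' h1b hL
  have hc2 := core2 hγ0 hγ1 hθ ht0 hk0 hk1 hQ0 hr0 hD hhd h1a' h1b h3
  refine ⟨fun j hj1 hj3 => ?_, ?_⟩
  · obtain rfl | rfl | rfl : j = 1 ∨ j = 2 ∨ j = 3 := by omega
    · rw [e1]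
      have hh0 : 0 ≤ hh := by rw [hhd]; positivity
      have h4 : 0 < (1 - γ) * (θ + γ * hh) := by positivity
      have h5 : 0 ≤ 4 * γ * d ^ 2 / Q ^ 2 - 4 * γ ^ 2 * (z 1 ^ 2 + z 2 ^ 2) / Q ^ 2 := by
        have e : 4 * γ * d ^ 2 / Q ^ 2 - 4 * γ ^ 2 * (z 1 ^ 2 + z 2 ^ 2) / Q ^ 2
            = 4 * γ * (d ^ 2 - γ * (z 1 ^ 2 + z 2 ^ 2)) / Q ^ 2 := by ring
        rw [e]
        have h6 : γ * (z 1 ^ 2 + z 2 ^ 2) ≤ 1 * (z 1 ^ 2 + z 2 ^ 2) :=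
          mul_le_mul_of_nonneg_right hγ1.le hr0
        have h7 : 0 ≤ d ^ 2 - γ * (z 1 ^ 2 + z 2 ^ 2) := by linarith
        have h8 : 0 ≤ 4 * γ * (d ^ 2 - γ * (z 1 ^ 2 + z 2 ^ 2)) :=
          mul_nonneg (by linarith) h7
        exact div_nonneg h8 (sq_nonneg Q)
      exact add_pos_of_pos_of_nonneg h4 h5
    · rw [e2]; exact hc2
    · rw [e3]; exact hc3 0 h20
  · rw [e3]; exact hc3 Λ h2'

end Pool.Agent.Work.MP_d9fde0_an
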