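import Mathlib
import Pool.Agent.Work.MP_d9fde0_an.Defs
import Pool.Agent.Work.MP_d9fde0_an.LinAlg

/-!
# The comparison principle for `S_{n-1}(D²u) = 1`
-/

namespace Pool.Agent.Work.MP_d9fde0_an

open Matrix

theorem hess_isHermitian {n : ℕ} {u : EuclideanSpace ℝ (Fin n) → ℝ}
    {x : EuclideanSpace ℝ (Fin n)} (hu : ContDiffAt ℝ 2 u x) : (hess u x).IsHermitian := by
  have hs : IsSymmSndFDerivAt ℝ u x := hu.isSymmSndFDerivAt (by simp)
  ext i j
  simp only [Matrix.conjTranspose_apply, hess, Matrix.of_apply, star_trivial]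
  rw [iteratedFDeriv_two_apply, iteratedFDeriv_two_apply]
  exact hs.eq _ _

theorem iteratedFDeriv_eq_hess {n : ℕ} (u : EuclideanSpace ℝ (Fin n) → ℝ)
    (x v : EuclideanSpace ℝ (Fin n)) :
    iteratedFDeriv ℝ 2 u x ![v, v] = (v : Fin n → ℝ) ⬝ᵥ (hess u x *ᵥ (v : Fin n → ℝ)) := by
  have hv : v = ∑ i, v i • EuclideanSpace.single i (1 : ℝ) := by
    ext j
    simp [Finset.sum_apply, Pi.single_apply]
  rw [iteratedFDeriv_two_apply]
  simp only [Matrix.cons_val_zero, Matrix.cons_val_one]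
  conv_lhs => rw [hv]
  simp only [map_sum, map_smul, dotProduct, Matrix.mulVec, hess, Matrix.of_apply,
    iteratedFDeriv_two_apply, Matrix.cons_val_zero, Matrix.cons_val_one]
  simp only [_root_.sum_apply, _root_.smul_apply, smul_eq_mul, Finset.mul_sum]
  rw [Finset.sum_comm]
  refine Finset.sum_congr rfl (fun i _ => ?_)
  refine Finset.sum_congr rfl (fun j _ => ?_)
  ring

theorem hess_const_smul {n : ℕ} {u : EuclideanSpace ℝ (Fin n) → ℝ}
    {x : EuclideanSpace ℝ (Fin n)} (hu : ContDiffAt ℝ 2 u x) (c : ℝ) :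
    hess (fun y => c * u y) x = c • hess u x := by
  ext i j
  simp only [hess, Matrix.of_apply, Matrix.smul_apply, smul_eq_mul]
  have h1 := iteratedFDeriv_const_smul_apply' (a := c) (i := 2) hu
  simp only [smul_eq_mul] at h1
  rw [h1]
  simp

/-- second order condition at a local maximum -/
theorem iteratedFDeriv_nonpos_of_isLocalMax {n : ℕ} {f : EuclideanSpace ℝ (Fin n) → ℝ}
    {x : EuclideanSpace ℝ (Fin n)} (hf : ContDiffAt ℝ 2 f x) (hmax : IsLocalMax f x)
    (v : EuclideanSpace ℝ (Fin n)) : iteratedFDeriv ℝ 2 f x ![v, v] ≤ 0 := by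
  by_contra hcon
  push Not at hcon
  set g : ℝ → ℝ := fun t => f (x + t • v) with hg
  have hline : ∀ t : ℝ, HasDerivAt (fun t : ℝ => x + t • v) v t := by
    intro t
    simpa using ((hasDerivAt_id t).smul_const v).const_add x
  have hcont : Continuous (fun t : ℝ => x + t • v) := by fun_prop
  have h0 : x + (0 : ℝ) • v = x := by simp
  -- differentiability near `x`
  have hnear : ∀ᶠ y in nhds x, DifferentiableAt ℝ f y := by
    have := hf.eventually (by simp)
    filter_upwards [this] with y hy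
    exact hy.differentiableAt (by norm_num)
  have hnear' : ∀ᶠ t in nhds (0 : ℝ), DifferentiableAt ℝ f (x + t • v) := by
    have h1 := hcont.tendsto 0
    simp only [h0] at h1
    exact h1.eventually hnear
  have hd1 : ∀ᶠ t in nhds (0 : ℝ), deriv g t = fderiv ℝ f (x + t • v) v := by
    filter_upwards [hnear'] with t ht
    exact (ht.hasFDerivAt.comp_hasDerivAt t (hline t)).deriv
  have hfd : DifferentiableAt ℝ (fderiv ℝ f) x :=
    (hf.fderiv_right (m := 1) (by norm_num)).differentiableAt (by norm_num)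
  have hd2 : deriv (deriv g) 0 = iteratedFDeriv ℝ 2 f x ![v, v] := by
    rw [Filter.EventuallyEq.deriv_eq hd1]
    have h1 : HasDerivAt (fun t : ℝ => fderiv ℝ f (x + t • v)) (fderiv ℝ (fderiv ℝ f) x v) 0 := by
      have h2 : HasFDerivAt (fderiv ℝ f) (fderiv ℝ (fderiv ℝ f) x) (x + (0 : ℝ) • v) := by
        rw [h0]; exact hfd.hasFDerivAt
      exact h2.comp_hasDerivAt (0 : ℝ) (hline 0)
    have h3 := (h1.clm_apply (hasDerivAt_const (0 : ℝ) v)).deriv
    rw [h3, iteratedFDeriv_two_apply]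
    simp
  have hmaxg : IsLocalMax g 0 := by
    have : Filter.Tendsto (fun t : ℝ => x + t • v) (nhds 0) (nhds x) := by
      have := hcont.tendsto 0
      rwa [h0] at this
    have h1 := this.eventually hmax
    filter_upwards [h1] with t ht
    simp only [hg, h0]
    exact ht
  have hd0 : deriv g 0 = 0 := hmaxg.deriv_eq_zero
  have hcg : ContinuousAt g 0 := by
    have h1 : ContinuousAt f (x + (0 : ℝ) • v) := by rw [h0]; exact hf.continuousAt
    exact ContinuousAt.comp (f := fun t : ℝ => x + t • v) (x := (0 : ℝ)) h1 hcont.continuousAt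
  have hmin : IsLocalMin g 0 := isLocalMin_of_deriv_deriv_pos (by rw [hd2]; exact hcon) hd0 hcg
  have hconst : g =ᶠ[nhds 0] fun _ => g 0 := by
    filter_upwards [hmaxg, hmin] with t h1 h2
    exact le_antisymm h1 h2
  have hz : deriv (deriv g) 0 = 0 := by
    rw [hconst.deriv.deriv_eq]
    simp
  rw [hd2] at hz
  linarith

theorem exists_isLocalMax {n : ℕ} {Ω : Set (EuclideanSpace ℝ (Fin n))} (hΩ : IsOpen Ω)
    (hb : Bornology.IsBounded Ω) {f : EuclideanSpace ℝ (Fin n) → ℝ}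
    (hf : ContinuousOn f (closure Ω)) (hfb : ∀ x ∈ frontier Ω, f x ≤ 0)
    {x₁ : EuclideanSpace ℝ (Fin n)} (hx₁ : x₁ ∈ Ω) (hpos : 0 < f x₁) :
    ∃ x₀ ∈ Ω, IsLocalMax f x₀ := by
  have hcomp : IsCompact (closure Ω) := hb.isCompact_closure
  obtain ⟨x₀, hx₀, hmax⟩ := hcomp.exists_isMaxOn ⟨x₁, subset_closure hx₁⟩ hf
  have h1 : f x₁ ≤ f x₀ := hmax (subset_closure hx₁)
  have hmem : x₀ ∈ Ω := by
    by_contra hcon
    have : x₀ ∈ frontier Ω := by
      rw [hΩ.frontier_eq]
      exact ⟨hx₀, hcon⟩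
    linarith [hfb x₀ this]
  refine ⟨x₀, hmem, ?_⟩
  filter_upwards [hΩ.mem_nhds hmem] with y hy
  exact hmax (subset_closure hy)

/-- at a local maximum of `f - g` the Hessian of `g` dominates that of `f` -/
theorem posSemidef_of_isLocalMax {n : ℕ} {f g : EuclideanSpace ℝ (Fin n) → ℝ}
    {x : EuclideanSpace ℝ (Fin n)} (hf : ContDiffAt ℝ 2 f x) (hg : ContDiffAt ℝ 2 g x)
    (hmax : IsLocalMax (fun y => f y - g y) x) : (hess g x - hess f x).PosSemidef := by
  apply Matrix.PosSemidef.of_dotProduct_mulVec_nonneg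
  · exact (hess_isHermitian hg).sub (hess_isHermitian hf)
  · intro v
    have h1 := iteratedFDeriv_nonpos_of_isLocalMax (hf.sub hg) hmax (WithLp.toLp 2 v)
    have h2 : iteratedFDeriv ℝ 2 (fun y => f y - g y) x
        = iteratedFDeriv ℝ 2 f x - iteratedFDeriv ℝ 2 g x := iteratedFDeriv_sub_apply hf hg
    rw [h2] at h1
    simp only [_root_.sub_apply, iteratedFDeriv_eq_hess] at h1
    rw [Matrix.sub_mulVec, dotProduct_sub]
    simp only [star_trivial]
    linarith

/-- comparison from above -/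
theorem le_of_super {n : ℕ} (hn : 2 ≤ n) {Ω : Set (EuclideanSpace ℝ (Fin n))} (hΩ : IsOpen Ω)
    (hb : Bornology.IsBounded Ω) {u W : EuclideanSpace ℝ (Fin n) → ℝ}
    (hu : IsSolutionT (n - 1) Ω u) (hW : ContDiff ℝ 2 W) (hWb : ∀ x ∈ frontier Ω, 0 ≤ W x)
    (hWS : ∀ x ∈ Ω, S (n - 1) (hess W x) < 1) : ∀ x ∈ Ω, u x ≤ W x := by
  intro x hx
  by_contra hcon
  push Not at hcon
  obtain ⟨x₀, hx₀, hmax⟩ := exists_isLocalMax hΩ hb (f := fun y => u y - W y)
    (hu.continuousOn.sub hW.continuous.continuousOn)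
    (fun y hy => by
      have h1 := hu.boundary y hy
      have h2 := hWb y hy
      linarith) hx (by linarith)
  have hu2 : ContDiffAt ℝ 2 u x₀ := hu.contDiffOn.contDiffAt (hΩ.mem_nhds hx₀)
  have hP := posSemidef_of_isLocalMax hu2 hW.contDiffAt hmax
  have h1 := S_mono hn (hess_isHermitian hu2) hP (fun j hj1 hj2 => hu.admissible x₀ hx₀ j hj1 hj2)
  rw [add_sub_cancel, hu.equation x₀ hx₀] at h1
  linarith [hWS x₀ hx₀]

/-- comparison from below -/
theorem ge_of_sub {n : ℕ} (hn : 2 ≤ n) {Ω : Set (EuclideanSpace ℝ (Fin n))} (hΩ : IsOpen Ω)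
    (hb : Bornology.IsBounded Ω) {u W : EuclideanSpace ℝ (Fin n) → ℝ}
    (hu : IsSolutionT (n - 1) Ω u) (hW : ContDiff ℝ 2 W) (hWb : ∀ x ∈ frontier Ω, W x ≤ 0)
    (hWadm : ∀ x ∈ Ω, ∀ i, 1 ≤ i → i ≤ n - 1 → 0 < S i (hess W x))
    (hWS : ∀ x ∈ Ω, 1 < S (n - 1) (hess W x)) : ∀ x ∈ Ω, W x ≤ u x := by
  intro x hx
  by_contra hcon
  push Not at hcon
  obtain ⟨x₀, hx₀, hmax⟩ := exists_isLocalMax hΩ hb (f := fun y => W y - u y)
    (hW.continuous.continuousOn.sub hu.continuousOn)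
    (fun y hy => by
      have h1 := hu.boundary y hy
      have h2 := hWb y hy
      linarith) hx (by linarith)
  have hu2 : ContDiffAt ℝ 2 u x₀ := hu.contDiffOn.contDiffAt (hΩ.mem_nhds hx₀)
  have hP := posSemidef_of_isLocalMax hW.contDiffAt hu2 hmax
  have h1 := S_mono hn (hess_isHermitian hW.contDiffAt) hP
    (fun j hj1 hj2 => hWadm x₀ hx₀ j hj1 hj2)
  rw [add_sub_cancel, hu.equation x₀ hx₀] at h1
  linarith [hWS x₀ hx₀]

end Pool.Agent.Work.MP_d9fde0_an
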