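import Mathlib
import Pool.Agent.Work.MP_d9fde0_an.LinAlg

/-!
# The trace of a matrix in `Γ_{n-1}` on a two-plane is positive
-/

set_option autoImplicit false

namespace Pool.Agent.Work.MP_d9fde0_an

open Matrix Polynomial

namespace EPlane

variable {n : ℕ}

/-- if the derivative of `∏ (s + l_i)` is positive on `[0, ∞)`, sums of two entries are positive -/
theorem pair_pos (l : Fin n → ℝ)
    (hg : ∀ s : ℝ, 0 ≤ s → 0 < (derivative (∏ i, (Polynomial.X + C (l i)))).eval s)
    (i j : Fin n) (hij : i ≠ j) : 0 < l i + l j := by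
  classical
  have hmono : StrictMonoOn (fun s => (∏ i, (Polynomial.X + C (l i))).eval s) (Set.Ici (0 : ℝ)) := by
    apply strictMonoOn_of_deriv_pos (convex_Ici 0)
    · exact (Polynomial.continuous _).continuousOn
    · intro x hx
      rw [interior_Ici] at hx
      rw [Polynomial.deriv]
      exact hg x (le_of_lt hx)
  have hroot : ∀ j, (∏ i, (Polynomial.X + C (l i))).eval (-(l j)) = 0 := by
    intro j
    rw [eval_prod]
    apply Finset.prod_eq_zero (Finset.mem_univ j)
    simp
  have hU' : ∀ j j', j ≠ j' → l j ≤ 0 → l j' ≤ 0 → l j < l j' → False := by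
    intro j j' hne h1 h2 h3
    have := hmono (a := -(l j')) (b := -(l j)) (by simp; exact h2) (by simp; exact h1) (by linarith)
    simp only [hroot] at this
    exact lt_irrefl _ this
  have hU : ∀ j j', j ≠ j' → l j ≤ 0 → l j' ≤ 0 → False := by
    intro j j' hne h1 h2
    rcases lt_trichotomy (l j) (l j') with h3 | h3 | h3
    · exact hU' j j' hne h1 h2 h3
    · have h4 := hg (-(l j)) (by linarith)
      rw [derivative_prod_X_add_C] at h4
      have h5 : ∑ i, ∏ k ∈ Finset.univ.erase i, (-(l j) + l k) = 0 := by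
        apply Finset.sum_eq_zero
        intro i _
        by_cases hij : i = j
        · subst hij
          apply Finset.prod_eq_zero (i := j') (by simp [hne.symm])
          rw [h3]; ring
        · apply Finset.prod_eq_zero (i := j) (by simp [Ne.symm hij])
          ring
      rw [h5] at h4
      exact lt_irrefl _ h4
    · exact hU' j' j hne.symm h2 h1 h3
  -- the main case
  have main : ∀ i j, i ≠ j → l i ≤ 0 → 0 < l i + l j := by
    intro i j hij hi
    have hpos : ∀ k, k ≠ i → 0 < l k := by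
      intro k hk
      by_contra hcon
      exact hU k i hk (by linarith) hi
    have h0 := hg 0 le_rfl
    rw [derivative_prod_X_add_C] at h0
    simp only [zero_add] at h0
    rw [← Finset.add_sum_erase Finset.univ _ (Finset.mem_univ i)] at h0
    have hj : j ∈ Finset.univ.erase i := by simp [hij.symm]
    rw [← Finset.add_sum_erase (Finset.univ.erase i) _ hj] at h0
    have e1 : ∏ k ∈ Finset.univ.erase i, l k =
        l j * ∏ k ∈ (Finset.univ.erase i).erase j, l k := by
      rw [Finset.mul_prod_erase _ _ hj]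
    have e2 : ∏ k ∈ Finset.univ.erase j, l k =
        l i * ∏ k ∈ (Finset.univ.erase i).erase j, l k := by
      rw [Finset.erase_right_comm, Finset.mul_prod_erase _ _ (by simp [hij])]
    have e3 : ∑ m ∈ (Finset.univ.erase i).erase j, ∏ k ∈ Finset.univ.erase m, l k ≤ 0 := by
      apply Finset.sum_nonpos
      intro m hm
      simp only [Finset.mem_erase, Finset.mem_univ, and_true] at hm
      rw [← Finset.mul_prod_erase (Finset.univ.erase m) l
        (by simp [Ne.symm hm.2] : i ∈ Finset.univ.erase m)]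
      apply mul_nonpos_of_nonpos_of_nonneg hi
      apply Finset.prod_nonneg
      intro k hk
      simp only [Finset.mem_erase, Finset.mem_univ, and_true] at hk
      exact (hpos k hk.1).le
    have e4 : 0 < ∏ k ∈ (Finset.univ.erase i).erase j, l k := by
      apply Finset.prod_pos
      intro k hk
      simp only [Finset.mem_erase, Finset.mem_univ, and_true] at hk
      exact hpos k hk.2
    rw [e1, e2] at h0
    by_contra hcon
    push Not at hcon
    nlinarith
  by_cases hi : l i ≤ 0
  · exact main i j hij hi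
  · by_cases hj : l j ≤ 0
    · have := main j i hij.symm hj
      linarith
    · push Not at hi hj
      linarith

/-- weighted sums of the entries -/
theorem weighted (hn : 2 ≤ n) (l p : Fin n → ℝ) (hl : ∀ i j, i ≠ j → 0 < l i + l j)
    (hp0 : ∀ i, 0 ≤ p i) (hp1 : ∀ i, p i ≤ 1) (hp : ∑ i, p i = 2) : 0 < ∑ i, l i * p i := by
  classical
  have hne : (Finset.univ : Finset (Fin n)).Nonempty := ⟨⟨0, by omega⟩, Finset.mem_univ _⟩
  obtain ⟨i, _, hi⟩ := Finset.exists_min_image Finset.univ l hne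
  have hne2 : (Finset.univ.erase i : Finset (Fin n)).Nonempty := by
    rw [← Finset.card_pos, Finset.card_erase_of_mem (Finset.mem_univ i), Finset.card_univ,
      Fintype.card_fin]
    omega
  obtain ⟨j, hj, hj2⟩ := Finset.exists_min_image (Finset.univ.erase i) l hne2
  have hji : j ≠ i := (Finset.mem_erase.1 hj).1
  have hc := hl i j hji.symm
  have h1 : l j * ∑ k ∈ Finset.univ.erase i, p k ≤ ∑ k ∈ Finset.univ.erase i, l k * p k := by
    rw [Finset.mul_sum]
    apply Finset.sum_le_sum
    intro k hk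
    exact mul_le_mul_of_nonneg_right (hj2 k hk) (hp0 k)
  have h2 : p i + ∑ k ∈ Finset.univ.erase i, p k = 2 := by
    rw [← hp, Finset.add_sum_erase Finset.univ _ (Finset.mem_univ i)]
  have h3 : l i * p i + ∑ k ∈ Finset.univ.erase i, l k * p k = ∑ k, l k * p k :=
    Finset.add_sum_erase Finset.univ (fun k => l k * p k) (Finset.mem_univ i)
  have h4 : l i ≤ l j := hi j (Finset.mem_univ j)
  have h5 : ∑ k ∈ Finset.univ.erase i, p k = 2 - p i := by linarith
  rw [h5] at h1
  have h6 := hp1 i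
  nlinarith [mul_nonneg (sub_nonneg.2 h6) (sub_nonneg.2 h4)]

/-- Bessel's inequality for two orthonormal vectors and a coordinate vector -/
theorem bessel (x y : Fin n → ℝ) (hx : x ⬝ᵥ x = 1) (hy : y ⬝ᵥ y = 1) (hxy : x ⬝ᵥ y = 0)
    (m : Fin n) : x m ^ 2 + y m ^ 2 ≤ 1 := by
  have h0 : 0 ≤ ∑ k, ((if k = m then (1 : ℝ) else 0) - x m * x k - y m * y k) ^ 2 :=
    Finset.sum_nonneg fun k _ => sq_nonneg _
  have h1 : ∀ k, ((if k = m then (1 : ℝ) else 0) - x m * x k - y m * y k) ^ 2 =
      (if k = m then (1 : ℝ) else 0) - 2 * x m * (if k = m then x k else 0)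
        - 2 * y m * (if k = m then y k else 0) + x m ^ 2 * (x k * x k) + y m ^ 2 * (y k * y k)
        + 2 * x m * y m * (x k * y k) := by
    intro k
    split_ifs <;> ring
  rw [Finset.sum_congr rfl (fun k _ => h1 k)] at h0
  simp only [Finset.sum_add_distrib, Finset.sum_sub_distrib, ← Finset.mul_sum,
    Finset.sum_ite_eq', Finset.mem_univ, if_true] at h0
  have hx' : ∑ k, x k * x k = 1 := hx
  have hy' : ∑ k, y k * y k = 1 := hy
  have hxy' : ∑ k, x k * y k = 0 := hxy
  rw [hx', hy', hxy'] at h0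
  nlinarith

end EPlane

open EPlane

theorem trace_pos {n : ℕ} (hn : 2 ≤ n) {A : Matrix (Fin n) (Fin n) ℝ} (hA : A.IsHermitian)
    (h : ∀ j, 1 ≤ j → j ≤ n - 1 → 0 < S j A) {e f : Fin n → ℝ} (he : e ⬝ᵥ e = 1)
    (hf : f ⬝ᵥ f = 1) (hef : e ⬝ᵥ f = 0) : 0 < e ⬝ᵥ (A *ᵥ e) + f ⬝ᵥ (A *ᵥ f) := by
  have hg := good_of_pos (by omega) h
  have hg' : ∀ s : ℝ, 0 ≤ s →
      0 < (derivative (∏ i, (Polynomial.X + C (hA.eigenvalues i)))).eval s := by
    intro s hs
    rw [← charpoly_neg_of_isHermitian hA]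
    exact hg s hs
  set U : Matrix (Fin n) (Fin n) ℝ := (hA.eigenvectorUnitary : Matrix (Fin n) (Fin n) ℝ) with hUdef
  have hUU : U * star U = 1 := Unitary.coe_mul_star_self hA.eigenvectorUnitary
  have hstar : star U = Uᵀ := by
    rw [Matrix.star_eq_conjTranspose, Matrix.conjTranspose_eq_transpose_of_trivial]
  rw [hstar] at hUU
  have hA1 : A = U * diagonal hA.eigenvalues * Uᵀ := by
    conv_lhs => rw [hA.spectral_theorem, Unitary.conjStarAlgAut_apply]
    rw [← hstar]
    rfl
  have hdot : ∀ a b : Fin n → ℝ, (Uᵀ *ᵥ a) ⬝ᵥ (Uᵀ *ᵥ b) = a ⬝ᵥ b := by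
    intro a b
    rw [Matrix.dotProduct_mulVec, Matrix.vecMul_transpose, Matrix.mulVec_mulVec, hUU,
      Matrix.one_mulVec]
  have hquad : ∀ a : Fin n → ℝ, a ⬝ᵥ (A *ᵥ a) =
      ∑ i, hA.eigenvalues i * ((Uᵀ *ᵥ a) i) ^ 2 := by
    intro a
    have h1 : A *ᵥ a = U *ᵥ (diagonal hA.eigenvalues *ᵥ (Uᵀ *ᵥ a)) := by
      conv_lhs => rw [hA1]
      rw [Matrix.mulVec_mulVec, Matrix.mulVec_mulVec]
    rw [h1, Matrix.dotProduct_mulVec]
    have h2 : a ᵥ* U = Uᵀ *ᵥ a := by
      rw [Matrix.mulVec_transpose]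
    rw [h2]
    simp only [dotProduct, Matrix.mulVec_diagonal]
    apply Finset.sum_congr rfl
    intro i _
    ring
  rw [hquad e, hquad f, ← Finset.sum_add_distrib]
  have h2 : ∀ i, hA.eigenvalues i * ((Uᵀ *ᵥ e) i) ^ 2 + hA.eigenvalues i * ((Uᵀ *ᵥ f) i) ^ 2 =
      hA.eigenvalues i * (((Uᵀ *ᵥ e) i) ^ 2 + ((Uᵀ *ᵥ f) i) ^ 2) := fun i => by ring
  rw [Finset.sum_congr rfl (fun i _ => h2 i)]
  apply weighted hn
  · intro i j hij
    exact pair_pos _ hg' i j hij
  · intro i
    positivity
  · intro i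
    apply bessel
    · rw [hdot, he]
    · rw [hdot, hf]
    · rw [hdot, hef]
  · rw [Finset.sum_add_distrib]
    have h3 : ∀ a : Fin n → ℝ, ∑ i, ((Uᵀ *ᵥ a) i) ^ 2 = a ⬝ᵥ a := by
      intro a
      rw [← hdot a a]
      simp only [dotProduct]
      apply Finset.sum_congr rfl
      intro i _
      ring
    rw [h3, h3, he, hf]
    norm_num

end Pool.Agent.Work.MP_d9fde0_an
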