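import Mathlib
import Pool.Agent.Work.MP_d9fde0_an.EDefs
import Pool.Agent.Work.MP_d9fde0_an.Compare
import Pool.Agent.Work.MP_d9fde0_an.EPlane

/-!
# Second derivatives along lines
-/

set_option autoImplicit false

namespace Pool.Agent.Work.MP_d9fde0_an

open Matrix Filter Topology

theorem line_of_contDiffAt {n : ℕ} {f : EuclideanSpace ℝ (Fin n) → ℝ}
    {x : EuclideanSpace ℝ (Fin n)} (hf : ContDiffAt ℝ 2 f x) (v : EuclideanSpace ℝ (Fin n)) :
    ∃ φ' : ℝ → ℝ, (∀ᶠ s in 𝓝 (0 : ℝ), HasDerivAt (fun s : ℝ => f (x + s • v)) (φ' s) s) ∧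
      HasDerivAt φ' ((v : Fin n → ℝ) ⬝ᵥ (hess f x *ᵥ (v : Fin n → ℝ))) 0 := by
  have hline : ∀ t : ℝ, HasDerivAt (fun t : ℝ => x + t • v) v t := by
    intro t
    simpa using ((hasDerivAt_id t).smul_const v).const_add x
  have hcont : Continuous (fun t : ℝ => x + t • v) := by fun_prop
  have h0 : x + (0 : ℝ) • v = x := by simp
  have hnear : ∀ᶠ y in nhds x, DifferentiableAt ℝ f y := by
    have := hf.eventually (by simp)
    filter_upwards [this] with y hy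
    exact hy.differentiableAt (by norm_num)
  have hnear' : ∀ᶠ t in nhds (0 : ℝ), DifferentiableAt ℝ f (x + t • v) := by
    have h1 := hcont.tendsto 0
    simp only [h0] at h1
    exact h1.eventually hnear
  have hfd : DifferentiableAt ℝ (fderiv ℝ f) x :=
    (hf.fderiv_right (m := 1) (by norm_num)).differentiableAt (by norm_num)
  refine ⟨fun t => fderiv ℝ f (x + t • v) v, ?_, ?_⟩
  · filter_upwards [hnear'] with t ht
    exact ht.hasFDerivAt.comp_hasDerivAt t (hline t)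
  · rw [← iteratedFDeriv_eq_hess]
    have h1 : HasDerivAt (fun t : ℝ => fderiv ℝ f (x + t • v)) (fderiv ℝ (fderiv ℝ f) x v) 0 := by
      have h2 : HasFDerivAt (fderiv ℝ f) (fderiv ℝ (fderiv ℝ f) x) (x + (0 : ℝ) • v) := by
        rw [h0]; exact hfd.hasFDerivAt
      exact h2.comp_hasDerivAt (0 : ℝ) (hline 0)
    have h3 := h1.clm_apply (hasDerivAt_const (0 : ℝ) v)
    rw [iteratedFDeriv_two_apply]
    refine h3.congr_deriv ?_
    simp

namespace ELine

theorem eq_of_quad {n : ℕ} {M N : Matrix (Fin n) (Fin n) ℝ} (hM : M.IsHermitian)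
    (hN : N.IsHermitian) (h : ∀ v : Fin n → ℝ, v ⬝ᵥ (M *ᵥ v) = v ⬝ᵥ (N *ᵥ v)) : M = N := by
  have hM' : ∀ i j, M j i = M i j := by
    intro i j
    have := hM.apply i j
    simpa using this
  have hN' : ∀ i j, N j i = N i j := by
    intro i j
    have := hN.apply i j
    simpa using this
  have key : ∀ (P : Matrix (Fin n) (Fin n) ℝ), (∀ i j, P j i = P i j) → ∀ i j,
      2 * P i j = (Pi.single i (1 : ℝ) + Pi.single j 1) ⬝ᵥ (P *ᵥ (Pi.single i (1 : ℝ) +
        Pi.single j 1)) - (Pi.single i (1 : ℝ)) ⬝ᵥ (P *ᵥ (Pi.single i (1 : ℝ))) -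
        (Pi.single j (1 : ℝ)) ⬝ᵥ (P *ᵥ (Pi.single j (1 : ℝ))) := by
    intro P hP i j
    rw [Matrix.mulVec_add, add_dotProduct, dotProduct_add, dotProduct_add]
    simp only [Matrix.mulVec_single_one, single_dotProduct, one_mul, Matrix.col_apply]
    rw [hP i j]
    ring
  ext i j
  have h1 := key M hM' i j
  have h2 := key N hN' i j
  rw [h, h, h, ← h2] at h1
  linarith

theorem dotProduct_self_of_norm {n : ℕ} {e : EuclideanSpace ℝ (Fin n)} (he : ‖e‖ = 1) :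
    (e : Fin n → ℝ) ⬝ᵥ (e : Fin n → ℝ) = 1 := by
  have h := EuclideanSpace.norm_sq_eq e
  rw [he] at h
  simp only [Real.norm_eq_abs, sq_abs] at h
  rw [dotProduct]
  rw [one_pow] at h
  rw [h]
  exact Finset.sum_congr rfl fun i _ => by ring

theorem dotProduct_of_inner {n : ℕ} {e f : EuclideanSpace ℝ (Fin n)} (hef : inner ℝ e f = 0) :
    (e : Fin n → ℝ) ⬝ᵥ (f : Fin n → ℝ) = 0 := by
  rw [EuclideanSpace.inner_eq_star_dotProduct] at hef
  rw [dotProduct_comm]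
  simpa using hef

end ELine

open ELine

theorem hess_eq_of_line {n : ℕ} {f : EuclideanSpace ℝ (Fin n) → ℝ}
    {x : EuclideanSpace ℝ (Fin n)} (hf : ContDiffAt ℝ 2 f x) {N : Matrix (Fin n) (Fin n) ℝ}
    (hN : N.IsHermitian) (h : ∀ v : EuclideanSpace ℝ (Fin n), ∃ φ' : ℝ → ℝ,
      (∀ᶠ s in 𝓝 (0 : ℝ), HasDerivAt (fun s : ℝ => f (x + s • v)) (φ' s) s) ∧
      HasDerivAt φ' ((v : Fin n → ℝ) ⬝ᵥ (N *ᵥ (v : Fin n → ℝ))) 0) : hess f x = N := by
  apply eq_of_quad (hess_isHermitian hf) hN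
  intro v
  obtain ⟨φ₁, h1, h2⟩ := line_of_contDiffAt hf (WithLp.toLp 2 v)
  obtain ⟨φ₂, h3, h4⟩ := h (WithLp.toLp 2 v)
  have h5 : φ₂ =ᶠ[𝓝 0] φ₁ := by
    filter_upwards [h1, h3] with s hs1 hs3
    exact hs3.unique hs1
  have h6 := h2.congr_of_eventuallyEq h5
  exact h6.unique h4

/-- on each two-plane `-u` is strictly superharmonic -/
theorem sup2_of_solution {Ω : Set E4} (hΩ : IsOpen Ω) {Λ : ℝ} {u : E4 → ℝ}
    (hu : IsSolutionE 3 Λ Ω u) {e f : E4} (he : ‖e‖ = 1) (hf : ‖f‖ = 1) (hef : inner ℝ e f = 0)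
    (p : E4) {a b : ℝ} (h : p + a • e + b • f ∈ Ω) :
    Sup2 (fun a b => -u (p + a • e + b • f)) a b := by
  set x : E4 := p + a • e + b • f with hx
  have hc : ContDiffAt ℝ 2 u x := hu.contDiffOn.contDiffAt (hΩ.mem_nhds h)
  have htr := trace_pos (n := 4) (by norm_num) (hess_isHermitian hc)
    (fun j h1 h2 => hu.admissible x h j h1 h2) (dotProduct_self_of_norm he)
    (dotProduct_self_of_norm hf) (dotProduct_of_inner hef)
  obtain ⟨φ₁, h1, h2⟩ := line_of_contDiffAt hc e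
  obtain ⟨φ₂, h3, h4⟩ := line_of_contDiffAt hc f
  have hshift : ∀ c : ℝ, Tendsto (fun s : ℝ => s - c) (𝓝 c) (𝓝 0) := by
    intro c
    have : Tendsto (fun s : ℝ => s - c) (𝓝 c) (𝓝 (c - c)) := (continuous_sub_right c).tendsto c
    rwa [sub_self] at this
  refine ⟨-((e : Fin 4 → ℝ) ⬝ᵥ (hess u x *ᵥ (e : Fin 4 → ℝ))),
    -((f : Fin 4 → ℝ) ⬝ᵥ (hess u x *ᵥ (f : Fin 4 → ℝ))),
    ⟨⟨fun s => -φ₁ (s - a), ?_, ?_⟩, ⟨fun s => -φ₂ (s - b), ?_, ?_⟩⟩, ?_⟩
  · filter_upwards [(hshift a).eventually h1] with s hs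
    have h5 := (hs.comp_sub_const s a).neg
    refine h5.congr_of_eventuallyEq (Eventually.of_forall fun t => ?_)
    simp only
    congr 2
    rw [hx, sub_smul]
    abel
  · have h5 : HasDerivAt φ₁ ((e : Fin 4 → ℝ) ⬝ᵥ (hess u x *ᵥ (e : Fin 4 → ℝ))) (a - a) := by
      rw [sub_self]; exact h2
    exact (h5.comp_sub_const a a).neg
  · filter_upwards [(hshift b).eventually h3] with s hs
    have h5 := (hs.comp_sub_const s b).neg
    refine h5.congr_of_eventuallyEq (Eventually.of_forall fun t => ?_)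
    simp only
    congr 2
    rw [hx, sub_smul]
    abel
  · have h5 : HasDerivAt φ₂ ((f : Fin 4 → ℝ) ⬝ᵥ (hess u x *ᵥ (f : Fin 4 → ℝ))) (b - b) := by
      rw [sub_self]; exact h4
    exact (h5.comp_sub_const b b).neg
  · linarith

end Pool.Agent.Work.MP_d9fde0_an
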