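import Mathlib
import Pool.Agent.Work.MP_d9fde0_an.EDefs
import Pool.Agent.Work.MP_d9fde0_an.ELine

/-!
# The Hessian of the barrier
-/

namespace Pool.Agent.Work.MP_d9fde0_an

open Matrix Filter Topology

namespace EBarHess

theorem contDiff_coord4 (i : Fin 4) : ContDiff ℝ 2 (fun z : E4 => z i) :=
  contDiff_euclidean.mp contDiff_id i

/-- the exponent along a line -/
noncomputable def Ph (σ σ₂ γ d a b x y v0 v1 v2 v3 s : ℝ) : ℝ :=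
  (1 - γ) * Real.log (Real.cos (σ * (a + s * v0)))
    + (1 - γ) * Real.log (Real.cosh (σ₂ * (b + s * v3)))
    + γ * Real.log (d ^ 2 - (x + s * v1) ^ 2 - (y + s * v2) ^ 2)

/-- its derivative -/
noncomputable def Ph1 (σ σ₂ γ d a b x y v0 v1 v2 v3 s : ℝ) : ℝ :=
  (1 - γ) * (-Real.sin (σ * (a + s * v0)) * (σ * v0) / Real.cos (σ * (a + s * v0)))
    + (1 - γ) * (Real.sinh (σ₂ * (b + s * v3)) * (σ₂ * v3) / Real.cosh (σ₂ * (b + s * v3)))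
    + γ * ((-(2 * (x + s * v1) * v1) - 2 * (y + s * v2) * v2)
      / (d ^ 2 - (x + s * v1) ^ 2 - (y + s * v2) ^ 2))

theorem hasDerivAt_lin (a v s : ℝ) : HasDerivAt (fun s : ℝ => a + s * v) v s := by
  simpa using ((hasDerivAt_id s).mul_const v).const_add a

theorem hasDerivAt_lin' (k a v s : ℝ) : HasDerivAt (fun s : ℝ => k * (a + s * v)) (k * v) s :=
  (hasDerivAt_lin a v s).const_mul k

theorem hasDerivAt_Q (d x y v1 v2 s : ℝ) :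
    HasDerivAt (fun s : ℝ => d ^ 2 - (x + s * v1) ^ 2 - (y + s * v2) ^ 2)
      (-(2 * (x + s * v1) * v1) - 2 * (y + s * v2) * v2) s := by
  have h1 := (hasDerivAt_lin x v1 s).pow 2
  have h2 := (hasDerivAt_lin y v2 s).pow 2
  have h := (h1.const_sub (d ^ 2)).sub h2
  refine h.congr_deriv ?_
  simp

theorem hasDerivAt_Ph (σ σ₂ γ d a b x y v0 v1 v2 v3 s : ℝ)
    (hc : 0 < Real.cos (σ * (a + s * v0)))
    (hQ : 0 < d ^ 2 - (x + s * v1) ^ 2 - (y + s * v2) ^ 2) :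
    HasDerivAt (Ph σ σ₂ γ d a b x y v0 v1 v2 v3) (Ph1 σ σ₂ γ d a b x y v0 v1 v2 v3 s) s := by
  have h1 := ((hasDerivAt_lin' σ a v0 s).cos.log hc.ne').const_mul (1 - γ)
  have h2 := ((hasDerivAt_lin' σ₂ b v3 s).cosh.log (Real.cosh_pos _).ne').const_mul (1 - γ)
  have h3 := ((hasDerivAt_Q d x y v1 v2 s).log hQ.ne').const_mul γ
  exact (h1.add h2).add h3

theorem hasDerivAt_Ph1 (σ σ₂ γ d a b x y v0 v1 v2 v3 : ℝ)
    (hc : 0 < Real.cos (σ * a)) (hQ : 0 < d ^ 2 - x ^ 2 - y ^ 2) :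
    HasDerivAt (Ph1 σ σ₂ γ d a b x y v0 v1 v2 v3)
      (-((1 - γ) * σ ^ 2 / Real.cos (σ * a) ^ 2 * v0 ^ 2)
        + (1 - γ) * σ₂ ^ 2 / Real.cosh (σ₂ * b) ^ 2 * v3 ^ 2
        - (γ * (2 / (d ^ 2 - x ^ 2 - y ^ 2) + 4 * x ^ 2 / (d ^ 2 - x ^ 2 - y ^ 2) ^ 2) * v1 ^ 2
          + 2 * (γ * (4 * (x * y) / (d ^ 2 - x ^ 2 - y ^ 2) ^ 2)) * v1 * v2
          + γ * (2 / (d ^ 2 - x ^ 2 - y ^ 2) + 4 * y ^ 2 / (d ^ 2 - x ^ 2 - y ^ 2) ^ 2)
            * v2 ^ 2)) 0 := by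
  have hch := Real.cosh_pos (σ₂ * b)
  have hc' : Real.cos (σ * (a + 0 * v0)) ≠ 0 := by simpa using hc.ne'
  have hch' : Real.cosh (σ₂ * (b + 0 * v3)) ≠ 0 := by simpa using hch.ne'
  have hQ' : d ^ 2 - (x + 0 * v1) ^ 2 - (y + 0 * v2) ^ 2 ≠ 0 := by simpa using hQ.ne'
  have h0 : HasDerivAt (fun s : ℝ => -Real.sin (σ * (a + s * v0)) * (σ * v0))
      (-(Real.cos (σ * (a + 0 * v0)) * (σ * v0)) * (σ * v0)) 0 :=
    (hasDerivAt_lin' σ a v0 0).sin.neg.mul_const (σ * v0)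
  have h1 := (h0.div (hasDerivAt_lin' σ a v0 0).cos hc').const_mul (1 - γ)
  have h2 := (((hasDerivAt_lin' σ₂ b v3 0).sinh.mul_const (σ₂ * v3)).div
    (hasDerivAt_lin' σ₂ b v3 0).cosh hch').const_mul (1 - γ)
  have h4 : HasDerivAt (fun s : ℝ => -(2 * (x + s * v1) * v1) - 2 * (y + s * v2) * v2)
      (-(2 * v1 * v1) - 2 * v2 * v2) 0 :=
    (((hasDerivAt_lin' 2 x v1 0).mul_const v1).neg).sub ((hasDerivAt_lin' 2 y v2 0).mul_const v2)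
  have h3 := (h4.div (hasDerivAt_Q d x y v1 v2 0) hQ').const_mul γ
  have h := (h1.add h2).add h3
  refine (h.congr_deriv ?_)
  simp only [zero_mul, add_zero]
  have s1 := Real.sin_sq_add_cos_sq (σ * a)
  have s2 := Real.cosh_sq (σ₂ * b)
  have e1 : (1 - γ) * (((-(Real.cos (σ * a) * (σ * v0)) * (σ * v0)) * Real.cos (σ * a)
      - (-Real.sin (σ * a) * (σ * v0)) * (-Real.sin (σ * a) * (σ * v0))) / Real.cos (σ * a) ^ 2)
      = -((1 - γ) * σ ^ 2 / Real.cos (σ * a) ^ 2 * v0 ^ 2) := by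
    have : (-(Real.cos (σ * a) * (σ * v0)) * (σ * v0)) * Real.cos (σ * a)
      - (-Real.sin (σ * a) * (σ * v0)) * (-Real.sin (σ * a) * (σ * v0))
      = -((σ * v0) ^ 2 * (Real.sin (σ * a) ^ 2 + Real.cos (σ * a) ^ 2)) := by ring
    rw [this, s1]
    ring
  have e2 : (1 - γ) * (((Real.cosh (σ₂ * b) * (σ₂ * v3)) * (σ₂ * v3) * Real.cosh (σ₂ * b)
      - (Real.sinh (σ₂ * b) * (σ₂ * v3)) * (Real.sinh (σ₂ * b) * (σ₂ * v3)))
        / Real.cosh (σ₂ * b) ^ 2)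
      = (1 - γ) * σ₂ ^ 2 / Real.cosh (σ₂ * b) ^ 2 * v3 ^ 2 := by
    have : (Real.cosh (σ₂ * b) * (σ₂ * v3)) * (σ₂ * v3) * Real.cosh (σ₂ * b)
      - (Real.sinh (σ₂ * b) * (σ₂ * v3)) * (Real.sinh (σ₂ * b) * (σ₂ * v3))
      = (σ₂ * v3) ^ 2 * (Real.cosh (σ₂ * b) ^ 2 - Real.sinh (σ₂ * b) ^ 2) := by ring
    rw [this, s2]
    ring
  rw [e1, e2]
  have hQn : d ^ 2 - x ^ 2 - y ^ 2 ≠ 0 := hQ.ne'
  have e3 : γ * (((-(2 * v1 * v1) - 2 * v2 * v2) * (d ^ 2 - x ^ 2 - y ^ 2)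
      - (-(2 * x * v1) - 2 * y * v2) * (-(2 * x * v1) - 2 * y * v2))
        / (d ^ 2 - x ^ 2 - y ^ 2) ^ 2)
      = -(γ * (2 / (d ^ 2 - x ^ 2 - y ^ 2) + 4 * x ^ 2 / (d ^ 2 - x ^ 2 - y ^ 2) ^ 2) * v1 ^ 2
          + 2 * (γ * (4 * (x * y) / (d ^ 2 - x ^ 2 - y ^ 2) ^ 2)) * v1 * v2
          + γ * (2 / (d ^ 2 - x ^ 2 - y ^ 2) + 4 * y ^ 2 / (d ^ 2 - x ^ 2 - y ^ 2) ^ 2)
            * v2 ^ 2) := by
    field_simp
    ring
  rw [e3]
  ring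

end EBarHess

open EBarHess

theorem contDiffAt_bw {σ σ₂ γ d y₀ : ℝ} {z : E4} (hcos : 0 < Real.cos (σ * z 0))
    (hQ : z 1 ^ 2 + z 2 ^ 2 < d ^ 2) : ContDiffAt ℝ 2 (bw σ σ₂ γ d y₀) z := by
  have c0 := (contDiff_coord4 0).contDiffAt (x := z)
  have c1 := (contDiff_coord4 1).contDiffAt (x := z)
  have c2 := (contDiff_coord4 2).contDiffAt (x := z)
  have c3 := (contDiff_coord4 3).contDiffAt (x := z)
  have h1 : ContDiffAt ℝ 2 (fun z : E4 => Real.log (Real.cos (σ * z 0))) z :=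
    (Real.contDiff_cos.contDiffAt.comp z (contDiffAt_const.mul c0)).log hcos.ne'
  have h2 : ContDiffAt ℝ 2 (fun z : E4 => Real.log (Real.cosh (σ₂ * (z 3 - y₀)))) z :=
    (Real.contDiff_cosh.contDiffAt.comp z
      (contDiffAt_const.mul (c3.sub contDiffAt_const))).log (Real.cosh_pos _).ne'
  have h3 : ContDiffAt ℝ 2 (fun z : E4 => Real.log (d ^ 2 - z 1 ^ 2 - z 2 ^ 2)) z :=
    ((contDiffAt_const.sub (c1.pow 2)).sub (c2.pow 2)).log (by linarith)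
  unfold bw
  exact (Real.contDiff_exp.contDiffAt.comp z
    (((contDiffAt_const.mul h1).add (contDiffAt_const.mul h2)).add
      (contDiffAt_const.mul h3))).neg

theorem hess_bw {σ σ₂ γ d y₀ : ℝ} {z : E4} (hcos : 0 < Real.cos (σ * z 0))
    (hQ : z 1 ^ 2 + z 2 ^ 2 < d ^ 2) :
    hess (bw σ σ₂ γ d y₀) z = (-bw σ σ₂ γ d y₀ z) • Mw σ σ₂ γ d y₀ z := by
  apply hess_eq_of_line (contDiffAt_bw hcos hQ)
  · ext i j
    fin_cases i <;> fin_cases j <;> simp [Mw, Mb]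
  · intro v
    have hline : ∀ s : ℝ, bw σ σ₂ γ d y₀ (z + s • v)
        = -Real.exp (Ph σ σ₂ γ d (z 0) (z 3 - y₀) (z 1) (z 2) (v 0) (v 1) (v 2) (v 3) s) := by
      intro s
      have e : z 3 + s * v 3 - y₀ = z 3 - y₀ + s * v 3 := by ring
      simp only [bw, Ph, PiLp.add_apply, PiLp.smul_apply, smul_eq_mul, e]
    refine ⟨fun s => -(Real.exp (Ph σ σ₂ γ d (z 0) (z 3 - y₀) (z 1) (z 2) (v 0) (v 1) (v 2) (v 3) s)
      * Ph1 σ σ₂ γ d (z 0) (z 3 - y₀) (z 1) (z 2) (v 0) (v 1) (v 2) (v 3) s), ?_, ?_⟩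
    · have k1 : ∀ᶠ s in 𝓝 (0 : ℝ), 0 < Real.cos (σ * (z 0 + s * v 0)) := by
        have : Continuous fun s : ℝ => Real.cos (σ * (z 0 + s * v 0)) := by fun_prop
        apply this.continuousAt.eventually_const_lt
        simpa using hcos
      have k2 : ∀ᶠ s in 𝓝 (0 : ℝ), 0 < d ^ 2 - (z 1 + s * v 1) ^ 2 - (z 2 + s * v 2) ^ 2 := by
        have : Continuous fun s : ℝ => d ^ 2 - (z 1 + s * v 1) ^ 2 - (z 2 + s * v 2) ^ 2 := by
          fun_prop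
        apply this.continuousAt.eventually_const_lt
        simp only [zero_mul, add_zero]
        linarith
      filter_upwards [k1, k2] with s h1 h2
      have := (hasDerivAt_Ph σ σ₂ γ d (z 0) (z 3 - y₀) (z 1) (z 2) (v 0) (v 1) (v 2) (v 3) s
        h1 h2).exp.neg
      simp only [hline]
      exact this
    · have hQ' : 0 < d ^ 2 - z 1 ^ 2 - z 2 ^ 2 := by linarith
      have d1 := (hasDerivAt_Ph σ σ₂ γ d (z 0) (z 3 - y₀) (z 1) (z 2) (v 0) (v 1) (v 2) (v 3) 0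
        (by simpa using hcos) (by simpa using hQ')).exp
      have d2 := hasDerivAt_Ph1 σ σ₂ γ d (z 0) (z 3 - y₀) (z 1) (z 2) (v 0) (v 1) (v 2) (v 3)
        hcos hQ'
      refine (d1.mul d2).neg.congr_deriv ?_
      have e0 : -bw σ σ₂ γ d y₀ z
          = Real.exp (Ph σ σ₂ γ d (z 0) (z 3 - y₀) (z 1) (z 2) (v 0) (v 1) (v 2) (v 3) 0) := by
        have := hline 0
        rw [zero_smul, add_zero] at this
        rw [this, neg_neg]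
      rw [e0]
      set E := Real.exp (Ph σ σ₂ γ d (z 0) (z 3 - y₀) (z 1) (z 2) (v 0) (v 1) (v 2) (v 3) 0)
      have et : Real.sin (σ * z 0) / Real.cos (σ * z 0) = Real.tan (σ * z 0) :=
        (Real.tan_eq_sin_div_cos _).symm
      have eth : Real.sinh (σ₂ * (z 3 - y₀)) / Real.cosh (σ₂ * (z 3 - y₀))
          = Real.tanh (σ₂ * (z 3 - y₀)) := (Real.tanh_eq_sinh_div_cosh _).symm
      have ep : Ph1 σ σ₂ γ d (z 0) (z 3 - y₀) (z 1) (z 2) (v 0) (v 1) (v 2) (v 3) 0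
          = -((1 - γ) * σ * Real.tan (σ * z 0) * v 0
            + 2 * γ * z 1 / (d ^ 2 - z 1 ^ 2 - z 2 ^ 2) * v 1
            + 2 * γ * z 2 / (d ^ 2 - z 1 ^ 2 - z 2 ^ 2) * v 2
            + -((1 - γ) * σ₂ * Real.tanh (σ₂ * (z 3 - y₀))) * v 3) := by
        rw [← et, ← eth]
        simp only [Ph1, zero_mul, add_zero]
        ring
      have eq : (v : Fin 4 → ℝ) ⬝ᵥ ((E • Mw σ σ₂ γ d y₀ z) *ᵥ (v : Fin 4 → ℝ))
          = E * ((1 - γ) * σ ^ 2 / Real.cos (σ * z 0) ^ 2 * v 0 ^ 2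
            + -((1 - γ) * σ₂ ^ 2 / Real.cosh (σ₂ * (z 3 - y₀)) ^ 2) * v 3 ^ 2
            + (γ * (2 / (d ^ 2 - z 1 ^ 2 - z 2 ^ 2)
                + 4 * z 1 ^ 2 / (d ^ 2 - z 1 ^ 2 - z 2 ^ 2) ^ 2) * v 1 ^ 2
              + 2 * (γ * (4 * (z 1 * z 2) / (d ^ 2 - z 1 ^ 2 - z 2 ^ 2) ^ 2)) * v 1 * v 2
              + γ * (2 / (d ^ 2 - z 1 ^ 2 - z 2 ^ 2)
                + 4 * z 2 ^ 2 / (d ^ 2 - z 1 ^ 2 - z 2 ^ 2) ^ 2) * v 2 ^ 2)
            - ((1 - γ) * σ * Real.tan (σ * z 0) * v 0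
            + 2 * γ * z 1 / (d ^ 2 - z 1 ^ 2 - z 2 ^ 2) * v 1
            + 2 * γ * z 2 / (d ^ 2 - z 1 ^ 2 - z 2 ^ 2) * v 2
            + -((1 - γ) * σ₂ * Real.tanh (σ₂ * (z 3 - y₀))) * v 3) ^ 2) := by
        simp only [Mw, Mb, dotProduct, mulVec, Fin.sum_univ_four, Matrix.smul_apply, smul_eq_mul]
        simp
        ring
      rw [eq, ep]
      ring

end Pool.Agent.Work.MP_d9fde0_an
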