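import Mathlib
import Pool.Agent.Work.MP_d9fde0_an.Defs
import Pool.Agent.Work.MP_d9fde0_an.LinAlg
import Pool.Agent.Work.MP_d9fde0_an.Compare
import Pool.Agent.Work.MP_d9fde0_an.EDefs

/-!
# Comparison with a barrier on a slab
-/

namespace Pool.Agent.Work.MP_d9fde0_an

open Matrix Filter Topology

theorem barrier_cmp {Ω : Set E4} (hΩ : IsOpen Ω) (hb : Bornology.IsBounded Ω) {Λ : ℝ}
    {u w : E4 → ℝ} (hu : IsSolutionE 3 Λ Ω u) {y₂ y₄ : ℝ}
    (hne : ∃ z ∈ Ω, y₂ ≤ z 3 ∧ z 3 ≤ y₄)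
    (hw : ∀ z ∈ closure Ω, y₂ ≤ z 3 → z 3 ≤ y₄ → w z < 0 ∧ ContDiffAt ℝ 2 w z ∧
      (∀ j, 1 ≤ j → j ≤ 3 → 0 < S j (hess w z)) ∧ Λ * (-w z) ^ 3 < S 3 (hess w z)) :
    ∃ z₁ ∈ Ω, (z₁ 3 = y₂ ∨ z₁ 3 = y₄) ∧ ∀ z ∈ Ω, y₂ ≤ z 3 → z 3 ≤ y₄ →
      (-u z) * (-w z₁) ≤ (-u z₁) * (-w z) := by
  have hc3 : Continuous fun z : E4 => z 3 := by fun_prop
  have hK : IsCompact (closure Ω ∩ {z : E4 | y₂ ≤ z 3 ∧ z 3 ≤ y₄}) := by
    refine hb.isCompact_closure.inter_right ?_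
    exact (isClosed_le continuous_const hc3).inter (isClosed_le hc3 continuous_const)
  obtain ⟨z₀, hz₀, hz₀'⟩ := hne
  have hR : ContinuousOn (fun z => (-u z) / (-w z))
      (closure Ω ∩ {z : E4 | y₂ ≤ z 3 ∧ z 3 ≤ y₄}) := by
    refine (hu.continuousOn.neg.mono Set.inter_subset_left).div ?_ ?_
    · intro z hz
      exact (hw z hz.1 hz.2.1 hz.2.2).2.1.continuousAt.continuousWithinAt.neg
    · intro z hz
      have := (hw z hz.1 hz.2.1 hz.2.2).1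
      linarith
  obtain ⟨z₁, hz₁, hmax⟩ := hK.exists_isMaxOn ⟨z₀, subset_closure hz₀, hz₀'⟩ hR
  have hw₁ := hw z₁ hz₁.1 hz₁.2.1 hz₁.2.2
  have hw₁n : 0 < -w z₁ := by linarith [hw₁.1]
  have ht0 : 0 < (-u z₁) / (-w z₁) := by
    have h1 : (-u z₀) / (-w z₀) ≤ (-u z₁) / (-w z₁) := hmax ⟨subset_closure hz₀, hz₀'⟩
    have h2 : 0 < (-u z₀) / (-w z₀) := by
      have h3 := (hw z₀ (subset_closure hz₀) hz₀'.1 hz₀'.2).1
      have h4 := hu.neg z₀ hz₀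
      exact div_pos (by linarith) (by linarith)
    linarith
  have hz₁m : z₁ ∈ Ω := by
    by_contra hcon
    have h1 : z₁ ∈ frontier Ω := by
      rw [hΩ.frontier_eq]
      exact ⟨hz₁.1, hcon⟩
    rw [hu.boundary z₁ h1] at ht0
    simp at ht0
  refine ⟨z₁, hz₁m, ?_, ?_⟩
  · by_contra hcon
    push Not at hcon
    have hlt : y₂ < z₁ 3 ∧ z₁ 3 < y₄ :=
      ⟨lt_of_le_of_ne hz₁.2.1 (Ne.symm hcon.1), lt_of_le_of_ne hz₁.2.2 hcon.2⟩
    set t := (-u z₁) / (-w z₁) with ht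
    have htw : t * w z₁ = u z₁ := by
      rw [ht]
      have : w z₁ ≠ 0 := by linarith
      field_simp
    have hlm : IsLocalMax (fun y => t * w y - u y) z₁ := by
      have h1 : ∀ᶠ y in 𝓝 z₁, y ∈ Ω ∧ y₂ < y 3 ∧ y 3 < y₄ :=
        Filter.inter_mem (hΩ.mem_nhds hz₁m) (Filter.inter_mem
          ((isOpen_lt continuous_const hc3).mem_nhds hlt.1)
          ((isOpen_lt hc3 continuous_const).mem_nhds hlt.2))
      filter_upwards [h1] with y hy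
      have h2 : (-u y) / (-w y) ≤ t := hmax ⟨subset_closure hy.1, hy.2.1.le, hy.2.2.le⟩
      have h3 := (hw y (subset_closure hy.1) hy.2.1.le hy.2.2.le).1
      rw [div_le_iff₀ (by linarith)] at h2
      rw [htw]
      linarith
    have hu2 : ContDiffAt ℝ 2 u z₁ := hu.contDiffOn.contDiffAt (hΩ.mem_nhds hz₁m)
    have hw2 : ContDiffAt ℝ 2 w z₁ := hw₁.2.1
    have htw2 : ContDiffAt ℝ 2 (fun y => t * w y) z₁ := contDiffAt_const.mul hw2
    have hP := posSemidef_of_isLocalMax htw2 hu2 hlm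
    have hS := S_mono (n := 4) (by norm_num) (hess_isHermitian htw2) hP (fun j hj1 hj2 => by
      rw [hess_const_smul hw2, S_smul (by omega)]
      have := hw₁.2.2.1 j hj1 hj2
      positivity)
    rw [add_sub_cancel, hess_const_smul hw2, S_smul (by omega)] at hS
    have h3 : (4 - 1 : ℕ) = 3 := rfl
    rw [h3, hu.equation z₁ hz₁m] at hS
    have h4 : (-u z₁) = t * (-w z₁) := by
      rw [← htw]
      ring
    rw [h4, mul_pow] at hS
    have h5 := mul_lt_mul_of_pos_left hw₁.2.2.2 (pow_pos ht0 3)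
    nlinarith
  · intro z hz h2 h4
    have h1 : (-u z) / (-w z) ≤ (-u z₁) / (-w z₁) := hmax ⟨subset_closure hz, h2, h4⟩
    have h3 := (hw z (subset_closure hz) h2 h4).1
    rwa [div_le_div_iff₀ (by linarith) hw₁n] at h1

end Pool.Agent.Work.MP_d9fde0_an
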