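import Mathlib
import Pool.Agent.Work.MP_d9fde0_an.EDefs
import Pool.Agent.Work.MP_d9fde0_an.EMat
import Pool.Agent.Work.MP_d9fde0_an.Compare
import Pool.Agent.Work.MP_d9fde0_an.ELine

/-!
# An upper bound for the eigenvalue
-/

namespace Pool.Agent.Work.MP_d9fde0_an

open Matrix Filter Topology

namespace EEig

/-- the test function -/
noncomputable def phi (c : E4) (r : ℝ) (z : E4) : ℝ := -(r ^ 2 - ‖z - c‖ ^ 2) ^ 2

/-- its Hessian -/
noncomputable def N (q : ℝ) (w : E4) : Matrix (Fin 4) (Fin 4) ℝ :=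
  Matrix.of fun i j => (if i = j then 4 * q else 0) - 8 * (w i * w j)

theorem norm_sq_four (w : E4) : ‖w‖ ^ 2 = w 0 ^ 2 + w 1 ^ 2 + w 2 ^ 2 + w 3 ^ 2 := by
  rw [EuclideanSpace.norm_sq_eq, Fin.sum_univ_four]
  simp only [Real.norm_eq_abs, sq_abs]

theorem contDiff_phi (c : E4) (r : ℝ) : ContDiff ℝ 2 (phi c r) := by
  unfold phi
  have h : ContDiff ℝ 2 (fun z : E4 => ‖z - c‖ ^ 2) := (contDiff_id.sub contDiff_const).norm_sq ℝ
  exact ((contDiff_const.sub h).pow 2).neg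

theorem N_isHermitian (q : ℝ) (w : E4) : (N q w).IsHermitian := by
  ext i j
  simp only [N, Matrix.conjTranspose_apply, Matrix.of_apply, star_trivial]
  by_cases h : i = j
  · subst h; rfl
  · have h' : ¬ j = i := fun h' => h h'.symm
    rw [if_neg h, if_neg h']
    ring

theorem quad_N (q : ℝ) (w v : E4) : (v : Fin 4 → ℝ) ⬝ᵥ (N q w *ᵥ (v : Fin 4 → ℝ)) =
    4 * q * ‖v‖ ^ 2 - 8 * (w 0 * v 0 + w 1 * v 1 + w 2 * v 2 + w 3 * v 3) ^ 2 := by
  rw [norm_sq_four]
  simp only [dotProduct, Matrix.mulVec, N, Matrix.of_apply, Fin.sum_univ_four]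
  simp
  ring

theorem hess_phi (c : E4) (r : ℝ) (z : E4) :
    hess (phi c r) z = N (r ^ 2 - ‖z - c‖ ^ 2) (z - c) := by
  apply hess_eq_of_line (contDiff_phi c r).contDiffAt (N_isHermitian _ _)
  intro v
  set w : E4 := z - c with hw
  set b : ℝ := w 0 * v 0 + w 1 * v 1 + w 2 * v 2 + w 3 * v 3 with hb
  set n : ℝ := ‖v‖ ^ 2 with hn
  set q : ℝ := r ^ 2 - ‖w‖ ^ 2 with hq
  have hline : ∀ s : ℝ, phi c r (z + s • v) = -(q - 2 * s * b - s ^ 2 * n) ^ 2 := by
    intro s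
    unfold phi
    have h1 : z + s • v - c = w + s • v := by rw [hw]; abel
    rw [h1, hq, hn, hb]
    congr 2
    rw [norm_sq_four, norm_sq_four, norm_sq_four]
    simp only [PiLp.add_apply, PiLp.smul_apply, smul_eq_mul]
    ring
  have hfun : (fun s : ℝ => phi c r (z + s • v)) = fun s => -(q - 2 * s * b - s ^ 2 * n) ^ 2 := by
    funext s; exact hline s
  rw [hfun, quad_N]
  have hd : ∀ s : ℝ, HasDerivAt (fun s : ℝ => q - 2 * s * b - s ^ 2 * n) (-(2 * b) - 2 * s * n) s := by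
    intro s
    have h1 := (((hasDerivAt_id s).const_mul 2).mul_const b).const_sub q
    have h2 := ((hasDerivAt_id s).pow 2).mul_const n
    refine HasDerivAt.congr_deriv (h1.sub h2) ?_
    simp
  refine ⟨fun s => -(2 * (q - 2 * s * b - s ^ 2 * n) * (-(2 * b) - 2 * s * n)), ?_, ?_⟩
  · refine Filter.Eventually.of_forall fun s => ?_
    have := ((hd s).pow 2).neg
    refine HasDerivAt.congr_deriv this ?_
    simp
  · have h1 := (hd 0)
    have h2 : HasDerivAt (fun s : ℝ => -(2 * b) - 2 * s * n) (-(2 * n)) 0 := by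
      have := (((hasDerivAt_id (0 : ℝ)).const_mul 2).mul_const n).const_sub (-(2 * b))
      refine HasDerivAt.congr_deriv this ?_
      simp
    have h3 := ((h1.const_mul 2).mul h2).neg
    refine HasDerivAt.congr_deriv h3 ?_
    simp
    ring

theorem S_three_N (q : ℝ) (w : E4) : S 3 (N q w) = 256 * q ^ 3 - 384 * q ^ 2 * ‖w‖ ^ 2 := by
  rw [S_three_four, norm_sq_four]
  simp only [N, Matrix.of_apply]
  simp
  ring

theorem poly_ineq {q r : ℝ} (hr : 0 < r) (hq : 0 < q) :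
    256 * q ^ 3 - 384 * q ^ 2 * (r ^ 2 - q) ≤ 625 / (2 * r ^ 6) * q ^ 6 := by
  have h1 : 625 / (2 * r ^ 6) * q ^ 6 - (256 * q ^ 3 - 384 * q ^ 2 * (r ^ 2 - q)) =
      q ^ 2 * r ^ 2 * ((q / r ^ 2 - 4 / 5) ^ 2 *
        (625 / 2 * (q / r ^ 2) ^ 2 + 500 * (q / r ^ 2) + 600)) := by
    field_simp
    ring
  have h2 : 0 ≤ q ^ 2 * r ^ 2 * ((q / r ^ 2 - 4 / 5) ^ 2 *
        (625 / 2 * (q / r ^ 2) ^ 2 + 500 * (q / r ^ 2) + 600)) := by positivity
  linarith

end EEig

open EEig in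
theorem eig_le {Ω : Set E4} (hΩ : IsOpen Ω) {Λ : ℝ} {u : E4 → ℝ} (hu : IsSolutionE 3 Λ Ω u)
    {c : E4} {r : ℝ} (hr : 0 < r) (hball : Metric.closedBall c r ⊆ Ω) :
    Λ ≤ 625 / (2 * r ^ 6) := by
  have hcomp : IsCompact (Metric.closedBall c r) := isCompact_closedBall c r
  have hcont : ContinuousOn (fun z => (-phi c r z) / (-u z)) (Metric.closedBall c r) := by
    refine ContinuousOn.div (contDiff_phi c r).continuous.neg.continuousOn
      (hu.contDiffOn.continuousOn.mono hball).neg ?_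
    intro z hz
    have := hu.neg z (hball hz)
    linarith
  obtain ⟨z₁, hz₁, hmax⟩ := hcomp.exists_isMaxOn ⟨c, Metric.mem_closedBall_self hr.le⟩ hcont
  set R : ℝ := (-phi c r z₁) / (-u z₁) with hR
  have hu1 : u z₁ < 0 := hu.neg z₁ (hball hz₁)
  -- R > 0
  have hRpos : 0 < R := by
    have h1 : (-phi c r c) / (-u c) ≤ R := hmax (Metric.mem_closedBall_self hr.le)
    have h2 : 0 < (-phi c r c) / (-u c) := by
      apply div_pos
      · simp only [phi, sub_self, norm_zero, neg_neg]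
        rw [show r ^ 2 - 0 ^ 2 = r ^ 2 by ring]
        positivity
      · have := hu.neg c (hball (Metric.mem_closedBall_self hr.le))
        linarith
    linarith
  have hRu : R * (-u z₁) = -phi c r z₁ := by
    rw [hR]
    exact div_mul_cancel₀ _ (by linarith)
  set q : ℝ := r ^ 2 - ‖z₁ - c‖ ^ 2 with hq
  have hphi1 : -phi c r z₁ = q ^ 2 := by
    unfold phi
    rw [neg_neg]
  have hle : ‖z₁ - c‖ ≤ r := by
    rw [← dist_eq_norm]; exact hz₁
  have hq0 : 0 < q := by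
    have h1 : 0 ≤ q := by
      rw [hq]
      nlinarith [norm_nonneg (z₁ - c)]
    rcases h1.lt_or_eq with h | h
    · exact h
    · exfalso
      have h2 : 0 < R * (-u z₁) := mul_pos hRpos (by linarith)
      rw [hRu, hphi1, ← h] at h2
      simp at h2
  have hlt : ‖z₁ - c‖ < r := by
    by_contra hcon
    have : ‖z₁ - c‖ = r := le_antisymm hle (not_lt.mp hcon)
    rw [hq, this] at hq0
    simp at hq0
  have hnhds : Metric.closedBall c r ∈ 𝓝 z₁ := by
    refine Filter.mem_of_superset (Metric.isOpen_ball.mem_nhds ?_) Metric.ball_subset_closedBall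
    rw [Metric.mem_ball, dist_eq_norm]
    exact hlt
  -- local maximum
  have hlm : IsLocalMax (fun y => R * u y - phi c r y) z₁ := by
    filter_upwards [hnhds] with y hy
    have h1 : (-phi c r y) / (-u y) ≤ R := hmax hy
    have h2 : u y < 0 := hu.neg y (hball hy)
    rw [div_le_iff₀ (by linarith)] at h1
    have h3 : R * u z₁ - phi c r z₁ = 0 := by linarith
    rw [h3]
    linarith
  have hu2 : ContDiffAt ℝ 2 u z₁ := hu.contDiffOn.contDiffAt (hΩ.mem_nhds (hball hz₁))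
  have hRu2 : ContDiffAt ℝ 2 (fun y => R * u y) z₁ := contDiffAt_const.mul hu2
  have hP := posSemidef_of_isLocalMax hRu2 (contDiff_phi c r).contDiffAt hlm
  have hadm : ∀ j, 1 ≤ j → j ≤ 4 - 1 → 0 < S j (hess (fun y => R * u y) z₁) := by
    intro j h1 h2
    rw [hess_const_smul hu2, S_smul (by omega)]
    exact mul_pos (pow_pos hRpos _) (hu.admissible z₁ (hball hz₁) j h1 h2)
  have h1 := S_mono (n := 4) (by norm_num) (hess_isHermitian hRu2) hP hadm
  rw [add_sub_cancel, hess_const_smul hu2, S_smul (by norm_num), hess_phi] at h1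
  change R ^ 3 * S 3 (hess u z₁) ≤ S 3 (N (r ^ 2 - ‖z₁ - c‖ ^ 2) (z₁ - c)) at h1
  rw [hu.equation z₁ (hball hz₁), S_three_N, ← hq] at h1
  have h2 : ‖z₁ - c‖ ^ 2 = r ^ 2 - q := by rw [hq]; ring
  rw [h2] at h1
  have h3 := poly_ineq hr hq0
  have h4 : R ^ 3 * (Λ * (-u z₁) ^ 3) = Λ * q ^ 6 := by
    calc R ^ 3 * (Λ * (-u z₁) ^ 3) = Λ * (R * (-u z₁)) ^ 3 := by ring
      _ = Λ * q ^ 6 := by rw [hRu, hphi1]; ring
  rw [h4] at h1
  have h5 : Λ * q ^ 6 ≤ 625 / (2 * r ^ 6) * q ^ 6 := h1.trans h3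
  exact le_of_mul_le_mul_right h5 (by positivity)

end Pool.Agent.Work.MP_d9fde0_an
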