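import Mathlib
import Pool.Agent.Work.MP_d9fde0_an.EDefs

/-!
# Numerical facts about the constants
-/

namespace Pool.Agent.Work.MP_d9fde0_an

namespace ENum

theorem pi_lo : (3.14 : ℝ) < Real.pi := Real.pi_gt_d2
theorem pi_hi : Real.pi < (3.15 : ℝ) := Real.pi_lt_d2

theorem den_pos : (0 : ℝ) < 2 * (1 - 29 / 10 * eh) := by unfold eh; norm_num

theorem eσ_pos : 0 < eσ := div_pos Real.pi_pos den_pos

theorem eσ_lo : 3 / 2 ≤ eσ := by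
  unfold eσ
  rw [le_div_iff₀ den_pos]
  have h1 := pi_lo
  have h2 : 3 / 2 * (2 * (1 - 29 / 10 * eh)) ≤ 3.14 := by unfold eh; norm_num
  linarith

theorem eσ_hi : eσ ≤ 158 / 100 := by
  unfold eσ
  rw [div_le_iff₀ den_pos]
  have h1 := pi_hi
  have h2 : (3.15 : ℝ) ≤ 158 / 100 * (2 * (1 - 29 / 10 * eh)) := by unfold eh; norm_num
  linarith

theorem eσ_sq_le : eσ ^ 2 ≤ 25 / 10 := by
  have h1 := eσ_hi
  have h2 := eσ_pos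
  calc eσ ^ 2 ≤ (158 / 100) ^ 2 := by gcongr
    _ ≤ 25 / 10 := by norm_num

theorem rad_ge : 1 ≤ eσ ^ 2 - eh / 10 := by
  have h1 := eσ_lo
  have h2 : (3 / 2) ^ 2 ≤ eσ ^ 2 := by gcongr
  have h3 : (1 : ℝ) ≤ (3 / 2) ^ 2 - eh / 10 := by unfold eh; norm_num
  linarith

theorem eσ₂_sq : eσ₂ ^ 2 = eσ ^ 2 - eh / 10 := Real.sq_sqrt (by linarith [rad_ge])

theorem eh_pos : 0 < eh := by unfold eh; norm_num

theorem eσ₂_nonneg : 0 ≤ eσ₂ := Real.sqrt_nonneg _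

theorem eσ₂_sq_le : eσ₂ ^ 2 ≤ 25 / 10 := by
  rw [eσ₂_sq]
  linarith [eσ_sq_le, eh_pos]

end ENum

open ENum

theorem num_gap : eσw < (1 - eγ) * eσ₂ := by
  have hγ : 0 < 1 - eγ := by unfold eγ eh; norm_num
  have hw : 0 < 2 * (1 - 27 / 10 * eh) := by unfold eh; norm_num
  have hw0 : 0 ≤ eσw := (div_pos Real.pi_pos hw).le
  refine lt_of_pow_lt_pow_left₀ 2 (mul_nonneg hγ.le eσ₂_nonneg) ?_
  rw [mul_pow, eσ₂_sq]
  have hX : (24 / 10 : ℝ) < Real.pi ^ 2 / 4 := by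
    have h1 := pi_lo
    have h2 : (3.14 : ℝ) ^ 2 < Real.pi ^ 2 := by gcongr
    norm_num at h2 ⊢
    linarith
  have hA : eσ ^ 2 = Real.pi ^ 2 / 4 * (1 / (1 - 29 / 10 * eh) ^ 2) := by
    unfold eσ
    have : (1 - 29 / 10 * eh) ≠ 0 := by unfold eh; norm_num
    field_simp
    ring
  have hB : eσw ^ 2 = Real.pi ^ 2 / 4 * (1 / (1 - 27 / 10 * eh) ^ 2) := by
    unfold eσw
    have : (1 - 27 / 10 * eh) ≠ 0 := by unfold eh; norm_num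
    field_simp
    ring
  rw [hA, hB]
  have key : (1 - eγ) ^ 2 * (eh / 10)
      < 24 / 10 * ((1 - eγ) ^ 2 * (1 / (1 - 29 / 10 * eh) ^ 2) - 1 / (1 - 27 / 10 * eh) ^ 2) := by
    unfold eγ eh; norm_num
  have hpos : 0 < (1 - eγ) ^ 2 * (1 / (1 - 29 / 10 * eh) ^ 2) - 1 / (1 - 27 / 10 * eh) ^ 2 := by
    unfold eγ eh; norm_num
  have h2 := mul_lt_mul_of_pos_right hX hpos
  linarith

theorem num_σ₂ : eσ₂ ^ 2 = eσ ^ 2 - eh / 10 ∧ 1 ≤ eσ₂ ∧ eσ₂ ≤ eσ ∧ eσ ≤ 2 := by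
  refine ⟨eσ₂_sq, ?_, ?_, ?_⟩
  · unfold eσ₂
    rw [Real.one_le_sqrt]
    exact rad_ge
  · unfold eσ₂
    rw [Real.sqrt_le_left eσ_pos.le]
    linarith [eh_pos]
  · linarith [eσ_hi]

theorem num_1a : ed ^ 2 * eσ₂ ^ 2 * (1 + eγ) ≤ eγ ^ 2 * (1 - eγ) := by
  have h1 := eσ₂_sq_le
  have h2 : ed ^ 2 * (25 / 10) * (1 + eγ) ≤ eγ ^ 2 * (1 - eγ) := by
    unfold ed eR eγ eh; norm_num
  have h3 : 0 ≤ 1 + eγ := by unfold eγ eh; norm_num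
  refine le_trans ?_ h2
  gcongr

theorem num_1b : 2 * ed ^ 2 * eσ ^ 2 * eσ₂ ^ 2 ≤ eγ * (1 - eγ) ^ 2 * (eh / 10) := by
  have h1 := eσ₂_sq_le
  have h0 := eσ_sq_le
  have h2 : 2 * ed ^ 2 * (25 / 10) * (25 / 10) ≤ eγ * (1 - eγ) ^ 2 * (eh / 10) := by
    unfold ed eR eγ eh; norm_num
  refine le_trans ?_ h2
  gcongr

theorem num_2 {Λ : ℝ} (hΛ : Λ ≤ 625 / (2 * (eR / 4) ^ 6)) :
    Λ * ed ^ 4 < 2 * eγ ^ 2 * (1 - eγ) ^ 2 * (eh / 10) ∧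
    Λ * ed ^ 4 < 2 * (1 / 2) ^ 2 * (1 - 1 / 2) ^ 2 * 1 := by
  have hd : 0 ≤ ed ^ 4 := by positivity
  have h1 := mul_le_mul_of_nonneg_right hΛ hd
  have h2 : 625 / (2 * (eR / 4) ^ 6) * ed ^ 4 < 2 * eγ ^ 2 * (1 - eγ) ^ 2 * (eh / 10) := by
    unfold ed eR eγ eh; norm_num
  have h3 : 625 / (2 * (eR / 4) ^ 6) * ed ^ 4 < 2 * (1 / 2) ^ 2 * (1 - 1 / 2) ^ 2 * 1 := by
    unfold ed eR eh; norm_num
  exact ⟨h1.trans_lt h2, h1.trans_lt h3⟩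

theorem num_cos : 0 < Real.cos (eσ * (1 - 3 * eh)) := by
  apply Real.cos_pos_of_mem_Ioo
  have h3 : 0 < 1 - 3 * eh := by unfold eh; norm_num
  have h4 : (1 - 3 * eh) < 1 - 29 / 10 * eh := by linarith [eh_pos]
  constructor
  · have : 0 < eσ * (1 - 3 * eh) := mul_pos eσ_pos h3
    linarith [Real.pi_pos]
  · have h5 : eσ * (1 - 29 / 10 * eh) = Real.pi / 2 := by
      unfold eσ
      have : (1 - 29 / 10 * eh) ≠ 0 := by unfold eh; norm_num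
      rw [div_mul_eq_mul_div, mul_comm (2 : ℝ), mul_div_mul_comm, div_mul_div_comm,
        div_eq_div_iff (mul_ne_zero this two_ne_zero) two_ne_zero]
      ring
    calc eσ * (1 - 3 * eh) < eσ * (1 - 29 / 10 * eh) := mul_lt_mul_of_pos_left h4 eσ_pos
      _ = Real.pi / 2 := h5

end Pool.Agent.Work.MP_d9fde0_an
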