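import Mathlib
import Pool.Agent.Work.MP_d9fde0_an.ECmp
import Pool.Agent.Work.MP_d9fde0_an.EBar
import Pool.Agent.Work.MP_d9fde0_an.EBarHess
import Pool.Agent.Work.MP_d9fde0_an.EEig
import Pool.Agent.Work.MP_d9fde0_an.EDom
import Pool.Agent.Work.MP_d9fde0_an.ENum

/-!
# The estimate on the narrow part
-/

namespace Pool.Agent.Work.MP_d9fde0_an

open Matrix Filter Topology

namespace ENarrow

theorem eh_pos : 0 < eh := by unfold eh; positivity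
theorem eh_le : eh ≤ 1 / 100 := by unfold eh; norm_num
theorem eR_pos : 0 < eR := by unfold eR; positivity
theorem eR_le : eR ≤ 1 := by unfold eR; norm_num
theorem ed_pos : 0 < ed := by
  unfold ed
  have := eh_pos
  have := eR_pos
  positivity
theorem ed_le : ed ≤ 1 / 2 := by
  have h1 := eh_pos
  have h2 := eh_le
  have h3 := eR_pos
  have h4 := eR_le
  unfold ed
  nlinarith
theorem eγ_pos : 0 < eγ := by
  unfold eγ
  have := eh_pos
  positivity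
theorem eγ_lt : eγ < 1 := by
  unfold eγ
  have := eh_le
  linarith

theorem tau_nonneg {T : ℝ} (hT : 1 ≤ T) {z : E4} (hz : z ∈ closure (OmE T)) : 0 ≤ z 3 / T := by
  have h1 := (omE_subset hT hz).2.1
  have h2 := abs_nonneg (z 1)
  have h3 := eR_pos
  by_contra hcon
  push Not at hcon
  have : eR * (z 3 / T) < 0 := mul_neg_of_pos_of_neg h3 hcon
  linarith

theorem z3_nonneg {T : ℝ} (hT : 1 ≤ T) {z : E4} (hz : z ∈ closure (OmE T)) : 0 ≤ z 3 := by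
  have h := tau_nonneg hT hz
  have hT0 : 0 < T := by linarith
  have : z 3 = z 3 / T * T := by field_simp
  rw [this]
  positivity

theorem tau_le {T c : ℝ} (hT : 1 ≤ T) {z : E4} (h : z 3 ≤ c * T) : z 3 / T ≤ c := by
  have hT0 : 0 < T := by linarith
  rw [div_le_iff₀ hT0]
  exact h

theorem le_tau {T c : ℝ} (hT : 1 ≤ T) {z : E4} (h : c * T ≤ z 3) : c ≤ z 3 / T := by
  have hT0 : 0 < T := by linarith
  rw [le_div_iff₀ hT0]
  exact h

theorem Q_bounds {T : ℝ} (hT : 1 ≤ T) {z : E4} (hz : z ∈ closure (OmE T))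
    (h4 : z 3 ≤ 4 * eh * T) : z 1 ^ 2 + z 2 ^ 2 ≤ ed ^ 2 / 2 := by
  obtain ⟨-, h1, h2⟩ := omE_subset hT hz
  have ht := tau_le hT h4
  have hR := eR_pos
  have h5 : eR * (z 3 / T) ≤ eR * (4 * eh) := mul_le_mul_of_nonneg_left ht hR.le
  have h6 : eR * (4 * eh) = ed / 2 := by unfold ed; ring
  rw [h6] at h5
  have h7 : |z 1| ≤ ed / 2 := h1.trans h5
  have h8 : |z 2| ≤ ed / 2 := h2.trans h5
  have h9 : z 1 ^ 2 ≤ (ed / 2) ^ 2 := sq_le_sq' (by linarith [(abs_le.mp h7).1]) (abs_le.mp h7).2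
  have h10 : z 2 ^ 2 ≤ (ed / 2) ^ 2 := sq_le_sq' (by linarith [(abs_le.mp h8).1]) (abs_le.mp h8).2
  nlinarith

theorem mem_axis {T y : ℝ} (hT : 1 ≤ T) (h1 : 3 * eh * T ≤ y) (h2 : y ≤ 4 * eh * T) :
    (EuclideanSpace.single 3 y : E4) ∈ OmE T := by
  have hT0 : 0 < T := by linarith
  have e3 : (EuclideanSpace.single 3 y : E4) 3 = y := by simp
  have e0 : (EuclideanSpace.single 3 y : E4) 0 = 0 := by simp
  have e1 : (EuclideanSpace.single 3 y : E4) 1 = 0 := by simp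
  have e2 : (EuclideanSpace.single 3 y : E4) 2 = 0 := by simp
  have h3 : 3 * eh ≤ y / T := by rw [le_div_iff₀ hT0]; exact h1
  have h4 : y / T ≤ 4 * eh := by rw [div_le_iff₀ hT0]; exact h2
  have hh := eh_pos
  have hh2 := eh_le
  have hR := eR_pos
  apply mem_omE hT
  · rw [e0, e3, abs_zero]
    linarith
  · rw [e1, e3, abs_zero]
    nlinarith
  · rw [e2, e3, abs_zero]
    nlinarith

theorem exists_max {T Λ : ℝ} (hT : 1 ≤ T) {u : E4 → ℝ} (hu : IsSolutionE 3 Λ (OmE T) u) {y : ℝ}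
    (h1 : 3 * eh * T ≤ y) (h2 : y ≤ 4 * eh * T) :
    ∃ Z ∈ OmE T, Z 3 = y ∧ ∀ z ∈ OmE T, z 3 = y → u Z ≤ u z := by
  have hdom := omE_domain hT
  have hcl : IsClosed {z : E4 | z 3 = y} := by
    have : Continuous fun z : E4 => z 3 := by fun_prop
    exact isClosed_eq this continuous_const
  have hK : IsCompact (closure (OmE T) ∩ {z : E4 | z 3 = y}) :=
    hdom.isBounded.isCompact_closure.inter_right hcl
  have hp := mem_axis hT h1 h2
  have hp3 : (EuclideanSpace.single 3 y : E4) 3 = y := by simp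
  obtain ⟨Z, hZ, hmin⟩ := hK.exists_isMinOn ⟨_, subset_closure hp, hp3⟩
    (hu.continuousOn.mono Set.inter_subset_left)
  have hZ1 : u Z ≤ u (EuclideanSpace.single 3 y) := hmin ⟨subset_closure hp, hp3⟩
  have hneg : u Z < 0 := lt_of_le_of_lt hZ1 (hu.neg _ hp)
  refine ⟨Z, ?_, hZ.2, fun z hz hz3 => hmin ⟨subset_closure hz, hz3⟩⟩
  by_contra hcon
  have : Z ∈ frontier (OmE T) := by
    rw [hdom.isOpen.frontier_eq]
    exact ⟨hZ.1, hcon⟩
  have := hu.boundary Z this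
  linarith

theorem bw_neg (σ σ₂ γ d y₀ : ℝ) (z : E4) : bw σ σ₂ γ d y₀ z < 0 := by
  unfold bw
  have := Real.exp_pos ((1 - γ) * Real.log (Real.cos (σ * z 0))
    + (1 - γ) * Real.log (Real.cosh (σ₂ * (z 3 - y₀)))
    + γ * Real.log (d ^ 2 - z 1 ^ 2 - z 2 ^ 2))
  linarith

theorem neg_bw_le {σ σ₂ γ d y₀ : ℝ} {z : E4} (hγ0 : 0 < γ) (hγ1 : γ < 1)
    (hcos : 0 < Real.cos (σ * z 0)) (hch : Real.cosh (σ₂ * (z 3 - y₀)) = 1) (hd : 0 < d)
    (hQ : z 1 ^ 2 + z 2 ^ 2 ≤ d ^ 2 / 2) :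
    -bw σ σ₂ γ d y₀ z ≤ Real.exp (γ * Real.log (d ^ 2)) := by
  unfold bw
  rw [neg_neg, hch, Real.log_one]
  apply Real.exp_le_exp.mpr
  have h1 : Real.log (Real.cos (σ * z 0)) ≤ 0 := Real.log_nonpos hcos.le (Real.cos_le_one _)
  have h2 : Real.log (d ^ 2 - z 1 ^ 2 - z 2 ^ 2) ≤ Real.log (d ^ 2) := by
    apply Real.log_le_log
    · have : 0 < d ^ 2 := by positivity
      linarith
    · nlinarith [sq_nonneg (z 1), sq_nonneg (z 2)]
  nlinarith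

theorem le_neg_bw {σ σ₂ γ d y₀ cc x : ℝ} {z : E4} (hγ0 : 0 < γ) (hγ1 : γ < 1) (hcc : 0 < cc)
    (hcos : cc ≤ Real.cos (σ * z 0)) (hch : Real.exp x / 2 ≤ Real.cosh (σ₂ * (z 3 - y₀)))
    (hd : 0 < d) (hQ : z 1 ^ 2 + z 2 ^ 2 ≤ d ^ 2 / 2) :
    Real.exp (γ * Real.log (d ^ 2)) * (cc / 4) * Real.exp ((1 - γ) * x) ≤
      -bw σ σ₂ γ d y₀ z := by
  unfold bw
  rw [neg_neg]
  have hcc1 : cc ≤ 1 := hcos.trans (Real.cos_le_one _)
  have h0 : cc / 4 = Real.exp (Real.log cc - 2 * Real.log 2) := by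
    rw [Real.exp_sub, Real.exp_log hcc, two_mul, Real.exp_add, Real.exp_log two_pos]
    norm_num
  rw [h0, ← Real.exp_add, ← Real.exp_add]
  apply Real.exp_le_exp.mpr
  have h1 : Real.log cc ≤ Real.log (Real.cos (σ * z 0)) := Real.log_le_log hcc hcos
  have h1' : Real.log cc ≤ 0 := Real.log_nonpos hcc.le hcc1
  have h2 : x - Real.log 2 ≤ Real.log (Real.cosh (σ₂ * (z 3 - y₀))) := by
    have : Real.log (Real.exp x / 2) = x - Real.log 2 := by
      rw [Real.log_div (Real.exp_pos x).ne' two_ne_zero, Real.log_exp]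
    rw [← this]
    exact Real.log_le_log (by positivity) hch
  have h3 : Real.log (d ^ 2) - Real.log 2 ≤ Real.log (d ^ 2 - z 1 ^ 2 - z 2 ^ 2) := by
    have hd2 : 0 < d ^ 2 := by positivity
    have : Real.log (d ^ 2 / 2) = Real.log (d ^ 2) - Real.log 2 := by
      rw [Real.log_div hd2.ne' two_ne_zero]
    rw [← this]
    apply Real.log_le_log (by positivity)
    linarith
  have hl2 : 0 < Real.log 2 := Real.log_pos one_lt_two
  have e1 : Real.log cc ≤ (1 - γ) * Real.log (Real.cos (σ * z 0)) := by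
    have : (1 - γ) * Real.log cc ≤ (1 - γ) * Real.log (Real.cos (σ * z 0)) :=
      mul_le_mul_of_nonneg_left h1 (by linarith)
    nlinarith
  have e2 : (1 - γ) * x - Real.log 2 + γ * Real.log 2 ≤
      (1 - γ) * Real.log (Real.cosh (σ₂ * (z 3 - y₀))) := by
    have : (1 - γ) * (x - Real.log 2) ≤ (1 - γ) * Real.log (Real.cosh (σ₂ * (z 3 - y₀))) :=
      mul_le_mul_of_nonneg_left h2 (by linarith)
    nlinarith
  have e3 : γ * Real.log (d ^ 2) - γ * Real.log 2 ≤ γ * Real.log (d ^ 2 - z 1 ^ 2 - z 2 ^ 2) := by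
    have : γ * (Real.log (d ^ 2) - Real.log 2) ≤ γ * Real.log (d ^ 2 - z 1 ^ 2 - z 2 ^ 2) :=
      mul_le_mul_of_nonneg_left h3 hγ0.le
    nlinarith
  linarith

/-- the barrier is a strict subsolution -/
theorem bw_ok {σ σ₂ γ d y₀ θ Λ : ℝ} {z : E4} (hγ0 : 0 < γ) (hγ1 : γ < 1) (hθ : 0 < θ)
    (hσ : σ₂ ^ 2 = σ ^ 2 - θ) (hd : 0 < d) (hcos : 0 < Real.cos (σ * z 0))
    (hQ : z 1 ^ 2 + z 2 ^ 2 ≤ d ^ 2 / 2) (h1a : d ^ 2 * σ₂ ^ 2 * (1 + γ) ≤ γ ^ 2 * (1 - γ))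
    (h1b : 2 * d ^ 2 * σ ^ 2 * σ₂ ^ 2 ≤ γ * (1 - γ) ^ 2 * θ) (h3 : θ * d ^ 2 ≤ γ)
    (h2 : Λ * d ^ 4 < 2 * γ ^ 2 * (1 - γ) ^ 2 * θ) :
    bw σ σ₂ γ d y₀ z < 0 ∧ ContDiffAt ℝ 2 (bw σ σ₂ γ d y₀) z ∧
      (∀ j, 1 ≤ j → j ≤ 3 → 0 < S j (hess (bw σ σ₂ γ d y₀) z)) ∧
      Λ * (-bw σ σ₂ γ d y₀ z) ^ 3 < S 3 (hess (bw σ σ₂ γ d y₀) z) := by
  have hQ' : z 1 ^ 2 + z 2 ^ 2 < d ^ 2 := by
    have : 0 < d ^ 2 := by positivity
    linarith
  obtain ⟨hb1, hb2⟩ := bar_ineq (y₀ := y₀) hγ0 hγ1 hθ hσ hd hcos hQ h1a h1b h3 h2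
  have hneg := bw_neg σ σ₂ γ d y₀ z
  have hpos : 0 < -bw σ σ₂ γ d y₀ z := by linarith
  refine ⟨hneg, contDiffAt_bw hcos hQ', ?_, ?_⟩
  · intro j hj1 hj3
    rw [hess_bw hcos hQ', S_smul (by omega)]
    exact mul_pos (pow_pos hpos _) (hb1 j hj1 hj3)
  · rw [hess_bw hcos hQ', S_smul (by norm_num), mul_comm]
    exact mul_lt_mul_of_pos_left hb2 (pow_pos hpos _)

theorem eig_bound {T Λ : ℝ} (hT : 1 ≤ T) {u : E4 → ℝ} (hu : IsSolutionE 3 Λ (OmE T) u) :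
    Λ ≤ 625 / (2 * (eR / 4) ^ 6) := by
  have hR := eR_pos
  exact eig_le (omE_domain hT).isOpen hu (by positivity) (ball_subset_omE hT)

/-- first comparison -/
theorem step_one {T Λ : ℝ} (hT : 1 ≤ T) {u : E4 → ℝ} (hu : IsSolutionE 3 Λ (OmE T) u)
    {Z₄ : E4} (hZ₄ : ∀ z ∈ OmE T, z 3 = 4 * eh * T → u Z₄ ≤ u z) {z : E4}
    (hz : z ∈ OmE T) (hz3 : z 3 ≤ 4 * eh * T) : -u z ≤ 2 * (-u Z₄) := by
  have hdom := omE_domain hT
  have hh := eh_pos
  have hT0 : 0 < T := by linarith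
  have hΛ := num_2 (eig_bound hT hu)
  have hcos1 : (1 : ℝ) / 2 ≤ Real.cos 1 := by
    rw [← Real.cos_pi_div_three]
    apply Real.cos_le_cos_of_nonneg_of_le_pi zero_le_one
    · linarith [Real.pi_pos]
    · linarith [Real.pi_gt_three]
  have hcosz : ∀ z ∈ closure (OmE T), (1 : ℝ) / 2 ≤ Real.cos (1 * z 0) := by
    intro z hz
    have h1 := (omE_subset hT hz).1
    have h2 := tau_nonneg hT hz
    refine hcos1.trans ?_
    rw [one_mul, ← Real.cos_abs (z 0)]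
    apply Real.cos_le_cos_of_nonneg_of_le_pi (abs_nonneg _)
    · linarith [Real.pi_gt_three]
    · linarith
  obtain ⟨z₁, hz₁, hz₁3, hcmp⟩ := barrier_cmp hdom.isOpen hdom.isBounded hu (y₂ := -1)
    (y₄ := 4 * eh * T) (w := bw 1 0 (1 / 2) ed 0)
    ⟨_, mem_axis (y := 4 * eh * T) hT (by nlinarith) le_rfl, by simp; nlinarith, by simp⟩
    (by
      intro z hz h1 h2
      apply bw_ok (θ := 1) (by norm_num) (by norm_num) one_pos (by norm_num) ed_pos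
      · have := hcosz z hz
        linarith
      · exact Q_bounds hT hz h2
      · norm_num
      · norm_num
      · have h3 := ed_pos
        have h4 := ed_le
        nlinarith
      · exact hΛ.2)
  have hz₁3' : z₁ 3 = 4 * eh * T := by
    rcases hz₁3 with h | h
    · exfalso
      have := z3_nonneg hT (subset_closure hz₁)
      linarith
    · exact h
  have h1 := hcmp z hz (by linarith [z3_nonneg hT (subset_closure hz)]) hz3
  have hup := neg_bw_le (σ := 1) (σ₂ := 0) (y₀ := 0) (γ := 1 / 2) (d := ed) (z := z)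
    (by norm_num) (by norm_num) (by linarith [hcosz z (subset_closure hz)]) (by simp) ed_pos
    (Q_bounds hT (subset_closure hz) hz3)
  have hQ1 := Q_bounds hT (subset_closure hz₁) hz₁3'.le
  have hlow : Real.exp (1 / 2 * Real.log (ed ^ 2)) / 2 ≤ -bw 1 0 (1 / 2) ed 0 z₁ := by
    unfold bw
    rw [neg_neg]
    have h0 : Real.exp (1 / 2 * Real.log (ed ^ 2)) / 2 =
        Real.exp (1 / 2 * Real.log (ed ^ 2) - Real.log 2) := by
      rw [Real.exp_sub, Real.exp_log two_pos]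
    rw [h0]
    apply Real.exp_le_exp.mpr
    have hc := hcosz z₁ (subset_closure hz₁)
    have h2 : -Real.log 2 ≤ Real.log (Real.cos (1 * z₁ 0)) := by
      have : Real.log (1 / 2) = -Real.log 2 := by
        rw [one_div, Real.log_inv]
      rw [← this]
      exact Real.log_le_log (by norm_num) hc
    have h3 : Real.log (ed ^ 2) - Real.log 2 ≤ Real.log (ed ^ 2 - z₁ 1 ^ 2 - z₁ 2 ^ 2) := by
      have hd2 : 0 < ed ^ 2 := by
        have := ed_pos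
        positivity
      have : Real.log (ed ^ 2 / 2) = Real.log (ed ^ 2) - Real.log 2 := by
        rw [Real.log_div hd2.ne' two_ne_zero]
      rw [← this]
      apply Real.log_le_log (by positivity)
      linarith
    have h4 : Real.log (Real.cosh (0 * (z₁ 3 - 0))) = 0 := by simp
    rw [h4]
    linarith
  have huz : 0 < -u z := by linarith [hu.neg z hz]
  have huz1 : -u z₁ ≤ -u Z₄ := by linarith [hZ₄ z₁ hz₁ hz₁3']
  have huz1' : 0 < -u z₁ := by linarith [hu.neg z₁ hz₁]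
  set Ex := Real.exp (1 / 2 * Real.log (ed ^ 2)) with hEx
  have hExpos : 0 < Ex := Real.exp_pos _
  have h5 : (-u z) * (Ex / 2) ≤ (-u Z₄) * Ex := by
    calc (-u z) * (Ex / 2) ≤ (-u z) * (-bw 1 0 (1 / 2) ed 0 z₁) :=
          mul_le_mul_of_nonneg_left hlow huz.le
      _ ≤ (-u z₁) * (-bw 1 0 (1 / 2) ed 0 z) := h1
      _ ≤ (-u z₁) * Ex := mul_le_mul_of_nonneg_left hup huz1'.le
      _ ≤ (-u Z₄) * Ex := mul_le_mul_of_nonneg_right huz1 hExpos.le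
  have h6 : (-u z) * Ex ≤ (2 * (-u Z₄)) * Ex := by linarith
  exact le_of_mul_le_mul_right h6 hExpos

theorem cosh_ge (x : ℝ) : Real.exp x / 2 ≤ Real.cosh x := by
  rw [Real.cosh_eq]
  have := Real.exp_pos (-x)
  linarith

end ENarrow

open ENarrow in
theorem narrow : ∃ c > (0 : ℝ), ∀ T, 1 ≤ T → ∀ (Λ : ℝ) (u : E4 → ℝ), IsSolutionE 3 Λ (OmE T) u →
    (∀ z ∈ OmE T, ∀ z' ∈ OmE T, u z * u z' ≤ u ((1 / 2 : ℝ) • z + (1 / 2 : ℝ) • z') ^ 2) →
    ∃ Z₂ ∈ OmE T, ∃ Z₄ ∈ OmE T, Z₂ 3 = 3 * eh * T ∧ Z₄ 3 = 4 * eh * T ∧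
      (∀ z ∈ OmE T, z 3 = 3 * eh * T → u Z₂ ≤ u z) ∧
      c * Real.exp ((1 - eγ) * eσ₂ * (eh * T)) * (-u Z₂) ≤ -u Z₄ := by
  have hcc := num_cos
  set cc := Real.cos (eσ * (1 - 3 * eh)) with hccdef
  refine ⟨cc ^ 2 / 64, by positivity, ?_⟩
  intro T hT Λ u hu hlog
  have hdom := omE_domain hT
  have hh := eh_pos
  have hh2 := eh_le
  have hT0 : 0 < T := by linarith
  have hΛ := num_2 (eig_bound hT hu)
  have hhT : 0 < eh * T := by positivity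
  obtain ⟨Z₂, hZ₂, hZ₂3, hmax₂⟩ := exists_max hT hu (y := 3 * eh * T) le_rfl (by nlinarith)
  obtain ⟨Z₄, hZ₄, hZ₄3, hmax₄⟩ := exists_max hT hu (y := 4 * eh * T) (by nlinarith) le_rfl
  refine ⟨Z₂, hZ₂, Z₄, hZ₄, hZ₂3, hZ₄3, hmax₂, ?_⟩
  have hσ := num_σ₂
  have hcosz : ∀ z ∈ closure (OmE T), 3 * eh * T ≤ z 3 → cc ≤ Real.cos (eσ * z 0) := by
    intro z hz h3
    have h1 := (omE_subset hT hz).1
    have h2 := le_tau hT h3
    have hσ0 : 0 ≤ eσ := by linarith [hσ.2.1, hσ.2.2.1]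
    rw [hccdef, ← Real.cos_abs (eσ * z 0)]
    have h4 : |eσ * z 0| ≤ eσ * (1 - 3 * eh) := by
      rw [abs_mul, abs_of_nonneg hσ0]
      exact mul_le_mul_of_nonneg_left (by linarith) hσ0
    apply Real.cos_le_cos_of_nonneg_of_le_pi (abs_nonneg _) _ h4
    have h5 : eσ * (1 - 3 * eh) ≤ 2 * 1 := by
      apply mul_le_mul hσ.2.2.2 (by linarith) (by linarith) (by norm_num)
    linarith [Real.pi_gt_three]
  -- second comparison
  obtain ⟨z₁, hz₁, hz₁3, hcmp⟩ := barrier_cmp hdom.isOpen hdom.isBounded hu (y₂ := 3 * eh * T)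
    (y₄ := 4 * eh * T) (w := bw eσ eσ₂ eγ ed (7 / 2 * (eh * T)))
    ⟨Z₂, hZ₂, hZ₂3.ge, by rw [hZ₂3]; nlinarith⟩
    (by
      intro z hz h1 h2
      apply bw_ok (θ := eh / 10) eγ_pos eγ_lt (by positivity) hσ.1 ed_pos
      · have := hcosz z hz h1
        linarith
      · exact Q_bounds hT hz h2
      · exact num_1a
      · exact num_1b
      · have h3 := ed_pos
        have h4 := ed_le
        have h5 : ed ^ 2 ≤ 1 / 2 := by nlinarith
        unfold eγ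
        nlinarith
      · exact hΛ.1)
  have hz₁3r : 3 * eh * T ≤ z₁ 3 ∧ z₁ 3 ≤ 4 * eh * T := by
    rcases hz₁3 with h | h
    · rw [h]; exact ⟨le_rfl, by nlinarith⟩
    · rw [h]; exact ⟨by nlinarith, le_rfl⟩
  have hZ₂u : -u Z₂ ≤ 2 * (-u Z₄) := step_one hT hu hmax₄ hZ₂ (by rw [hZ₂3]; nlinarith)
  have hu4 : 0 < -u Z₄ := by linarith [hu.neg Z₄ hZ₄]
  have hu2 : 0 < -u Z₂ := by linarith [hu.neg Z₂ hZ₂]
  have hz₁u : -u z₁ ≤ 2 * (-u Z₄) := by
    rcases hz₁3 with h | h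
    · have := hmax₂ z₁ hz₁ h
      linarith
    · have := hmax₄ z₁ hz₁ h
      linarith
  set x : ℝ := eσ₂ * (1 / 2 * (eh * T)) with hx
  -- lower bound at z₁
  have hlow := le_neg_bw (σ := eσ) (σ₂ := eσ₂) (γ := eγ) (d := ed) (y₀ := 7 / 2 * (eh * T))
    (cc := cc) (x := x) (z := z₁) eγ_pos eγ_lt hcc (hcosz z₁ (subset_closure hz₁) hz₁3r.1)
    (by
      rcases hz₁3 with h | h
      · have : eσ₂ * (z₁ 3 - 7 / 2 * (eh * T)) = -x := by rw [h, hx]; ring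
        rw [this, Real.cosh_neg]
        exact cosh_ge x
      · have : eσ₂ * (z₁ 3 - 7 / 2 * (eh * T)) = x := by rw [h, hx]; ring
        rw [this]
        exact cosh_ge x) ed_pos (Q_bounds hT (subset_closure hz₁) hz₁3r.2)
  -- the midpoint
  set m : E4 := (1 / 2 : ℝ) • Z₂ + (1 / 2 : ℝ) • Z₄ with hm
  have hmΩ : m ∈ OmE T := hdom.convex hZ₂ hZ₄ (by norm_num) (by norm_num) (by norm_num)
  have hm3 : m 3 = 7 / 2 * (eh * T) := by
    rw [hm, PiLp.add_apply, PiLp.smul_apply, PiLp.smul_apply, hZ₂3, hZ₄3, smul_eq_mul, smul_eq_mul]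
    ring
  have hm3r : 3 * eh * T ≤ m 3 ∧ m 3 ≤ 4 * eh * T := by
    rw [hm3]
    constructor <;> nlinarith
  have hup := neg_bw_le (σ := eσ) (σ₂ := eσ₂) (γ := eγ) (d := ed) (y₀ := 7 / 2 * (eh * T))
    (z := m) eγ_pos eγ_lt (lt_of_lt_of_le hcc (hcosz m (subset_closure hmΩ) hm3r.1))
    (by rw [hm3]; simp) ed_pos (Q_bounds hT (subset_closure hmΩ) hm3r.2)
  have h1 := hcmp m hmΩ hm3r.1 hm3r.2
  set Ex := Real.exp (eγ * Real.log (ed ^ 2)) with hEx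
  have hExpos : 0 < Ex := Real.exp_pos _
  set En := Real.exp ((1 - eγ) * x) with hEn
  have hEnpos : 0 < En := Real.exp_pos _
  have hum : 0 < -u m := by linarith [hu.neg m hmΩ]
  have huz1' : 0 < -u z₁ := by linarith [hu.neg z₁ hz₁]
  have h2 : (-u m) * (cc * En) * Ex ≤ (8 * (-u Z₄)) * Ex := by
    have h3 : (-u m) * (Ex * (cc / 4) * En) ≤ (2 * (-u Z₄)) * Ex := by
      calc (-u m) * (Ex * (cc / 4) * En) ≤ (-u m) * (-bw eσ eσ₂ eγ ed (7 / 2 * (eh * T)) z₁) :=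
            mul_le_mul_of_nonneg_left hlow hum.le
        _ ≤ (-u z₁) * (-bw eσ eσ₂ eγ ed (7 / 2 * (eh * T)) m) := h1
        _ ≤ (-u z₁) * Ex := mul_le_mul_of_nonneg_left hup huz1'.le
        _ ≤ (2 * (-u Z₄)) * Ex := mul_le_mul_of_nonneg_right hz₁u hExpos.le
    linarith
  have h4 : (-u m) * (cc * En) ≤ 8 * (-u Z₄) := le_of_mul_le_mul_right h2 hExpos
  have h5 := hlog Z₂ hZ₂ Z₄ hZ₄
  rw [← hm] at h5
  have h6 : ((-u m) * (cc * En)) ^ 2 ≤ (8 * (-u Z₄)) ^ 2 :=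
    pow_le_pow_left₀ (by positivity) h4 2
  have h7 : (-u Z₂) * (-u Z₄) * (cc * En) ^ 2 ≤ 64 * (-u Z₄) * (-u Z₄) := by
    have : (-u Z₂) * (-u Z₄) * (cc * En) ^ 2 ≤ (-u m) ^ 2 * (cc * En) ^ 2 := by
      apply mul_le_mul_of_nonneg_right _ (by positivity)
      nlinarith
    nlinarith
  have h8 : (-u Z₂) * (cc * En) ^ 2 ≤ 64 * (-u Z₄) := by
    have : ((-u Z₂) * (cc * En) ^ 2) * (-u Z₄) ≤ (64 * (-u Z₄)) * (-u Z₄) := by linarith
    exact le_of_mul_le_mul_right this hu4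
  have h9 : En ^ 2 = Real.exp ((1 - eγ) * eσ₂ * (eh * T)) := by
    rw [hEn, ← Real.exp_nat_mul, hx]
    congr 1
    push_cast
    ring
  rw [← h9]
  linarith

end Pool.Agent.Work.MP_d9fde0_an
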