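import Pool.Agent.Work.MP_d9fde0_an.EDefs

/-!
# Planar maximum principle and a Harnack inequality
-/

namespace Pool.Agent.Work.MP_d9fde0_an

open Filter Topology

namespace EMP

/-- the second derivative at a local minimum is nonnegative -/
theorem second_nonneg {f f' : ℝ → ℝ} {a A : ℝ} (hmin : IsLocalMin f a)
    (h1 : ∀ᶠ s in 𝓝 a, HasDerivAt f (f' s) s) (h2 : HasDerivAt f' A a) : 0 ≤ A := by
  by_contra hA
  push Not at hA
  have hd : deriv f =ᶠ[𝓝 a] f' := h1.mono fun s hs => hs.deriv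
  have hdd : deriv (deriv f) a = A := by
    rw [hd.deriv_eq]; exact h2.deriv
  have h0 : f' a = 0 := hmin.hasDerivAt_eq_zero h1.self_of_nhds
  have hd0 : deriv f a = 0 := by rw [hd.eq_of_nhds, h0]
  have hc : ContinuousAt f a := h1.self_of_nhds.continuousAt
  have hmax := isLocalMax_of_deriv_deriv_neg (by rw [hdd]; exact hA) hd0 hc
  have heq : f =ᶠ[𝓝 a] fun _ => f a := by
    filter_upwards [hmin, hmax] with s hs hs'
    exact le_antisymm hs' hs
  have hd1 : deriv f =ᶠ[𝓝 a] deriv (fun _ => f a) := heq.deriv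
  have hd2 : deriv f =ᶠ[𝓝 a] fun _ => (0 : ℝ) := by
    filter_upwards [hd1] with s hs
    rw [hs, deriv_const]
  have : deriv (deriv f) a = 0 := by
    rw [hd2.deriv_eq, deriv_const]
  rw [hdd] at this
  linarith

end EMP

theorem le_of_sup2 {K : Set (ℝ × ℝ)} (hK : IsCompact K) {v g : ℝ → ℝ → ℝ}
    (hv : ContinuousOn (fun p : ℝ × ℝ => v p.1 p.2) K)
    (hg : ContinuousOn (fun p : ℝ × ℝ => g p.1 p.2) K)
    (hint : ∀ p ∈ interior K, Sup2 v p.1 p.2 ∧ Sub2 g p.1 p.2)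
    (hbd : ∀ p ∈ K, p ∉ interior K → g p.1 p.2 ≤ v p.1 p.2) :
    ∀ p ∈ K, g p.1 p.2 ≤ v p.1 p.2 := by
  intro p hp
  by_contra hcon
  push Not at hcon
  obtain ⟨q, hq, hmin⟩ := hK.exists_isMinOn ⟨p, hp⟩ (hv.sub hg)
  have hlt : v q.1 q.2 - g q.1 q.2 < 0 := by
    have := hmin hp
    simp only [Set.mem_ofPred_eq, Pi.sub_apply] at this
    have h' : v q.1 q.2 - g q.1 q.2 ≤ v p.1 p.2 - g p.1 p.2 := this
    linarith
  have hqi : q ∈ interior K := by
    by_contra h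
    have := hbd q hq h
    linarith
  have hev : ∀ᶠ z in 𝓝 q, v q.1 q.2 - g q.1 q.2 ≤ v z.1 z.2 - g z.1 z.2 := by
    filter_upwards [mem_interior_iff_mem_nhds.1 hqi] with z hz
    exact hmin hz
  obtain ⟨⟨A, B, ⟨⟨v1, hv1, hv1'⟩, ⟨v2, hv2, hv2'⟩⟩, hAB⟩,
    ⟨A', B', ⟨⟨g1, hg1, hg1'⟩, ⟨g2, hg2, hg2'⟩⟩, hAB'⟩⟩ := hint q hqi
  have hcx : Tendsto (fun s : ℝ => (s, q.2)) (𝓝 q.1) (𝓝 q) := by
    have : Continuous (fun s : ℝ => (s, q.2)) := by fun_prop
    exact this.tendsto q.1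
  have hcy : Tendsto (fun s : ℝ => (q.1, s)) (𝓝 q.2) (𝓝 q) := by
    have : Continuous (fun s : ℝ => (q.1, s)) := by fun_prop
    exact this.tendsto q.2
  have hx : 0 ≤ A - A' := by
    refine EMP.second_nonneg (f := fun s => v s q.2 - g s q.2) (f' := fun s => v1 s - g1 s)
      (hcx.eventually hev) ?_ (hv1'.sub hg1')
    filter_upwards [hv1, hg1] with s h1 h2
    exact h1.sub h2
  have hy : 0 ≤ B - B' := by
    refine EMP.second_nonneg (f := fun s => v q.1 s - g q.1 s) (f' := fun s => v2 s - g2 s)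
      (hcy.eventually hev) ?_ (hv2'.sub hg2')
    filter_upwards [hv2, hg2] with s h1 h2
    exact h1.sub h2
  linarith

namespace EMP

/-- derivatives of a logarithm in one variable -/
theorem log_deriv (c k a x : ℝ) (h : 0 < (x - a) ^ 2 + k) :
    (∀ᶠ s in 𝓝 x, HasDerivAt (fun s => c * Real.log ((s - a) ^ 2 + k))
      (c * (2 * (s - a) / ((s - a) ^ 2 + k))) s) ∧
    HasDerivAt (fun s => c * (2 * (s - a) / ((s - a) ^ 2 + k)))
      (c * (2 / ((x - a) ^ 2 + k) - 4 * (x - a) ^ 2 / ((x - a) ^ 2 + k) ^ 2)) x := by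
  have hcont : Continuous (fun s : ℝ => (s - a) ^ 2 + k) := by fun_prop
  have hev : ∀ᶠ s in 𝓝 x, 0 < (s - a) ^ 2 + k := hcont.continuousAt.eventually (lt_mem_nhds h)
  have hin : ∀ s : ℝ, HasDerivAt (fun s : ℝ => (s - a) ^ 2 + k) (2 * (s - a)) s := by
    intro s
    have h1 : HasDerivAt (fun s : ℝ => s - a) 1 s := (hasDerivAt_id s).sub_const a
    have h2 := (h1.pow 2).add_const k
    refine h2.congr_deriv ?_
    push_cast
    ring
  constructor
  · filter_upwards [hev] with s hs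
    exact ((hin s).log hs.ne').const_mul c
  · have h1 : HasDerivAt (fun s : ℝ => 2 * (s - a)) 2 x := by
      have h1 : HasDerivAt (fun s : ℝ => s - a) 1 x := (hasDerivAt_id x).sub_const a
      have h2 := h1.const_mul 2
      rwa [mul_one] at h2
    have h2 := ((h1.div (hin x) h.ne').const_mul c)
    refine h2.congr_deriv ?_
    have hne := h.ne'
    field_simp
    ring

end EMP

theorem harnack {v : ℝ → ℝ → ℝ} {a b r : ℝ} (hr : 0 < r)
    (hc : ContinuousOn (fun p : ℝ × ℝ => v p.1 p.2) {p | (p.1 - a) ^ 2 + (p.2 - b) ^ 2 ≤ r ^ 2})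
    (hpos : ∀ x y, (x - a) ^ 2 + (y - b) ^ 2 ≤ r ^ 2 → 0 < v x y)
    (hsup : ∀ x y, (x - a) ^ 2 + (y - b) ^ 2 ≤ r ^ 2 → Sup2 v x y)
    (hlog : ∀ x y, (x - a) ^ 2 + (y - b) ^ 2 ≤ r ^ 2 →
      v a b * v x y ≤ v ((a + x) / 2) ((b + y) / 2) ^ 2) :
    v a b / 4 ≤ v (a + r / 2) b ∧ v a b / 4 ≤ v (a - r / 2) b := by
  have hva : 0 < v a b := hpos a b (by nlinarith)
  -- compactness
  have hdisc : IsCompact {p : ℝ × ℝ | (p.1 - a) ^ 2 + (p.2 - b) ^ 2 ≤ r ^ 2} := by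
    refine (isCompact_Icc (a := ((a - r, b - r) : ℝ × ℝ)) (b := (a + r, b + r))).of_isClosed_subset
      (isClosed_le (by fun_prop) (by fun_prop)) ?_
    intro p hp
    simp only [Set.mem_ofPred_eq] at hp
    have h1 : |p.1 - a| ≤ r := abs_le_of_sq_le_sq (by nlinarith [sq_nonneg (p.2 - b)]) hr.le
    have h2 : |p.2 - b| ≤ r := abs_le_of_sq_le_sq (by nlinarith [sq_nonneg (p.1 - a)]) hr.le
    rw [abs_le] at h1 h2
    exact ⟨⟨by simp only; linarith, by simp only; linarith⟩,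
      ⟨by simp only; linarith, by simp only; linarith⟩⟩
  -- minimum on the circle of radius r / 2
  set C : Set (ℝ × ℝ) := {p | (p.1 - a) ^ 2 + (p.2 - b) ^ 2 = (r / 2) ^ 2} with hC
  have hCsub : C ⊆ {p : ℝ × ℝ | (p.1 - a) ^ 2 + (p.2 - b) ^ 2 ≤ r ^ 2} := by
    intro p hp
    simp only [hC, Set.mem_ofPred_eq] at hp ⊢
    rw [hp]; nlinarith
  have hCc : IsCompact C := hdisc.of_isClosed_subset (isClosed_eq (by fun_prop) (by fun_prop)) hCsub
  have hCne : (a + r / 2, b) ∈ C := by simp [hC]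
  obtain ⟨q, hq, hqmin⟩ := hCc.exists_isMinOn ⟨_, hCne⟩ (hc.mono hCsub)
  set m := v q.1 q.2 with hm
  have hmpos : 0 < m := hpos _ _ (hCsub hq)
  have hmle : ∀ x y, (x - a) ^ 2 + (y - b) ^ 2 = (r / 2) ^ 2 → m ≤ v x y := by
    intro x y h
    exact hqmin (show ((x, y) : ℝ × ℝ) ∈ C from h)
  set β := √(v a b * m) with hβ
  have hβsq : β ^ 2 = v a b * m := Real.sq_sqrt (by positivity)
  have hβ0 : 0 < β := Real.sqrt_pos.2 (by positivity)
  have hinner : ∀ x y, (x - a) ^ 2 + (y - b) ^ 2 = (r / 4) ^ 2 → β ≤ v x y := by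
    intro x y h
    have h1 : (2 * x - a - a) ^ 2 + (2 * y - b - b) ^ 2 = (r / 2) ^ 2 := by nlinarith
    have h2 := hlog (2 * x - a) (2 * y - b) (by rw [h1]; nlinarith)
    have h3 : (a + (2 * x - a)) / 2 = x := by ring
    have h4 : (b + (2 * y - b)) / 2 = y := by ring
    rw [h3, h4] at h2
    have h5 := hmle _ _ h1
    have h6 : 0 < v x y := hpos _ _ (by rw [h]; nlinarith)
    apply le_of_sq_le_sq _ h6.le
    rw [hβsq]
    exact (mul_le_mul_of_nonneg_left h5 hva.le).trans h2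
  -- comparison function
  have hlog4 : 0 < Real.log 4 := Real.log_pos (by norm_num)
  set c0 := β / (2 * Real.log 4) with hc0
  have hc0pos : 0 < c0 := by positivity
  let g : ℝ → ℝ → ℝ := fun x y => c0 * Real.log (r ^ 2) +
    -c0 * Real.log ((x - a) ^ 2 + (y - b) ^ 2)
  let K : Set (ℝ × ℝ) := {p | (r / 4) ^ 2 ≤ (p.1 - a) ^ 2 + (p.2 - b) ^ 2 ∧
    (p.1 - a) ^ 2 + (p.2 - b) ^ 2 ≤ r ^ 2}
  have hKsub : K ⊆ {p : ℝ × ℝ | (p.1 - a) ^ 2 + (p.2 - b) ^ 2 ≤ r ^ 2} := fun p hp => hp.2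
  have hKc : IsCompact K := by
    refine hdisc.of_isClosed_subset ?_ hKsub
    have hcl1 : IsClosed {p : ℝ × ℝ | (r / 4) ^ 2 ≤ (p.1 - a) ^ 2 + (p.2 - b) ^ 2} :=
      isClosed_le (by fun_prop) (by fun_prop)
    have hcl2 : IsClosed {p : ℝ × ℝ | (p.1 - a) ^ 2 + (p.2 - b) ^ 2 ≤ r ^ 2} :=
      isClosed_le (by fun_prop) (by fun_prop)
    exact hcl1.inter hcl2
  have hr16 : 0 < (r / 4) ^ 2 := by positivity
  have hgr : ∀ x y, (x - a) ^ 2 + (y - b) ^ 2 = r ^ 2 → g x y = 0 := by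
    intro x y h
    simp only [g]
    rw [h]; ring
  have hg4 : ∀ x y, (x - a) ^ 2 + (y - b) ^ 2 = (r / 4) ^ 2 → g x y = β := by
    intro x y h
    simp only [g]
    rw [h, Real.log_pow, Real.log_pow, Real.log_div hr.ne' (by norm_num), hc0]
    push_cast
    field_simp
    ring
  have hg2 : ∀ x y, (x - a) ^ 2 + (y - b) ^ 2 = (r / 2) ^ 2 → g x y = β / 2 := by
    intro x y h
    simp only [g]
    have h4 : Real.log 4 = 2 * Real.log 2 := by
      rw [show (4 : ℝ) = 2 ^ 2 by norm_num, Real.log_pow]; push_cast; ring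
    have h2 : 0 < Real.log 2 := Real.log_pos (by norm_num)
    rw [h, Real.log_pow, Real.log_pow, Real.log_div hr.ne' (by norm_num), hc0, h4]
    push_cast
    field_simp
    ring
  have hcmp := le_of_sup2 hKc (v := v) (g := g) (hc.mono hKsub) ?_ ?_ ?_
  · have hmβ : β / 2 ≤ m := by
      have h1 := hcmp q ⟨by rw [show (q.1 - a) ^ 2 + (q.2 - b) ^ 2 = (r / 2) ^ 2 from hq]; nlinarith,
        by rw [show (q.1 - a) ^ 2 + (q.2 - b) ^ 2 = (r / 2) ^ 2 from hq]; nlinarith⟩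
      rw [hg2 _ _ hq] at h1
      exact h1
    have hfin : v a b / 4 ≤ m := by
      have h1 : (β / 2) ^ 2 ≤ m ^ 2 := by gcongr
      have h2 : v a b * m / 4 ≤ m * m := by nlinarith
      have h3 : v a b / 4 * m ≤ m * m := by nlinarith
      exact le_of_mul_le_mul_right h3 hmpos
    refine ⟨hfin.trans (hmle _ _ ?_), hfin.trans (hmle _ _ ?_)⟩
    · ring
    · ring
  · -- continuity of g
    have : ContinuousOn (fun p : ℝ × ℝ => Real.log ((p.1 - a) ^ 2 + (p.2 - b) ^ 2)) K := by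
      refine ContinuousOn.log (by fun_prop) ?_
      intro p hp
      have := hp.1
      exact (lt_of_lt_of_le hr16 this).ne'
    exact continuousOn_const.add (continuousOn_const.mul this)
  · -- interior
    intro p hp
    have hpK := interior_subset hp
    refine ⟨hsup _ _ hpK.2, ?_⟩
    have hρ : 0 < (p.1 - a) ^ 2 + (p.2 - b) ^ 2 := lt_of_lt_of_le hr16 hpK.1
    obtain ⟨h1, h1'⟩ := EMP.log_deriv (-c0) ((p.2 - b) ^ 2) a p.1 hρ
    have hρ' : 0 < (p.2 - b) ^ 2 + (p.1 - a) ^ 2 := by rw [add_comm]; exact hρ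
    obtain ⟨h2, h2'⟩ := EMP.log_deriv (-c0) ((p.1 - a) ^ 2) b p.2 hρ'
    refine ⟨_, _, ⟨⟨_, ?_, h1'⟩, ⟨_, ?_, h2'⟩⟩, ?_⟩
    · filter_upwards [h1] with s hs
      exact hs.const_add _
    · filter_upwards [h2] with s hs
      have := hs.const_add (c0 * Real.log (r ^ 2))
      have e : (fun s => g p.1 s) = fun s => c0 * Real.log (r ^ 2) +
          -c0 * Real.log ((s - b) ^ 2 + (p.1 - a) ^ 2) := by
        funext s
        simp only [g]
        rw [add_comm ((p.1 - a) ^ 2)]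
      rw [e]
      exact this
    · apply le_of_eq
      have hne := hρ.ne'
      rw [add_comm ((p.2 - b) ^ 2)]
      field_simp
      ring
  · -- boundary
    intro p hp hpi
    have hcont : Continuous (fun p : ℝ × ℝ => (p.1 - a) ^ 2 + (p.2 - b) ^ 2) := by fun_prop
    by_cases h1 : (p.1 - a) ^ 2 + (p.2 - b) ^ 2 = (r / 4) ^ 2
    · rw [hg4 _ _ h1]; exact hinner _ _ h1
    · by_cases h2 : (p.1 - a) ^ 2 + (p.2 - b) ^ 2 = r ^ 2
      · rw [hgr _ _ h2]; exact (hpos _ _ hp.2).le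
      · exfalso
        apply hpi
        rw [mem_interior_iff_mem_nhds]
        have h3 : (r / 4) ^ 2 < (p.1 - a) ^ 2 + (p.2 - b) ^ 2 := lt_of_le_of_ne hp.1 (Ne.symm h1)
        have h4 : (p.1 - a) ^ 2 + (p.2 - b) ^ 2 < r ^ 2 := lt_of_le_of_ne hp.2 h2
        filter_upwards [hcont.continuousAt.eventually (lt_mem_nhds h3),
          hcont.continuousAt.eventually (gt_mem_nhds h4)] with z hz1 hz2
        exact ⟨hz1.le, hz2.le⟩

end Pool.Agent.Work.MP_d9fde0_an
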