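import Mathlib
import Pool.Agent.Work.MP_d9fde0_an.EMP

/-!
# The estimate on a long rectangle
-/

namespace Pool.Agent.Work.MP_d9fde0_an

open Matrix Filter Topology

namespace EWideA

/-- the comparison function -/
noncomputable def g (k sg : ℝ) (a b : ℝ) : ℝ := k * Real.cos (sg * a) * Real.sinh (sg * b)

theorem sub2_g (k sg a b : ℝ) : Sub2 (g k sg) a b := by
  refine ⟨-(sg ^ 2 * g k sg a b), sg ^ 2 * g k sg a b, ⟨⟨fun s => -(k * sg * Real.sin (sg * s)) *
    Real.sinh (sg * b), ?_, ?_⟩, ⟨fun s => k * Real.cos (sg * a) * (sg * Real.cosh (sg * s)),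
    ?_, ?_⟩⟩, by linarith⟩
  · refine Filter.Eventually.of_forall fun s => ?_
    have h1 : HasDerivAt (fun s : ℝ => sg * s) sg s := by
      simpa using (hasDerivAt_id s).const_mul sg
    have h2 := ((h1.cos.const_mul k).mul_const (Real.sinh (sg * b)))
    refine HasDerivAt.congr_deriv h2 ?_
    ring
  · have h1 : HasDerivAt (fun s : ℝ => sg * s) sg a := by
      simpa using (hasDerivAt_id a).const_mul sg
    have h2 := ((h1.sin.const_mul (k * sg)).neg.mul_const (Real.sinh (sg * b)))
    refine HasDerivAt.congr_deriv h2 ?_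
    unfold g
    ring
  · refine Filter.Eventually.of_forall fun s => ?_
    have h1 : HasDerivAt (fun s : ℝ => sg * s) sg s := by
      simpa using (hasDerivAt_id s).const_mul sg
    have h2 := h1.sinh.const_mul (k * Real.cos (sg * a))
    refine HasDerivAt.congr_deriv h2 ?_
    ring
  · have h1 : HasDerivAt (fun s : ℝ => sg * s) sg b := by
      simpa using (hasDerivAt_id b).const_mul sg
    have h2 := (h1.cosh.const_mul sg).const_mul (k * Real.cos (sg * a))
    refine HasDerivAt.congr_deriv h2 ?_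
    unfold g
    ring

theorem sinh_ge {x : ℝ} (hx : 1 ≤ x) : Real.exp x / 4 ≤ Real.sinh x := by
  rw [Real.sinh_eq]
  have h1 : Real.exp (-x) ≤ Real.exp x / 2 := by
    have h2 : Real.exp (-x) ≤ 1 := Real.exp_le_one_iff.mpr (by linarith)
    have h3 := Real.add_one_le_exp x
    linarith
  linarith

theorem sinh_le (y : ℝ) : Real.sinh y ≤ Real.exp y / 2 := by
  rw [Real.sinh_eq]
  have := Real.exp_pos (-y)
  linarith

end EWideA

open EWideA in
theorem wide_est {v : ℝ → ℝ → ℝ} {α r D X V : ℝ} {N : ℕ} (hα : 0 < α) (hr : 0 < r)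
    (hD : 1 ≤ Real.pi / (2 * α) * (D / 4)) (hrD : r ≤ 3 * D / 4) (hX : |X / 2| ≤ α)
    (hN : 2 * α ≤ N * (r / 2)) (hV : 0 < V)
    (hc : ContinuousOn (fun p : ℝ × ℝ => v p.1 p.2)
      (Set.Icc (-(α + r)) (α + r) ×ˢ Set.Icc 0 (3 * D / 4 + r)))
    (hpos : ∀ a b, |a| ≤ α + r → 0 ≤ b → b ≤ 3 * D / 4 + r → 0 < v a b)
    (hsup : ∀ a b, |a| ≤ α + r → 0 ≤ b → b ≤ 3 * D / 4 + r → Sup2 v a b)
    (hlog : ∀ a b a' b', |a| ≤ α + r → 0 ≤ b → b ≤ 3 * D / 4 + r → |a'| ≤ α + r → 0 ≤ b' →
      b' ≤ 3 * D / 4 + r → v a b * v a' b' ≤ v ((a + a') / 2) ((b + b') / 2) ^ 2)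
    (hmid : v 0 (D / 2) * V ≤ v (X / 2) (3 * D / 4) ^ 2) :
    V * (1 / (2 * 4 ^ N)) ^ 2 * Real.exp (-(Real.pi / (2 * α) * (D / 2))) ≤ v 0 (D / 2) := by
  set sg : ℝ := Real.pi / (2 * α) with hsg
  have hsg0 : 0 < sg := by positivity
  have hD0 : 0 < D := by
    by_contra hcon
    push Not at hcon
    have : sg * (D / 4) ≤ 0 := mul_nonpos_of_nonneg_of_nonpos hsg0.le (by linarith)
    linarith
  have hNpos : (0 : ℝ) < N := by
    by_contra hcon
    push Not at hcon
    have : (N : ℝ) * (r / 2) ≤ 0 := mul_nonpos_of_nonpos_of_nonneg hcon (by linarith)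
    linarith
  have hvX : 0 < v (X / 2) (3 * D / 4) := hpos _ _ (by linarith) (by positivity) (by linarith)
  -- Step A
  have stepA : ∀ a : ℝ, |a| ≤ α → v (X / 2) (3 * D / 4) / 4 ^ N ≤ v a (3 * D / 4) := by
    intro a ha
    by_cases hax : a = X / 2
    · rw [hax]
      apply div_le_self hvX.le
      exact one_le_pow₀ (by norm_num)
    set δ : ℝ := (a - X / 2) / N with hδ
    have hδ0 : δ ≠ 0 := by
      rw [hδ]
      exact div_ne_zero (sub_ne_zero.mpr hax) hNpos.ne'
    have hδr : 2 * |δ| ≤ r := by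
      rw [hδ, abs_div, abs_of_pos hNpos]
      have h1 : |a - X / 2| ≤ 2 * α := by
        calc |a - X / 2| ≤ |a| + |X / 2| := abs_sub _ _
          _ ≤ 2 * α := by linarith
      rw [← mul_div_assoc, div_le_iff₀ hNpos]
      nlinarith
    have hxi : ∀ i : ℕ, i ≤ N → |X / 2 + i * δ| ≤ α := by
      intro i hi
      have h0 : (0 : ℝ) ≤ i / N := by positivity
      have h1 : (i : ℝ) / N ≤ 1 := by
        rw [div_le_one hNpos]
        exact_mod_cast hi
      have h2 : X / 2 + i * δ = (1 - i / N) * (X / 2) + (i / N) * a := by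
        rw [hδ]
        field_simp
        ring
      rw [h2]
      rw [abs_le] at ha hX ⊢
      constructor
      · nlinarith
      · nlinarith
    have hind : ∀ i : ℕ, i ≤ N → v (X / 2) (3 * D / 4) / 4 ^ i ≤ v (X / 2 + i * δ) (3 * D / 4) := by
      intro i
      induction i with
      | zero => intro _; simp
      | succ i ih =>
        intro hi
        have h1 := ih (by omega)
        have hx := hxi i (by omega)
        set x := X / 2 + i * δ with hxdef
        have hR : 0 < 2 * |δ| := by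
          have := abs_pos.mpr hδ0
          linarith
        have hbox : ∀ x' y' : ℝ, (x' - x) ^ 2 + (y' - 3 * D / 4) ^ 2 ≤ (2 * |δ|) ^ 2 →
            |x'| ≤ α + r ∧ 0 ≤ y' ∧ y' ≤ 3 * D / 4 + r := by
          intro x' y' h
          have e1 : |x' - x| ≤ 2 * |δ| := by
            apply abs_le_of_sq_le_sq _ hR.le
            nlinarith [sq_nonneg (y' - 3 * D / 4)]
          have e2 : |y' - 3 * D / 4| ≤ 2 * |δ| := by
            apply abs_le_of_sq_le_sq _ hR.le
            nlinarith [sq_nonneg (x' - x)]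
          have e3 := abs_le.mp e1
          have e4 := abs_le.mp e2
          have e5 := abs_le.mp hx
          refine ⟨abs_le.mpr ⟨by linarith, by linarith⟩, by linarith, by linarith⟩
        have hxx : |x| ≤ α + r := by linarith
        have hb0 : 0 ≤ 3 * D / 4 := by positivity
        have hb1 : 3 * D / 4 ≤ 3 * D / 4 + r := by linarith
        have hH := harnack (v := v) (a := x) (b := 3 * D / 4) hR
          (hc.mono (by
            rintro ⟨x', y'⟩ h
            obtain ⟨h1, h2, h3⟩ := hbox x' y' h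
            exact ⟨⟨(abs_le.mp h1).1, (abs_le.mp h1).2⟩, h2, h3⟩))
          (fun x' y' h => hpos x' y' (hbox x' y' h).1 (hbox x' y' h).2.1 (hbox x' y' h).2.2)
          (fun x' y' h => hsup x' y' (hbox x' y' h).1 (hbox x' y' h).2.1 (hbox x' y' h).2.2)
          (fun x' y' h => hlog x (3 * D / 4) x' y' hxx hb0 hb1
            (hbox x' y' h).1 (hbox x' y' h).2.1 (hbox x' y' h).2.2)
        have hfin : v x (3 * D / 4) / 4 ≤ v (X / 2 + (i + 1 : ℕ) * δ) (3 * D / 4) := by
          rcases lt_or_gt_of_ne hδ0 with hneg | hpos'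
          · have h2 := hH.2
            rw [abs_of_neg hneg] at h2
            have h3 : x - 2 * -δ / 2 = X / 2 + (i + 1 : ℕ) * δ := by
              rw [hxdef]; push_cast; ring
            rwa [h3] at h2
          · have h2 := hH.1
            rw [abs_of_pos hpos'] at h2
            have h3 : x + 2 * δ / 2 = X / 2 + (i + 1 : ℕ) * δ := by
              rw [hxdef]; push_cast; ring
            rwa [h3] at h2
        calc v (X / 2) (3 * D / 4) / 4 ^ (i + 1) = (v (X / 2) (3 * D / 4) / 4 ^ i) / 4 := by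
              rw [pow_succ]; field_simp
          _ ≤ v x (3 * D / 4) / 4 := by linarith
          _ ≤ _ := hfin
    have hlast := hind N le_rfl
    have h3 : X / 2 + N * δ = a := by
      rw [hδ]
      field_simp
      ring
    rwa [h3] at hlast
  -- Step B
  set q : ℝ := v (X / 2) (3 * D / 4) / 4 ^ N with hq
  have hq0 : 0 < q := by positivity
  set Y : ℝ := sg * (3 * D / 4) with hY
  have hY0 : 0 < Y := by positivity
  have hS : 0 < Real.sinh Y := Real.sinh_pos_iff.mpr hY0
  have hcmp := le_of_sup2 (K := Set.Icc (-α) α ×ˢ Set.Icc 0 (3 * D / 4)) (v := v)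
    (g := g (q / Real.sinh Y) sg) (isCompact_Icc.prod isCompact_Icc)
    (hc.mono (Set.prod_mono (Set.Icc_subset_Icc (by linarith) (by linarith))
      (Set.Icc_subset_Icc le_rfl (by linarith))))
    (by
      unfold g
      have : Continuous fun p : ℝ × ℝ =>
        q / Real.sinh Y * Real.cos (sg * p.1) * Real.sinh (sg * p.2) := by fun_prop
      exact this.continuousOn)
    (by
      rintro ⟨a, b⟩ hp
      have hp' := interior_subset hp
      obtain ⟨⟨h1, h2⟩, h3, h4⟩ := hp'
      exact ⟨hsup a b (abs_le.mpr ⟨by linarith, by linarith⟩) h3 (by linarith), sub2_g _ _ _ _⟩)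
    (by
      rintro ⟨a, b⟩ hp hint
      obtain ⟨⟨h1, h2⟩, h3, h4⟩ := hp
      rw [interior_prod_eq, interior_Icc, interior_Icc] at hint
      simp only at h1 h2 h3 h4
      show g (q / Real.sinh Y) sg a b ≤ v a b
      have hva : 0 < v a b := hpos a b (abs_le.mpr ⟨by linarith, by linarith⟩) h3 (by linarith)
      by_cases ha1 : a = -α
      · have : Real.cos (sg * a) = 0 := by
          rw [ha1, hsg]
          have : Real.pi / (2 * α) * -α = -(Real.pi / 2) := by field_simp
          rw [this, Real.cos_neg, Real.cos_pi_div_two]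
        unfold g
        rw [this]
        simp only [mul_zero, zero_mul]
        exact hva.le
      by_cases ha2 : a = α
      · have : Real.cos (sg * a) = 0 := by
          rw [ha2, hsg]
          have : Real.pi / (2 * α) * α = Real.pi / 2 := by field_simp
          rw [this, Real.cos_pi_div_two]
        unfold g
        rw [this]
        simp only [mul_zero, zero_mul]
        exact hva.le
      by_cases hb1 : b = 0
      · have : Real.sinh (sg * b) = 0 := by
          rw [hb1, mul_zero, Real.sinh_zero]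
        unfold g
        rw [this, mul_zero]
        exact hva.le
      by_cases hb2 : b = 3 * D / 4
      · unfold g
        rw [hb2]
        have h5 := stepA a (abs_le.mpr ⟨h1, h2⟩)
        refine le_trans ?_ h5
        have h6 : q / Real.sinh Y * Real.cos (sg * a) * Real.sinh (sg * (3 * D / 4)) =
            q * Real.cos (sg * a) := by
          rw [← hY]
          field_simp
        rw [h6]
        have := Real.cos_le_one (sg * a)
        nlinarith
      · exfalso
        apply hint
        refine ⟨⟨lt_of_le_of_ne h1 (Ne.symm ha1), lt_of_le_of_ne h2 ha2⟩,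
          lt_of_le_of_ne h3 (Ne.symm hb1), lt_of_le_of_ne h4 hb2⟩)
  have hmem : ((0 : ℝ), D / 2) ∈ Set.Icc (-α) α ×ˢ Set.Icc 0 (3 * D / 4) :=
    ⟨⟨by simp only; linarith, by simp only; linarith⟩, by simp only; linarith,
      by simp only; linarith⟩
  have h1 := hcmp _ hmem
  simp only [g, mul_zero, Real.cos_zero, mul_one] at h1
  set v0 : ℝ := v 0 (D / 2) with hv0
  have hv0pos : 0 < v0 := hpos _ _ (by simp; linarith) (by positivity) (by linarith)
  have h2 : q / 2 * Real.exp (-(sg * (D / 4))) ≤ v0 := by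
    refine le_trans ?_ h1
    have e1 : Real.exp (sg * (D / 2)) / 4 ≤ Real.sinh (sg * (D / 2)) := sinh_ge (by linarith)
    have e2 : Real.sinh Y ≤ Real.exp Y / 2 := sinh_le Y
    have e3 : Real.exp (-(sg * (D / 4))) * Real.exp Y = Real.exp (sg * (D / 2)) := by
      rw [← Real.exp_add, hY]
      congr 1
      ring
    rw [div_mul_eq_mul_div q (Real.sinh Y), le_div_iff₀ hS]
    have e4 : 0 < Real.exp (-(sg * (D / 4))) := Real.exp_pos _
    calc q / 2 * Real.exp (-(sg * (D / 4))) * Real.sinh Y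
        ≤ q / 2 * Real.exp (-(sg * (D / 4))) * (Real.exp Y / 2) := by gcongr
      _ = q * ((Real.exp (-(sg * (D / 4))) * Real.exp Y) / 4) := by ring
      _ = q * (Real.exp (sg * (D / 2)) / 4) := by rw [e3]
      _ ≤ q * Real.sinh (sg * (D / 2)) := by gcongr
  have h3 : (q / 2 * Real.exp (-(sg * (D / 4)))) ^ 2 ≤ v0 ^ 2 := by
    apply pow_le_pow_left₀ (by positivity) h2
  have h4 : (q / 2 * Real.exp (-(sg * (D / 4)))) ^ 2 =
      v (X / 2) (3 * D / 4) ^ 2 * ((1 / (2 * 4 ^ N)) ^ 2 * Real.exp (-(sg * (D / 2)))) := by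
    rw [mul_pow, ← Real.exp_nat_mul, hq]
    rw [show ((2 : ℕ) : ℝ) * -(sg * (D / 4)) = -(sg * (D / 2)) by push_cast; ring]
    field_simp
  rw [h4] at h3
  have h5 : v0 * V * ((1 / (2 * 4 ^ N)) ^ 2 * Real.exp (-(sg * (D / 2)))) ≤ v0 ^ 2 := by
    refine le_trans ?_ h3
    exact mul_le_mul_of_nonneg_right hmid (by positivity)
  have h6 : v0 * (V * (1 / (2 * 4 ^ N)) ^ 2 * Real.exp (-(sg * (D / 2)))) ≤ v0 * v0 := by
    calc v0 * (V * (1 / (2 * 4 ^ N)) ^ 2 * Real.exp (-(sg * (D / 2)))) =
        v0 * V * ((1 / (2 * 4 ^ N)) ^ 2 * Real.exp (-(sg * (D / 2)))) := by ring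
      _ ≤ v0 ^ 2 := h5
      _ = v0 * v0 := by ring
  exact le_of_mul_le_mul_left h6 hv0pos

end Pool.Agent.Work.MP_d9fde0_an
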