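import Mathlib
import Pool.Agent.Work.MP_d9fde0_an.Defs
import Pool.Agent.Work.MP_d9fde0_an.EDefs
import Pool.Agent.Work.MP_d9fde0_an.ELine
import Pool.Agent.Work.MP_d9fde0_an.EWideA
import Pool.Agent.Work.MP_d9fde0_an.EDom

/-!
# The estimate in the wide part of the domain
-/

namespace Pool.Agent.Work.MP_d9fde0_an

open Matrix Filter Topology

namespace EWide

theorem eh_pos : 0 < eh := by unfold eh; positivity

theorem eh_le : eh ≤ 1 / 100 := by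
  unfold eh
  norm_num

theorem eR_pos : 0 < eR := by unfold eR; norm_num

theorem eR_le : eR ≤ 1 / 500 := by unfold eR; norm_num

/-- the direction -/
noncomputable def dd (T X2 X3 : ℝ) : E4 := !₂[0, X2, X3, 2 * eh * T]

theorem norm_dd_sq {T X2 X3 : ℝ} : ‖dd T X2 X3‖ ^ 2 = X2 ^ 2 + X3 ^ 2 + (2 * eh * T) ^ 2 := by
  rw [EuclideanSpace.norm_eq, Real.sq_sqrt (by positivity)]
  simp only [Fin.sum_univ_four, dd, Real.norm_eq_abs, sq_abs]
  simp

theorem norm_dd_ge {T X2 X3 : ℝ} : 2 * eh * T ≤ ‖dd T X2 X3‖ := by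
  have h1 := PiLp.norm_apply_le (dd T X2 X3) 3
  have h2 : (dd T X2 X3) 3 = 2 * eh * T := by simp [dd]
  rw [h2] at h1
  exact le_trans (le_abs_self _) h1

theorem norm_dd_le {T X2 X3 : ℝ} (hT : 0 ≤ T) (h2 : |X2| ≤ 1 / 2) (h3 : |X3| ≤ 1 / 2) :
    ‖dd T X2 X3‖ ≤ 2 * eh * T + 1 := by
  have he := eh_pos
  have hnn : 0 ≤ 2 * eh * T := by positivity
  have h4 : X2 ^ 2 ≤ (1 / 2) ^ 2 := by
    rw [← sq_abs X2]
    exact pow_le_pow_left₀ (abs_nonneg _) h2 2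
  have h5 : X3 ^ 2 ≤ (1 / 2) ^ 2 := by
    rw [← sq_abs X3]
    exact pow_le_pow_left₀ (abs_nonneg _) h3 2
  have h6 := norm_dd_sq (T := T) (X2 := X2) (X3 := X3)
  refine le_of_sq_le_sq ?_ (by linarith)
  rw [h6]
  nlinarith

/-- the base point -/
noncomputable def p0 (T : ℝ) : E4 := !₂[0, 0, 0, eh * T]

/-- the point with the coordinates `(a, s X2, s X3, h T + 2 h T s)`, `s = b / D` -/
noncomputable def P (T X2 X3 a b : ℝ) : E4 :=
  p0 T + a • (EuclideanSpace.single 0 1 : E4) + b • ((‖dd T X2 X3‖)⁻¹ • dd T X2 X3)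

theorem P_zero (T X2 X3 a b : ℝ) : P T X2 X3 a b 0 = a := by
  simp [P, p0, dd]

theorem P_one (T X2 X3 a b : ℝ) : P T X2 X3 a b 1 = b / ‖dd T X2 X3‖ * X2 := by
  simp [P, p0, dd]
  ring

theorem P_two (T X2 X3 a b : ℝ) : P T X2 X3 a b 2 = b / ‖dd T X2 X3‖ * X3 := by
  simp [P, p0, dd]
  ring

theorem P_three (T X2 X3 a b : ℝ) :
    P T X2 X3 a b 3 = eh * T + 2 * eh * T * (b / ‖dd T X2 X3‖) := by
  simp [P, p0, dd]
  ring

theorem P_mem {T X2 X3 a b : ℝ} (hT : 2 ≤ T) (hT' : 1 ≤ eh * T) (h2 : |X2| ≤ eR * (3 * eh))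
    (h3 : |X3| ≤ eR * (3 * eh)) (ha : |a| ≤ (1 - 27 / 10 * eh) + eh / 10) (hb : 0 ≤ b)
    (hb' : b ≤ 3 * ‖dd T X2 X3‖ / 4 + eh / 10) : P T X2 X3 a b ∈ OmE T := by
  have he := eh_pos
  have he' := eh_le
  have hR := eR_pos
  set D := ‖dd T X2 X3‖ with hD
  have hD1 : 2 * eh * T ≤ D := norm_dd_ge
  have hD0 : 0 < D := by nlinarith
  set s := b / D with hs
  have hs0 : 0 ≤ s := by positivity
  have hs1 : s ≤ 3 / 4 + eh / 20 := by
    rw [hs, div_le_iff₀ hD0]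
    nlinarith
  have hT0 : (0 : ℝ) < T := by linarith
  have h3T : P T X2 X3 a b 3 / T = eh + 2 * eh * s := by
    rw [P_three, ← hD, ← hs]
    field_simp
  refine mem_omE (by linarith) ?_ ?_ ?_
  · rw [P_zero, h3T]
    nlinarith
  · rw [P_one, h3T, ← hD, ← hs, abs_mul, abs_of_nonneg hs0]
    have : s * |X2| ≤ s * (eR * (3 * eh)) := mul_le_mul_of_nonneg_left h2 hs0
    nlinarith [mul_pos hR he]
  · rw [P_two, h3T, ← hD, ← hs, abs_mul, abs_of_nonneg hs0]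
    have : s * |X3| ≤ s * (eR * (3 * eh)) := mul_le_mul_of_nonneg_left h3 hs0
    nlinarith [mul_pos hR he]

theorem P_mid (T X2 X3 a b a' b' : ℝ) :
    (1 / 2 : ℝ) • P T X2 X3 a b + (1 / 2 : ℝ) • P T X2 X3 a' b' =
      P T X2 X3 ((a + a') / 2) ((b + b') / 2) := by
  unfold P
  module

theorem Z_mid {T : ℝ} {Z : E4} (h3 : Z 3 = 3 * eh * T) (hD : 0 < ‖dd T (Z 1) (Z 2)‖) :
    (1 / 2 : ℝ) • P T (Z 1) (Z 2) 0 (‖dd T (Z 1) (Z 2)‖ / 2) + (1 / 2 : ℝ) • Z =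
      P T (Z 1) (Z 2) (Z 0 / 2) (3 * ‖dd T (Z 1) (Z 2)‖ / 4) := by
  set D := ‖dd T (Z 1) (Z 2)‖ with hDD
  ext i
  have e1 : D / 2 / D = 1 / 2 := by field_simp
  have e2 : 3 * D / 4 / D = 3 / 4 := by field_simp
  fin_cases i
  · simp only [Fin.zero_eta, PiLp.add_apply, PiLp.smul_apply, P_zero, smul_eq_mul]
    ring
  · simp only [Fin.mk_one, PiLp.add_apply, PiLp.smul_apply, P_one, smul_eq_mul, ← hDD, e1, e2]
    ring
  · simp only [Fin.reduceFinMk, PiLp.add_apply, PiLp.smul_apply, P_two, smul_eq_mul, ← hDD, e1, e2]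
    ring
  · simp only [Fin.reduceFinMk, PiLp.add_apply, PiLp.smul_apply, P_three, smul_eq_mul, ← hDD, e1,
      e2, h3]
    ring

theorem continuous_P (T X2 X3 : ℝ) : Continuous fun p : ℝ × ℝ => P T X2 X3 p.1 p.2 := by
  unfold P
  fun_prop

end EWide

open EWide in
theorem wide : ∃ c > (0 : ℝ), ∃ T₀, 1 ≤ T₀ ∧ ∀ T, T₀ ≤ T → ∀ (Λ : ℝ) (u : E4 → ℝ),
    IsSolutionE 3 Λ (OmE T) u →
    (∀ z ∈ OmE T, ∀ z' ∈ OmE T, u z * u z' ≤ u ((1 / 2 : ℝ) • z + (1 / 2 : ℝ) • z') ^ 2) →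
    ∀ Z₂ ∈ OmE T, Z₂ 3 = 3 * eh * T → ∃ Z ∈ OmE T, Z 3 = 2 * eh * T ∧
      c * Real.exp (-(eσw * (eh * T))) * (-u Z₂) ≤ -u Z := by
  have he := eh_pos
  have he' := eh_le
  have hR := eR_pos
  have hR' := eR_le
  set α : ℝ := 1 - 27 / 10 * eh with hα
  set r : ℝ := eh / 10 with hr
  have hα0 : 0 < α := by rw [hα]; linarith
  have hα1 : α < 1 := by rw [hα]; linarith
  have hr0 : 0 < r := by rw [hr]; linarith
  obtain ⟨N, hN⟩ := exists_nat_ge (2 * α / (r / 2))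
  have hN' : 2 * α ≤ N * (r / 2) := by rwa [div_le_iff₀ (by positivity)] at hN
  have hσw : eσw = Real.pi / (2 * α) := rfl
  have hσw0 : 0 < eσw := by rw [hσw]; positivity
  have hσw1 : 1 ≤ eσw := by
    rw [hσw, le_div_iff₀ (by positivity)]
    have := Real.pi_gt_three
    linarith
  refine ⟨(1 / (2 * 4 ^ N)) ^ 2 * Real.exp (-(eσw / 2)), by positivity, 2 / eh, ?_, ?_⟩
  · rw [le_div_iff₀ he]; linarith
  intro T hT Λ u hu hlc Z₂ hZ₂ hZ₂3
  have hT2 : 2 ≤ eh * T := by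
    rw [div_le_iff₀ he] at hT
    linarith
  have hT0 : 0 < T := by
    by_contra hneg
    push Not at hneg
    nlinarith
  have hT1 : 2 ≤ T := by
    nlinarith
  have hdom := omE_domain (T := T) (by linarith)
  obtain ⟨hZ0, hZ1, hZ2⟩ := omE_subset (by linarith) (subset_closure hZ₂)
  have h3T : Z₂ 3 / T = 3 * eh := by rw [hZ₂3]; field_simp
  rw [h3T] at hZ0 hZ1 hZ2
  have hb1 : |Z₂ 1| ≤ 1 / 2 := by
    refine le_trans hZ1 ?_
    nlinarith
  have hb2 : |Z₂ 2| ≤ 1 / 2 := by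
    refine le_trans hZ2 ?_
    nlinarith
  set D := ‖dd T (Z₂ 1) (Z₂ 2)‖ with hD
  have hD1 : 2 * eh * T ≤ D := norm_dd_ge
  have hD2 : D ≤ 2 * eh * T + 1 := norm_dd_le hT0.le hb1 hb2
  have hD0 : 0 < D := by nlinarith
  have hmem : ∀ a b, |a| ≤ α + r → 0 ≤ b → b ≤ 3 * D / 4 + r → P T (Z₂ 1) (Z₂ 2) a b ∈ OmE T := by
    intro a b ha hb hb'
    exact P_mem hT1 (by linarith) hZ1 hZ2 ha hb hb'
  have key := wide_est (v := fun a b => -u (P T (Z₂ 1) (Z₂ 2) a b)) (α := α) (r := r) (D := D)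
    (X := Z₂ 0) (V := -u Z₂) (N := N) hα0 hr0 ?_ ?_ ?_ hN' ?_ ?_ ?_ ?_ ?_ ?_
  · refine ⟨P T (Z₂ 1) (Z₂ 2) 0 (D / 2), hmem _ _ ?_ ?_ ?_, ?_, ?_⟩
    · rw [abs_zero]; positivity
    · positivity
    · linarith
    · rw [P_three, ← hD]
      field_simp
      ring
    · have hneg := hu.neg _ hZ₂
      have h1 : 0 < -u Z₂ := by linarith
      have h2 : Real.exp (-(eσw / 2)) * Real.exp (-(eσw * (eh * T))) ≤
          Real.exp (-(Real.pi / (2 * α) * (D / 2))) := by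
        rw [← Real.exp_add, ← hσw]
        apply Real.exp_le_exp.mpr
        nlinarith
      have h3 := mul_le_mul_of_nonneg_left h2
        (by positivity : 0 ≤ -u Z₂ * (1 / (2 * 4 ^ N : ℝ)) ^ 2)
      refine le_trans (le_of_eq ?_) (h3.trans key)
      ring
  · rw [← hσw]
    nlinarith
  · linarith
  · rw [abs_div, abs_of_pos (by norm_num : (0 : ℝ) < 2)]
    rw [hα]
    linarith
  · have := hu.neg _ hZ₂
    linarith
  · have hcu : ContinuousOn u (OmE T) := hu.contDiffOn.continuousOn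
    refine (hcu.comp (continuous_P T (Z₂ 1) (Z₂ 2)).continuousOn ?_).neg
    rintro ⟨a, b⟩ ⟨ha, hb⟩
    exact hmem a b (abs_le.mpr ha) hb.1 hb.2
  · intro a b ha hb hb'
    have := hu.neg _ (hmem a b ha hb hb')
    linarith
  · intro a b ha hb hb'
    refine sup2_of_solution hdom.isOpen hu (e := (EuclideanSpace.single 0 1 : E4))
      (f := (‖dd T (Z₂ 1) (Z₂ 2)‖)⁻¹ • dd T (Z₂ 1) (Z₂ 2)) ?_ ?_ ?_ (p0 T)
      (hmem a b ha hb hb')
    · simp
    · rw [norm_smul, norm_inv, norm_norm, ← hD]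
      field_simp
    · rw [inner_smul_right, EuclideanSpace.inner_single_left]
      simp [dd]
  · intro a b a' b' ha hb hb' ha' ha'' hb''
    have := hlc _ (hmem a b ha hb hb') _ (hmem a' b' ha' ha'' hb'')
    rw [P_mid] at this
    rw [neg_mul_neg, neg_sq]
    exact this
  · have := hlc _ (hmem 0 (D / 2) ?_ ?_ ?_) _ hZ₂
    · rw [hD, Z_mid hZ₂3 hD0] at this
      rw [neg_mul_neg, neg_sq]
      exact this
    · rw [abs_zero]; positivity
    · positivity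
    · linarith

end Pool.Agent.Work.MP_d9fde0_an
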