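import Mathlib
import Pool.Agent.Work.MP_d9fde0_an.Defs
import Pool.Agent.Work.MP_d9fde0_an.EDefs
import Pool.Agent.Work.MP_d9fde0_an.EDom
import Pool.Agent.Work.MP_d9fde0_an.ENum
import Pool.Agent.Work.MP_d9fde0_an.ENarrow
import Pool.Agent.Work.MP_d9fde0_an.EWide

/-!
# The main theorem for the eigenvalue problem
-/

namespace Pool.Agent.Work.MP_d9fde0_an

open Matrix Filter Topology

theorem mainE : ∃ Ω : Set (EuclideanSpace ℝ (Fin 4)), IsSmoothConvexDomain Ω ∧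
    ∀ (Λ : ℝ) (u : EuclideanSpace ℝ (Fin 4) → ℝ), IsSolutionE 3 Λ Ω u →
      ¬ ConvexOn ℝ Ω (fun x => -Real.log (-u x)) := by
  obtain ⟨c, hc, hnar⟩ := narrow
  obtain ⟨c', hc', T₀, hT₀, hwid⟩ := wide
  have he : 0 < eh := by unfold eh; positivity
  have hgap := num_gap
  set δ := (1 - eγ) * eσ₂ - eσw with hδ
  have hδ0 : 0 < δ := by linarith
  obtain ⟨T, hT1, hT2⟩ : ∃ T, T₀ ≤ T ∧ 1 < c * c' * Real.exp (δ * (eh * T)) := by
    have h1 : Tendsto (fun T : ℝ => c * c' * Real.exp (δ * (eh * T))) atTop atTop := by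
      refine Tendsto.const_mul_atTop (by positivity) (Real.tendsto_exp_atTop.comp ?_)
      refine Tendsto.const_mul_atTop hδ0 ?_
      exact Tendsto.const_mul_atTop he tendsto_id
    exact ((eventually_ge_atTop T₀).and (h1.eventually (eventually_gt_atTop 1))).exists
  refine ⟨OmE T, omE_domain (by linarith), ?_⟩
  intro Λ u hu hconv
  have hlc : ∀ z ∈ OmE T, ∀ z' ∈ OmE T,
      u z * u z' ≤ u ((1 / 2 : ℝ) • z + (1 / 2 : ℝ) • z') ^ 2 := by
    intro z hz z' hz'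
    have h1 := hconv.2 hz hz' (by norm_num : (0 : ℝ) ≤ 1 / 2) (by norm_num : (0 : ℝ) ≤ 1 / 2)
      (by norm_num)
    have hm : (1 / 2 : ℝ) • z + (1 / 2 : ℝ) • z' ∈ OmE T :=
      hconv.1 hz hz' (by norm_num) (by norm_num) (by norm_num)
    have h2 : 0 < -u z := by linarith [hu.neg z hz]
    have h3 : 0 < -u z' := by linarith [hu.neg z' hz']
    have h4 : 0 < -u ((1 / 2 : ℝ) • z + (1 / 2 : ℝ) • z') := by linarith [hu.neg _ hm]
    simp only [smul_eq_mul] at h1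
    have h5 : Real.log (-u z * -u z') ≤
        Real.log ((-u ((1 / 2 : ℝ) • z + (1 / 2 : ℝ) • z')) ^ 2) := by
      rw [Real.log_mul h2.ne' h3.ne', Real.log_pow]
      push_cast
      linarith
    have h6 := (Real.log_le_log_iff (by positivity) (by positivity)).mp h5
    rw [neg_mul_neg, neg_sq] at h6
    exact h6
  obtain ⟨Z₂, hZ₂, Z₄, hZ₄, h23, h43, hmin, hn⟩ := hnar T (by linarith) Λ u hu hlc
  obtain ⟨Z, hZ, hZ3, hw⟩ := hwid T hT1 Λ u hu hlc Z₂ hZ₂ h23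
  have hmid := hlc Z hZ Z₄ hZ₄
  have hmm : (1 / 2 : ℝ) • Z + (1 / 2 : ℝ) • Z₄ ∈ OmE T :=
    hconv.1 hZ hZ₄ (by norm_num) (by norm_num) (by norm_num)
  have h3 : ((1 / 2 : ℝ) • Z + (1 / 2 : ℝ) • Z₄ : E4) 3 = 3 * eh * T := by
    simp only [PiLp.add_apply, PiLp.smul_apply, smul_eq_mul, hZ3, h43]
    ring
  have h4 := hmin _ hmm h3
  have h5 := hu.neg _ hmm
  have h6 := hu.neg _ hZ₂
  have h7 : u ((1 / 2 : ℝ) • Z + (1 / 2 : ℝ) • Z₄) ^ 2 ≤ u Z₂ ^ 2 := by nlinarith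
  have h8 : (c' * Real.exp (-(eσw * (eh * T))) * (-u Z₂)) *
      (c * Real.exp ((1 - eγ) * eσ₂ * (eh * T)) * (-u Z₂)) ≤ (-u Z) * (-u Z₄) := by
    have h9 : 0 < -u Z₂ := by linarith
    have h10 : 0 < -u Z := by linarith [hu.neg Z hZ]
    exact mul_le_mul hw hn (by positivity) h10.le
  have h9 : (c' * Real.exp (-(eσw * (eh * T))) * (-u Z₂)) *
      (c * Real.exp ((1 - eγ) * eσ₂ * (eh * T)) * (-u Z₂)) =
      (c * c' * Real.exp (δ * (eh * T))) * u Z₂ ^ 2 := by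
    have : Real.exp (δ * (eh * T)) =
        Real.exp (-(eσw * (eh * T))) * Real.exp ((1 - eγ) * eσ₂ * (eh * T)) := by
      rw [← Real.exp_add]
      congr 1
      rw [hδ]
      ring
    rw [this]
    ring
  rw [h9, neg_mul_neg] at h8
  have h11 : u Z₂ ≠ 0 := h6.ne
  have h10 : 0 < u Z₂ ^ 2 := by positivity
  nlinarith

end Pool.Agent.Work.MP_d9fde0_an
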