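import Mathlib
import Pool.Agent.Work.MP_d9fde0_an.Defs

/-!
# The explicit function

`w τ₁ ε` is the function whose (negative) sublevel set is the domain, in `ℝ⁷`. With
`z = y 0`, `s = ∑_{i<6} (y i)²`, `τ = ε * y 6` it is
`(s - 1)/2 + τ (6 z² - s)/2 + τ² X(z,s)/2 + (τ/τ₁)⁸/2`.
-/

namespace Pool.Agent.Work.MP_d9fde0_an

noncomputable section

/-- a small constant -/
def mu : ℝ := 1 / 1000

/-- the second order term -/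
def X (z s : ℝ) : ℝ :=
  mu + 35 / 16 + 108 / 5 * z ^ 2 - 11 / 10 * s - 9 * z ^ 4 + 27 / 5 * z ^ 2 * s - 27 / 80 * s ^ 2

/-- the partial derivatives of `X` -/
def Xz (z s : ℝ) : ℝ := 216 / 5 * z - 36 * z ^ 3 + 54 / 5 * z * s
def Xs (z s : ℝ) : ℝ := -11 / 10 + 27 / 5 * z ^ 2 - 27 / 40 * s
def Xzz (z s : ℝ) : ℝ := 216 / 5 - 108 * z ^ 2 + 54 / 5 * s
def Xzs (z : ℝ) : ℝ := 54 / 5 * z
def Xss : ℝ := -27 / 40

/-- the function in the variables `z`, `s`, `τ` -/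
def G (τ₁ z s τ : ℝ) : ℝ :=
  (s - 1) / 2 + τ * (6 * z ^ 2 - s) / 2 + τ ^ 2 * X z s / 2 + (τ / τ₁) ^ 8 / 2

/-- its derivative in the direction with `dz = α`, `ds = 2 b`, `dτ = ζ` -/
def D1 (τ₁ z s τ α b ζ : ℝ) : ℝ :=
  (6 * τ * z + τ ^ 2 * Xz z s / 2) * α + (1 - τ + τ ^ 2 * Xs z s) * b
    + ((6 * z ^ 2 - s) / 2 + τ * X z s + 4 * τ ^ 7 / τ₁ ^ 8) * ζ

/-- the second derivative along `z + tα`, `s + 2tb + t²c`, `τ + tζ` -/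
def D2 (τ₁ z s τ α b c ζ : ℝ) : ℝ :=
  (6 * τ + τ ^ 2 * Xzz z s / 2) * α ^ 2 + 2 * τ ^ 2 * Xzs z * α * b + 2 * τ ^ 2 * Xss * b ^ 2
    + (1 - τ + τ ^ 2 * Xs z s) * c + 2 * (6 * z + τ * Xz z s) * α * ζ
    + 4 * (-1 / 2 + τ * Xs z s) * b * ζ + (X z s + 28 * τ ^ 6 / τ₁ ^ 8) * ζ ^ 2

/-- `∑ x_i²` -/
def sq (x : Fin 6 → ℝ) : ℝ := ∑ i, x i ^ 2

/-- `∑ x_i ξ_i` -/
def dot (x ξ : Fin 6 → ℝ) : ℝ := ∑ i, x i * ξ i

/-- the first six coordinates -/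
def xp (y : EuclideanSpace ℝ (Fin 7)) : Fin 6 → ℝ := fun i => y i.castSucc

/-- the function on `ℝ⁷` -/
def w (τ₁ ε : ℝ) (y : EuclideanSpace ℝ (Fin 7)) : ℝ := G τ₁ (y 0) (sq (xp y)) (ε * y 6)

/-- The matrix of the quadratic form `v ↦ D2 … (v 0) (x · v) (|v|²) (ε v₆)`. -/
def Bm (τ₁ ε τ : ℝ) (x : Fin 6 → ℝ) : Matrix (Fin 7) (Fin 7) ℝ :=
  Matrix.of fun i j =>
    let z := x 0
    let s := sq x
    let e : Fin 7 → ℝ := Fin.snoc (fun i => if i = 0 then 1 else 0) 0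
    let x' : Fin 7 → ℝ := Fin.snoc x 0
    let l : Fin 7 → ℝ := Fin.snoc (fun _ => 0) ε
    (6 * τ + τ ^ 2 * Xzz z s / 2) * (e i * e j) + τ ^ 2 * Xzs z * (e i * x' j + x' i * e j)
      + 2 * τ ^ 2 * Xss * (x' i * x' j)
      + (1 - τ + τ ^ 2 * Xs z s) * (if i = j ∧ i ≠ 6 then 1 else 0)
      + (6 * z + τ * Xz z s) * (e i * l j + l i * e j)
      + 2 * (-1 / 2 + τ * Xs z s) * (x' i * l j + l i * x' j)
      + (X z s + 28 * τ ^ 6 / τ₁ ^ 8) * (l i * l j)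

/-- the domain -/
def Om (τ₁ ε : ℝ) : Set (EuclideanSpace ℝ (Fin 7)) :=
  {y | sq (xp y) < 1 + mu / 40 ∧ |ε * y 6| < 2 * τ₁ ∧ w τ₁ ε y < 0}

end

end Pool.Agent.Work.MP_d9fde0_an
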