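import Mathlib
import Pool.Agent.Work.MP_d9fde0_an.Defs
import Pool.Agent.Work.MP_d9fde0_an.Fn

/-!
# Derivatives of the explicit function
-/

namespace Pool.Agent.Work.MP_d9fde0_an

open Matrix

theorem contDiff_coord {n : ℕ} (i : Fin n) :
    ContDiff ℝ ⊤ (fun y : EuclideanSpace ℝ (Fin n) => y i) := by
  exact (EuclideanSpace.proj (𝕜 := ℝ) i : EuclideanSpace ℝ (Fin n) →L[ℝ] ℝ).contDiff

theorem contDiff_w (τ₁ ε : ℝ) : ContDiff ℝ ⊤ (w τ₁ ε) := by
  have h : ∀ i : Fin 7, ContDiff ℝ ⊤ (fun y : EuclideanSpace ℝ (Fin 7) => y i) :=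
    fun i => contDiff_coord i
  unfold w G X sq xp
  have h0 := h 0
  have h6 := h 6
  have hs : ContDiff ℝ ⊤ (fun y : EuclideanSpace ℝ (Fin 7) => ∑ i : Fin 6, y i.castSucc ^ 2) :=
    ContDiff.sum fun i _ => (h _).pow 2
  fun_prop

theorem xp_add_smul (y v : EuclideanSpace ℝ (Fin 7)) (t : ℝ) (i : Fin 6) :
    xp (y + t • v) i = xp y i + t * xp v i := by
  simp [xp]

theorem sq_xp_line (y v : EuclideanSpace ℝ (Fin 7)) (t : ℝ) :
    sq (xp (y + t • v)) = sq (xp y) + 2 * t * dot (xp y) (xp v) + t ^ 2 * sq (xp v) := by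
  unfold sq dot
  simp only [xp_add_smul]
  rw [Finset.mul_sum, Finset.mul_sum, ← Finset.sum_add_distrib, ← Finset.sum_add_distrib]
  refine Finset.sum_congr rfl fun i _ => ?_
  ring

theorem dot_xp_line (y v : EuclideanSpace ℝ (Fin 7)) (t : ℝ) :
    dot (xp (y + t • v)) (xp v) = dot (xp y) (xp v) + t * sq (xp v) := by
  unfold sq dot
  simp only [xp_add_smul]
  rw [Finset.mul_sum, ← Finset.sum_add_distrib]
  refine Finset.sum_congr rfl fun i _ => ?_
  ring

theorem coord_line (y v : EuclideanSpace ℝ (Fin 7)) (t : ℝ) (i : Fin 7) :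
    (y + t • v) i = y i + t * v i := by
  simp

theorem hasDerivAt_z (a b t : ℝ) : HasDerivAt (fun t : ℝ => a + t * b) b t := by
  have := ((hasDerivAt_id t).mul_const b).const_add a
  simpa using this

theorem hasDerivAt_s (a b c t : ℝ) :
    HasDerivAt (fun t : ℝ => a + 2 * t * b + t ^ 2 * c) (2 * (b + t * c)) t := by
  have h1 := (((hasDerivAt_id t).const_mul 2).mul_const b).const_add a
  have h2 := ((hasDerivAt_id t).pow 2).mul_const c
  refine HasDerivAt.congr_deriv ((h1.add h2).congr_of_eventuallyEq ?_) ?_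
  · refine Filter.Eventually.of_forall fun t => ?_
    simp
  · simp
    ring

theorem hasDerivAt_w (τ₁ ε : ℝ) (y v : EuclideanSpace ℝ (Fin 7)) (t : ℝ) :
    HasDerivAt (fun t : ℝ => w τ₁ ε (y + t • v))
      (D1 τ₁ ((y + t • v) 0) (sq (xp (y + t • v))) (ε * (y + t • v) 6) (v 0)
        (dot (xp (y + t • v)) (xp v)) (ε * v 6)) t := by
  have hz := hasDerivAt_z (y 0) (v 0) t
  have hτ := (hasDerivAt_z (y 6) (v 6) t).const_mul ε
  have hs := hasDerivAt_s (sq (xp y)) (dot (xp y) (xp v)) (sq (xp v)) t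
  unfold w G X D1 Xz Xs X
  simp only [sq_xp_line, dot_xp_line, coord_line]
  generalize sq (xp v) = c at *
  generalize dot (xp y) (xp v) = b at *
  generalize sq (xp y) = s0 at *
  have h1 := (hs.sub_const 1).div_const 2
  have h2 := (hτ.mul (((hz.pow 2).const_mul 6).sub hs)).div_const 2
  have hX1 := (((hz.pow 2).const_mul (108 / 5)).const_add (mu + 35 / 16)).sub (hs.const_mul (11 / 10))
  have hX2 := ((hX1.sub ((hz.pow 4).const_mul 9)).add (((hz.pow 2).const_mul (27 / 5)).mul hs)).sub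
    ((hs.pow 2).const_mul (27 / 80))
  have h3 := ((hτ.pow 2).mul hX2).div_const 2
  have h4 := ((hτ.div_const τ₁).pow 8).div_const 2
  have h5 := ((h1.add h2).add h3).add h4
  refine HasDerivAt.congr_deriv (h5.congr_of_eventuallyEq ?_) ?_
  · refine Filter.Eventually.of_forall fun t => ?_
    simp
  · simp
    ring

theorem hasDerivAt_D1 (τ₁ ε : ℝ) (y v : EuclideanSpace ℝ (Fin 7)) (t : ℝ) :
    HasDerivAt (fun t : ℝ => D1 τ₁ ((y + t • v) 0) (sq (xp (y + t • v))) (ε * (y + t • v) 6) (v 0)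
        (dot (xp (y + t • v)) (xp v)) (ε * v 6))
      (D2 τ₁ ((y + t • v) 0) (sq (xp (y + t • v))) (ε * (y + t • v) 6) (v 0)
        (dot (xp (y + t • v)) (xp v)) (sq (xp v)) (ε * v 6)) t := by
  have hz := hasDerivAt_z (y 0) (v 0) t
  have hτ := (hasDerivAt_z (y 6) (v 6) t).const_mul ε
  have hs := hasDerivAt_s (sq (xp y)) (dot (xp y) (xp v)) (sq (xp v)) t
  have hb := hasDerivAt_z (dot (xp y) (xp v)) (sq (xp v)) t
  unfold D1 D2 Xz Xs Xzz Xzs Xss X
  simp only [sq_xp_line, dot_xp_line, coord_line]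
  generalize sq (xp v) = c at *
  generalize dot (xp y) (xp v) = b at *
  generalize sq (xp y) = s0 at *
  have hXz := ((hz.const_mul (216 / 5)).sub ((hz.pow 3).const_mul 36)).add
    ((hz.const_mul (54 / 5)).mul hs)
  have hXs := (((hz.pow 2).const_mul (27 / 5)).const_add (-11 / 10)).sub (hs.const_mul (27 / 40))
  have hX1 := (((hz.pow 2).const_mul (108 / 5)).const_add (mu + 35 / 16)).sub (hs.const_mul (11 / 10))
  have hX2 := ((hX1.sub ((hz.pow 4).const_mul 9)).add (((hz.pow 2).const_mul (27 / 5)).mul hs)).sub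
    ((hs.pow 2).const_mul (27 / 80))
  have k1 := (((hτ.const_mul 6).mul hz).add (((hτ.pow 2).mul hXz).div_const 2)).mul_const (v 0)
  have k2 := ((hτ.const_sub 1).add ((hτ.pow 2).mul hXs)).mul hb
  have k3 := ((((((hz.pow 2).const_mul 6).sub hs).div_const 2).add (hτ.mul hX2)).add
    (((hτ.pow 7).const_mul 4).div_const (τ₁ ^ 8))).mul_const (ε * v 6)
  have h5 := (k1.add k2).add k3
  refine HasDerivAt.congr_deriv (h5.congr_of_eventuallyEq ?_) ?_
  · refine Filter.Eventually.of_forall fun t => ?_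
    simp
  · simp
    ring

theorem fderiv_w (τ₁ ε : ℝ) (y v : EuclideanSpace ℝ (Fin 7)) :
    fderiv ℝ (w τ₁ ε) y v
      = D1 τ₁ (y 0) (sq (xp y)) (ε * y 6) (v 0) (dot (xp y) (xp v)) (ε * v 6) := by
  have h1 := hasDerivAt_w τ₁ ε y v 0
  have hd : DifferentiableAt ℝ (w τ₁ ε) (y + (0 : ℝ) • v) :=
    (contDiff_w τ₁ ε).contDiffAt.differentiableAt (by simp)
  have hl : HasDerivAt (fun t : ℝ => y + t • v) v 0 := by
    simpa using ((hasDerivAt_id (0 : ℝ)).smul_const v).const_add y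
  have h2 := hd.hasFDerivAt.comp_hasDerivAt (0 : ℝ) hl
  have h3 := h2.unique h1
  simpa using h3

theorem iteratedFDeriv_w (τ₁ ε : ℝ) (y v : EuclideanSpace ℝ (Fin 7)) :
    iteratedFDeriv ℝ 2 (w τ₁ ε) y ![v, v]
      = D2 τ₁ (y 0) (sq (xp y)) (ε * y 6) (v 0) (dot (xp y) (xp v)) (sq (xp v)) (ε * v 6) := by
  rw [iteratedFDeriv_two_apply]
  simp only [Matrix.cons_val_zero, Matrix.cons_val_one]
  have h1 := hasDerivAt_D1 τ₁ ε y v 0
  have hd : DifferentiableAt ℝ (fderiv ℝ (w τ₁ ε)) (y + (0 : ℝ) • v) := by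
    have h := (contDiff_w τ₁ ε).contDiffAt (x := y + (0 : ℝ) • v)
    have h' : ContDiffAt ℝ 1 (fderiv ℝ (w τ₁ ε)) (y + (0 : ℝ) • v) :=
      h.fderiv_right (by simp)
    exact h'.differentiableAt (by simp)
  have hl : HasDerivAt (fun t : ℝ => y + t • v) v 0 := by
    simpa using ((hasDerivAt_id (0 : ℝ)).smul_const v).const_add y
  have h2 := hd.hasFDerivAt.comp_hasDerivAt (0 : ℝ) hl
  have h2' := h2.clm_apply (hasDerivAt_const (0 : ℝ) v)
  have h4 : (fun t : ℝ => D1 τ₁ ((y + t • v) 0) (sq (xp (y + t • v))) (ε * (y + t • v) 6) (v 0)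
        (dot (xp (y + t • v)) (xp v)) (ε * v 6))
      = fun t : ℝ => ((fderiv ℝ (w τ₁ ε) ∘ fun t : ℝ => y + t • v) t) v := by
    funext t
    simp only [Function.comp_apply]
    rw [fderiv_w]
  rw [h4] at h1
  have h3 := h2'.unique h1
  simpa using h3

theorem xp_add (u v : EuclideanSpace ℝ (Fin 7)) : xp (u + v) = fun i => xp u i + xp v i := by
  funext i
  simp [xp]

theorem sq_add (a b : Fin 6 → ℝ) : sq (fun i => a i + b i) = sq a + sq b + 2 * dot a b := by
  unfold sq dot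
  rw [Finset.mul_sum, ← Finset.sum_add_distrib, ← Finset.sum_add_distrib]
  exact Finset.sum_congr rfl fun i _ => by ring

theorem dot_add (x a b : Fin 6 → ℝ) : dot x (fun i => a i + b i) = dot x a + dot x b := by
  unfold dot
  rw [← Finset.sum_add_distrib]
  exact Finset.sum_congr rfl fun i _ => by ring

theorem xp_single_last : xp (EuclideanSpace.single (6 : Fin 7) (1 : ℝ)) = fun _ => 0 := by
  funext k
  have : (k.castSucc : Fin 7) ≠ 6 := (Fin.castSucc_lt_last k).ne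
  simp [xp, this]

theorem xp_single_castSucc (i : Fin 6) :
    xp (EuclideanSpace.single (i.castSucc : Fin 7) (1 : ℝ)) = fun k => if k = i then 1 else 0 := by
  funext k
  simp [xp]

theorem hess_eq_polar {n : ℕ} {f : EuclideanSpace ℝ (Fin n) → ℝ}
    {y : EuclideanSpace ℝ (Fin n)} (hf : ContDiffAt ℝ 2 f y) (i j : Fin n) :
    hess f y i j = (iteratedFDeriv ℝ 2 f y
        ![EuclideanSpace.single i (1 : ℝ) + EuclideanSpace.single j (1 : ℝ),
          EuclideanSpace.single i (1 : ℝ) + EuclideanSpace.single j (1 : ℝ)]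
      - iteratedFDeriv ℝ 2 f y ![EuclideanSpace.single i (1 : ℝ), EuclideanSpace.single i (1 : ℝ)]
      - iteratedFDeriv ℝ 2 f y ![EuclideanSpace.single j (1 : ℝ), EuclideanSpace.single j (1 : ℝ)])
        / 2 := by
  have hsymm : IsSymmSndFDerivAt ℝ f y := hf.isSymmSndFDerivAt (by simp)
  simp only [hess, Matrix.of_apply, iteratedFDeriv_two_apply, Matrix.cons_val_zero,
    Matrix.cons_val_one, map_add, _root_.add_apply]
  rw [hsymm (EuclideanSpace.single j (1 : ℝ)) (EuclideanSpace.single i (1 : ℝ))]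
  ring

/-- the vectors in the definition of `Bm` -/
noncomputable def eV : Fin 7 → ℝ := Fin.snoc (α := fun _ => ℝ) (fun i : Fin 6 => if i = 0 then 1 else 0) 0
noncomputable def xV (x : Fin 6 → ℝ) : Fin 7 → ℝ := Fin.snoc (α := fun _ => ℝ) x 0
noncomputable def lV (ε : ℝ) : Fin 7 → ℝ := Fin.snoc (α := fun _ => ℝ) (fun _ : Fin 6 => 0) ε

theorem eV_last : eV (Fin.last 6) = 0 := by
  simp only [eV, Fin.snoc_last]

theorem xV_last (x : Fin 6 → ℝ) : xV x (Fin.last 6) = 0 := by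
  simp only [xV, Fin.snoc_last]

theorem lV_last (ε : ℝ) : lV ε (Fin.last 6) = ε := by
  simp only [lV, Fin.snoc_last]

theorem eV_eq (i : Fin 7) : (EuclideanSpace.single i (1 : ℝ) : EuclideanSpace ℝ (Fin 7)) 0 = eV i := by
  refine Fin.lastCases ?_ (fun i => ?_) i
  · rw [eV_last, PiLp.single_apply]
    have : (0 : Fin 7) ≠ Fin.last 6 := by decide
    rw [if_neg this]
  · simp only [eV, Fin.snoc_castSucc, PiLp.single_apply]
    congr 1
    rw [eq_iff_iff]
    constructor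
    · intro h
      exact (Fin.castSucc_injective _ (h.symm.trans rfl))
    · intro h
      rw [h]
      rfl

theorem lV_eq (ε : ℝ) (i : Fin 7) :
    ε * (EuclideanSpace.single i (1 : ℝ) : EuclideanSpace ℝ (Fin 7)) 6 = lV ε i := by
  refine Fin.lastCases ?_ (fun i => ?_) i
  · rw [lV_last, PiLp.single_apply]
    have : (6 : Fin 7) = Fin.last 6 := rfl
    rw [if_pos this, mul_one]
  · have : (6 : Fin 7) ≠ i.castSucc := (Fin.castSucc_lt_last i).ne'
    simp [lV, this]

theorem dot_eq (x : Fin 6 → ℝ) (i : Fin 7) :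
    dot x (xp (EuclideanSpace.single i (1 : ℝ))) = xV x i := by
  refine Fin.lastCases ?_ (fun i => ?_) i
  · have := xp_single_last
    simp only [xV, Fin.snoc_last]
    change dot x (xp (EuclideanSpace.single (6 : Fin 7) (1 : ℝ))) = 0
    rw [this]
    simp [dot]
  · rw [xp_single_castSucc]
    simp [dot, xV]

theorem dot_single (i j : Fin 7) :
    xV (xp (EuclideanSpace.single i (1 : ℝ))) j
      = if i = j ∧ i ≠ 6 then 1 else 0 := by
  revert i j
  refine Fin.lastCases ?_ (fun i => ?_)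
  · intro j
    change xV (xp (EuclideanSpace.single (6 : Fin 7) (1 : ℝ))) j = _
    rw [xp_single_last]
    have h1 : ¬ ((Fin.last 6 : Fin 7) = j ∧ (Fin.last 6 : Fin 7) ≠ 6) := by
      rintro ⟨_, h⟩
      exact h rfl
    rw [if_neg h1]
    refine Fin.lastCases ?_ (fun j => ?_) j
    · rw [xV_last]
    · simp only [xV, Fin.snoc_castSucc]
  · refine Fin.lastCases ?_ (fun j => ?_)
    · have h1 : ¬ ((i.castSucc : Fin 7) = Fin.last 6 ∧ (i.castSucc : Fin 7) ≠ 6) := by
        rintro ⟨h, _⟩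
        exact (Fin.castSucc_lt_last i).ne h
      rw [if_neg h1, xV_last]
    · rw [xp_single_castSucc]
      have h6 : (i.castSucc : Fin 7) ≠ 6 := (Fin.castSucc_lt_last i).ne
      simp only [xV, Fin.snoc_castSucc]
      by_cases h : j = i
      · subst h
        simp [h6]
      · have h' : ¬ ((i.castSucc : Fin 7) = j.castSucc ∧ (i.castSucc : Fin 7) ≠ 6) := by
          rintro ⟨h1, _⟩
          exact h (Fin.castSucc_injective _ h1).symm
        rw [if_neg h, if_neg h']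

theorem sq_eq_dot (a : Fin 6 → ℝ) : sq a = dot a a := by
  unfold sq dot
  exact Finset.sum_congr rfl fun i _ => by ring

theorem hess_w (τ₁ ε : ℝ) (y : EuclideanSpace ℝ (Fin 7)) :
    hess (w τ₁ ε) y = Bm τ₁ ε (ε * y 6) (xp y) := by
  ext i j
  rw [hess_eq_polar ((contDiff_w τ₁ ε).contDiffAt.of_le (by simp))]
  have hs : ∀ i : Fin 7, sq (xp (EuclideanSpace.single i (1 : ℝ)))
      = if i = i ∧ i ≠ 6 then 1 else 0 := by
    intro i
    rw [sq_eq_dot, dot_eq, dot_single]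
  simp only [iteratedFDeriv_w, xp_add, sq_add, dot_add, dot_eq, dot_single, hs]
  have hz : (xp y) 0 = y 0 := rfl
  simp only [PiLp.add_apply, mul_add, eV_eq, lV_eq]
  simp only [Bm, Matrix.of_apply, hz]
  change _ = (6 * (ε * y 6) + (ε * y 6) ^ 2 * Xzz (y 0) (sq (xp y)) / 2) * (eV i * eV j)
    + (ε * y 6) ^ 2 * Xzs (y 0) * (eV i * xV (xp y) j + xV (xp y) i * eV j)
      + 2 * (ε * y 6) ^ 2 * Xss * (xV (xp y) i * xV (xp y) j)
      + (1 - (ε * y 6) + (ε * y 6) ^ 2 * Xs (y 0) (sq (xp y))) * (if i = j ∧ i ≠ 6 then 1 else 0)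
      + (6 * y 0 + (ε * y 6) * Xz (y 0) (sq (xp y))) * (eV i * lV ε j + lV ε i * eV j)
      + 2 * (-1 / 2 + (ε * y 6) * Xs (y 0) (sq (xp y))) * (xV (xp y) i * lV ε j + lV ε i * xV (xp y) j)
      + (X (y 0) (sq (xp y)) + 28 * (ε * y 6) ^ 6 / τ₁ ^ 8) * (lV ε i * lV ε j)
  generalize (if i = j ∧ i ≠ 6 then (1 : ℝ) else 0) = d
  generalize (if i = i ∧ i ≠ 6 then (1 : ℝ) else 0) = d1
  generalize (if j = j ∧ j ≠ 6 then (1 : ℝ) else 0) = d2
  unfold D2
  ring

end Pool.Agent.Work.MP_d9fde0_an
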