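import Mathlib
import Pool.Agent.Work.MP_d9fde0_an.Defs
import Pool.Agent.Work.MP_d9fde0_an.Fn
import Pool.Agent.Work.MP_d9fde0_an.HessW
import Pool.Agent.Work.MP_d9fde0_an.LinAlg

/-!
# The symmetric functions of the matrix `Bm`
-/

namespace Pool.Agent.Work.MP_d9fde0_an

open Matrix Polynomial

theorem Bm_eq (τ₁ ε τ : ℝ) (x : Fin 6 → ℝ) (i j : Fin 7) :
    Bm τ₁ ε τ x i j = (6 * τ + τ ^ 2 * Xzz (x 0) (sq x) / 2) * (eV i * eV j)
    + τ ^ 2 * Xzs (x 0) * (eV i * xV x j + xV x i * eV j)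
      + 2 * τ ^ 2 * Xss * (xV x i * xV x j)
      + (1 - τ + τ ^ 2 * Xs (x 0) (sq x)) * (if i = j ∧ i ≠ 6 then 1 else 0)
      + (6 * x 0 + τ * Xz (x 0) (sq x)) * (eV i * lV ε j + lV ε i * eV j)
      + 2 * (-1 / 2 + τ * Xs (x 0) (sq x)) * (xV x i * lV ε j + lV ε i * xV x j)
      + (X (x 0) (sq x) + 28 * τ ^ 6 / τ₁ ^ 8) * (lV ε i * lV ε j) := rfl

/-- the upper left block -/
noncomputable def Um (a p q r : ℝ) (x : Fin 6 → ℝ) : Matrix (Fin 6) (Fin 6) ℝ :=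
  Matrix.of fun i j => a * (if i = j then 1 else 0)
    + p * ((if i = 0 then 1 else 0) * (if j = 0 then 1 else 0))
    + q * ((if i = 0 then 1 else 0) * x j + x i * (if j = 0 then 1 else 0)) + r * (x i * x j)

theorem det_Um (a p q r : ℝ) (x : Fin 6 → ℝ) :
    (Um a p q r x).det = a ^ 4 * (a ^ 2 + a * (p + 2 * q * x 0 + r * sq x)
      + (p * r - q ^ 2) * (sq x - x 0 ^ 2)) := by
  let A : Matrix (Fin 6) (Fin 2) ℝ := Matrix.of fun i k => ![-(if i = 0 then 1 else 0), -x i] k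
  let B : Matrix (Fin 2) (Fin 6) ℝ := Matrix.of fun k j =>
    ![p * (if j = 0 then 1 else 0) + q * x j, q * (if j = 0 then 1 else 0) + r * x j] k
  have h1 : Um a p q r x = Matrix.scalar (Fin 6) a - A * B := by
    ext i j
    simp only [Um, Matrix.of_apply, Matrix.sub_apply, Matrix.scalar_apply, Matrix.diagonal_apply,
      Matrix.mul_apply, Fin.sum_univ_two, A, B, Matrix.cons_val_zero, Matrix.cons_val_one]
    generalize (if j = 0 then (1 : ℝ) else 0) = d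
    generalize (if i = 0 then (1 : ℝ) else 0) = e
    by_cases h : i = j
    · rw [if_pos h, if_pos h]
      ring
    · rw [if_neg h, if_neg h]
      ring
  rw [h1, ← Matrix.eval_charpoly, Matrix.charpoly_mul_comm_of_le A B (by simp),
    Matrix.charpoly_fin_two]
  have e00 : (B * A) 0 0 = -(p + q * x 0) := by
    simp [Matrix.mul_apply, A, B]
  have e01 : (B * A) 0 1 = -(p * x 0 + q * sq x) := by
    simp only [Matrix.mul_apply, A, B, Matrix.of_apply, Matrix.cons_val_zero, Matrix.cons_val_one]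
    rw [show -(p * x 0 + q * sq x) = ∑ j : Fin 6, (-(p * ((if j = 0 then 1 else 0) * x j))
      - q * x j ^ 2) by
        rw [Finset.sum_sub_distrib, ← Finset.mul_sum, Finset.sum_neg_distrib, ← Finset.mul_sum]
        simp [sq]
        ring]
    exact Finset.sum_congr rfl fun j _ => by ring
  have e10 : (B * A) 1 0 = -(q + r * x 0) := by
    simp [Matrix.mul_apply, A, B]
  have e11 : (B * A) 1 1 = -(q * x 0 + r * sq x) := by
    simp only [Matrix.mul_apply, A, B, Matrix.of_apply, Matrix.cons_val_one, Matrix.cons_val_zero]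
    rw [show -(q * x 0 + r * sq x) = ∑ j : Fin 6, (-(q * ((if j = 0 then 1 else 0) * x j))
      - r * x j ^ 2) by
        rw [Finset.sum_sub_distrib, ← Finset.mul_sum, Finset.sum_neg_distrib, ← Finset.mul_sum]
        simp [sq]
        ring]
    exact Finset.sum_congr rfl fun j _ => by ring
  simp only [Matrix.trace_fin_two, Matrix.det_fin_two, e00, e01, e10, e11, Fintype.card_fin,
    Polynomial.eval_mul, Polynomial.eval_pow, Polynomial.eval_X, Polynomial.eval_add,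
    Polynomial.eval_sub, Polynomial.eval_C]
  rw [show (6 - 2 : ℕ) = 4 from rfl]
  ring

theorem charpoly_neg_Bm_zero (τ₁ τ : ℝ) (x : Fin 6 → ℝ) :
    (-(Bm τ₁ 0 τ x)).charpoly = (-(Um (1 - τ + τ ^ 2 * Xs (x 0) (sq x))
      (6 * τ + τ ^ 2 * Xzz (x 0) (sq x) / 2) (τ ^ 2 * Xzs (x 0)) (2 * τ ^ 2 * Xss) x)).charpoly
        * Polynomial.X := by
  have h : -(Bm τ₁ 0 τ x) = Matrix.reindex (finSumFinEquiv (m := 6) (n := 1))
      (finSumFinEquiv (m := 6) (n := 1)) (Matrix.fromBlocks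
      (-(Um (1 - τ + τ ^ 2 * Xs (x 0) (sq x))
      (6 * τ + τ ^ 2 * Xzz (x 0) (sq x) / 2) (τ ^ 2 * Xzs (x 0)) (2 * τ ^ 2 * Xss) x))
      (0 : Matrix (Fin 6) (Fin 1) ℝ) (0 : Matrix (Fin 1) (Fin 6) ℝ)
      (0 : Matrix (Fin 1) (Fin 1) ℝ)) := by
    rw [← Equiv.symm_apply_eq]
    ext i j
    rcases i with i | i <;> rcases j with j | j
    · change -(Bm τ₁ 0 τ x i.castSucc j.castSucc) = _
      rw [Bm_eq]
      have h6 : (i.castSucc : Fin 7) ≠ 6 := (Fin.castSucc_lt_last i).ne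
      simp [Um, eV, xV, lV, h6]
      ring
    · have hj : j = 0 := Subsingleton.elim _ _
      subst hj
      change -(Bm τ₁ 0 τ x i.castSucc (Fin.last 6)) = _
      rw [Bm_eq]
      have h6 : (i.castSucc : Fin 7) ≠ Fin.last 6 := (Fin.castSucc_lt_last i).ne
      simp only [eV_last, xV_last, lV_last, h6]
      simp [lV]
    · have hi : i = 0 := Subsingleton.elim _ _
      subst hi
      change -(Bm τ₁ 0 τ x (Fin.last 6) j.castSucc) = _
      rw [Bm_eq]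
      have h6 : ¬ (Fin.last 6 = (j.castSucc : Fin 7)) := (Fin.castSucc_lt_last j).ne'
      simp only [eV_last, xV_last, lV_last, h6]
      simp [lV]
    · have hi : i = 0 := Subsingleton.elim _ _
      have hj : j = 0 := Subsingleton.elim _ _
      subst hi
      subst hj
      change -(Bm τ₁ 0 τ x (Fin.last 6) (Fin.last 6)) = _
      rw [Bm_eq]
      have h6 : ¬ (Fin.last 6 = Fin.last 6 ∧ Fin.last 6 ≠ (6 : Fin 7)) := by
        rintro ⟨_, h⟩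
        exact h rfl
      rw [if_neg h6]
      simp only [eV_last, xV_last, lV_last]
      simp
  rw [h, Matrix.charpoly_reindex, Matrix.charpoly_fromBlocks_zero₁₂]
  congr 1
  simp [Matrix.charpoly, Matrix.charmatrix]

theorem S6_Bm_zero (τ₁ τ : ℝ) (x : Fin 6 → ℝ) :
    S 6 (Bm τ₁ 0 τ x) =
      let a := 1 - τ + τ ^ 2 * Xs (x 0) (sq x)
      let p := 6 * τ + τ ^ 2 * Xzz (x 0) (sq x) / 2
      let q := τ ^ 2 * Xzs (x 0) / 2
      let r := τ ^ 2 * Xss / 2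
      a ^ 4 * (a ^ 2 + a * (p + 4 * x 0 * q + 4 * sq x * r)
        + 4 * (p * r - q ^ 2) * (sq x - x 0 ^ 2)) := by
  dsimp only
  rw [S, charpoly_neg_Bm_zero]
  generalize 1 - τ + τ ^ 2 * Xs (x 0) (sq x) = a
  generalize 6 * τ + τ ^ 2 * Xzz (x 0) (sq x) / 2 = p
  change ((_ : ℝ[X]) * Polynomial.X).coeff (0 + 1) = _
  rw [Polynomial.coeff_mul_X]
  have h1 := Matrix.det_eq_sign_charpoly_coeff (-(Um a p (τ ^ 2 * Xzs (x 0)) (2 * τ ^ 2 * Xss) x))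
  rw [Matrix.det_neg, det_Um] at h1
  simp only [Fintype.card_fin] at h1
  norm_num at h1
  rw [← h1]
  ring

/-- the remainder polynomial -/
noncomputable def Er (τ : ℝ) (x : Fin 6 → ℝ) : ℝ :=
  let al := Xs (x 0) (sq x)
  let u := -1 + τ * al
  let c := 6 + τ * (15 - 6 * al)
  5 * (6 * al - 15) + 5 * τ * al * (15 - 3 * al)
    + (20 * u ^ 3 + 15 * τ * u ^ 4 + 6 * τ ^ 2 * u ^ 5 + τ ^ 3 * u ^ 6)
    + (10 * u ^ 2 + 10 * τ * u ^ 3 + 5 * τ ^ 2 * u ^ 4 + τ ^ 3 * u ^ 5) * c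
    + (1 + τ * u) ^ 4 * (4 * ((6 + τ * Xzz (x 0) (sq x) / 2) * Xss / 2 - τ * (Xzs (x 0) / 2) ^ 2)
      * (sq x - x 0 ^ 2))

theorem S6_Bm_zero_eq (τ₁ τ : ℝ) (x : Fin 6 → ℝ) :
    S 6 (Bm τ₁ 0 τ x) - 1 = τ ^ 3 * Er τ x := by
  rw [S6_Bm_zero]
  unfold Er
  dsimp only
  have h : Xzz (x 0) (sq x) / 2 = 15 - 6 * Xs (x 0) (sq x) - 2 * x 0 * Xzs (x 0) - 2 * sq x * Xss := by
    unfold Xzz Xs Xzs Xss
    ring
  have h1 : τ ^ 2 * Xzz (x 0) (sq x) / 2 = τ ^ 2 * (Xzz (x 0) (sq x) / 2) := by ring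
  have h2 : τ * Xzz (x 0) (sq x) / 2 = τ * (Xzz (x 0) (sq x) / 2) := by ring
  rw [h1, h2, h]
  generalize Xs (x 0) (sq x) = al
  generalize Xzs (x 0) = q
  generalize Xss = r
  generalize x 0 = z
  generalize sq x = s
  ring

theorem continuous_sq : Continuous sq := by
  unfold sq
  fun_prop

theorem continuous_Er : Continuous fun p : ℝ × (Fin 6 → ℝ) => Er p.1 p.2 := by
  have h := continuous_sq
  unfold Er Xzz Xs Xzs Xss
  fun_prop

theorem eV_const (i : Fin 7) : Continuous fun _ : ℝ × (Fin 6 → ℝ) => eV i := continuous_const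

theorem continuous_xV (i : Fin 7) : Continuous fun x : Fin 6 → ℝ => xV x i := by
  refine Fin.lastCases ?_ (fun i => ?_) i
  · simp only [xV_last]
    exact continuous_const
  · simp only [xV, Fin.snoc_castSucc]
    exact continuous_apply i

theorem continuous_lV (i : Fin 7) : Continuous fun ε : ℝ => lV ε i := by
  refine Fin.lastCases ?_ (fun i => ?_) i
  · simp only [lV_last]
    exact continuous_id
  · simp only [lV, Fin.snoc_castSucc]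
    exact continuous_const

theorem continuous_Bm (τ₁ : ℝ) :
    Continuous fun p : ℝ × ℝ × (Fin 6 → ℝ) => Bm τ₁ p.1 p.2.1 p.2.2 := by
  refine continuous_matrix fun i j => ?_
  simp only [Bm_eq]
  have h := continuous_sq
  have h1 := continuous_xV i
  have h2 := continuous_xV j
  have h3 := continuous_lV i
  have h4 := continuous_lV j
  unfold Xzz Xzs Xss Xs Xz X
  fun_prop

/-- uniformity near a compact slice -/
theorem unif_slice {Y : Type*} [TopologicalSpace Y] {f : ℝ × Y → ℝ} (hf : Continuous f)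
    {K : Set Y} (hK : IsCompact K) {δ : ℝ} (hδ : 0 < δ) :
    ∃ ε₀ > (0 : ℝ), ∀ ε, |ε| ≤ ε₀ → ∀ y ∈ K, |f (ε, y) - f (0, y)| < δ := by
  have hopen : IsOpen {p : ℝ × Y | |f p - f (0, p.2)| < δ} := by
    refine isOpen_lt ?_ continuous_const
    have : Continuous fun p : ℝ × Y => f (0, p.2) := hf.comp (by fun_prop)
    exact (hf.sub this).abs
  obtain ⟨u, v, hu, hv, h0, hKv, huv⟩ := generalized_tube_lemma (isCompact_singleton (x := (0 : ℝ)))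
    hK hopen (by
      rintro ⟨a, y⟩ ⟨ha, hy⟩
      simp only [Set.mem_singleton_iff] at ha
      subst ha
      simpa using hδ)
  have h0u : (0 : ℝ) ∈ u := h0 rfl
  obtain ⟨r, hr, hball⟩ := Metric.isOpen_iff.1 hu 0 h0u
  refine ⟨r / 2, by positivity, fun ε hε y hy => ?_⟩
  have h1 : ε ∈ u := hball (by
    rw [Metric.mem_ball, Real.dist_eq, sub_zero]
    linarith)
  exact huv (Set.mk_mem_prod h1 (hKv hy))

theorem Bm_zero_indep (τ₁ τ : ℝ) (x : Fin 6 → ℝ) : Bm τ₁ 0 τ x = Bm 1 0 τ x := by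
  ext i j
  rw [Bm_eq, Bm_eq]
  have : ∀ i, lV 0 i = 0 := by
    intro i
    refine Fin.lastCases ?_ (fun i => ?_) i
    · rw [lV_last]
    · simp only [lV, Fin.snoc_castSucc]
  simp only [this]
  ring

theorem Um_one (x : Fin 6 → ℝ) : Um 1 0 0 0 x = 1 := by
  ext i j
  simp [Um, Matrix.one_apply]

theorem S_Bm_zero_zero (τ₁ : ℝ) (x : Fin 6 → ℝ) {j : ℕ} (h1 : 1 ≤ j) (h6 : j ≤ 6) :
    1 ≤ S j (Bm τ₁ 0 0 x) := by
  rw [S, charpoly_neg_Bm_zero]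
  have e : Um (1 - 0 + 0 ^ 2 * Xs (x 0) (sq x)) (6 * 0 + 0 ^ 2 * Xzz (x 0) (sq x) / 2)
      (0 ^ 2 * Xzs (x 0)) (2 * 0 ^ 2 * Xss) x = 1 := by
    rw [← Um_one x]
    congr 1 <;> simp
  rw [e]
  have h2 : (-(1 : Matrix (Fin 6) (Fin 6) ℝ)).charpoly = (Polynomial.X + 1) ^ 6 := by
    have : (-(1 : Matrix (Fin 6) (Fin 6) ℝ)) = Matrix.diagonal fun _ => (-1 : ℝ) := by
      ext i j
      simp [Matrix.one_apply, Matrix.diagonal_apply]
      split_ifs <;> simp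
    rw [this, Matrix.charpoly_diagonal]
    simp
  rw [h2, show 7 - j = (6 - j) + 1 by omega, Polynomial.coeff_mul_X,
    Polynomial.coeff_X_add_one_pow]
  have : 0 < (6 : ℕ).choose (6 - j) := Nat.choose_pos (by omega)
  exact_mod_cast this

theorem continuous_S_comp {Y : Type*} [TopologicalSpace Y] {B : Y → Matrix (Fin 7) (Fin 7) ℝ}
    (hB : Continuous B) (j : ℕ) : Continuous fun y => S j (B y) :=
  (continuous_S (n := 7)).comp hB

theorem continuous_SB (τ₁ : ℝ) (j : ℕ) :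
    Continuous fun p : ℝ × ℝ × (Fin 6 → ℝ) => S j (Bm τ₁ p.1 p.2.1 p.2.2) :=
  continuous_S_comp (B := fun p : ℝ × ℝ × (Fin 6 → ℝ) => Bm τ₁ p.1 p.2.1 p.2.2)
    (continuous_Bm τ₁) j

theorem mem_ball_of_sq {x : Fin 6 → ℝ} (h : sq x ≤ 2) : x ∈ Metric.closedBall (0 : Fin 6 → ℝ) 2 := by
  rw [mem_closedBall_zero_iff, pi_norm_le_iff_of_nonneg (by norm_num)]
  intro i
  have h1 : x i ^ 2 ≤ sq x := by
    unfold sq
    exact Finset.single_le_sum (f := fun i => x i ^ 2) (fun j _ => sq_nonneg _) (Finset.mem_univ i)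
  rw [Real.norm_eq_abs]
  exact abs_le_of_sq_le_sq (by linarith) (by norm_num)

theorem S_bounds : ∃ C > (0 : ℝ), ∃ τ₀ > (0 : ℝ), ∀ τ₁, 0 < τ₁ → τ₁ ≤ τ₀ → ∃ ε₀ > (0 : ℝ),
    ∀ ε, 0 < ε → ε ≤ ε₀ → ∀ (x : Fin 6 → ℝ) (τ : ℝ), sq x ≤ 1 + mu / 40 → |τ| ≤ 2 * τ₁ →
      |S 6 (Bm τ₁ ε τ x) - 1| ≤ C * τ₁ ^ 3 ∧ ∀ j, 1 ≤ j → j ≤ 6 → 0 < S j (Bm τ₁ ε τ x) := by
  -- bound on the remainder
  have hK : IsCompact (Metric.closedBall (0 : Fin 6 → ℝ) 2) := isCompact_closedBall _ _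
  have hI : IsCompact (Set.Icc (-1 : ℝ) 1) := isCompact_Icc
  obtain ⟨C, hC⟩ := (hI.prod hK).exists_bound_of_continuousOn continuous_Er.continuousOn
  have hC0 : 0 ≤ C := le_trans (norm_nonneg _) (hC (0, 0) ⟨by norm_num, by simp⟩)
  -- positivity near `τ = 0`
  have hτ : ∀ j : ℕ, ∃ τ₂ > (0 : ℝ), 1 ≤ j → j ≤ 6 → ∀ τ, |τ| ≤ τ₂ → ∀ x ∈ Metric.closedBall
      (0 : Fin 6 → ℝ) 2, 1 / 2 < S j (Bm 1 0 τ x) := by
    intro j
    have hg : Continuous fun p : ℝ × (Fin 6 → ℝ) => ((0 : ℝ), p.1, p.2) := by fun_prop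
    have hf : Continuous fun p : ℝ × (Fin 6 → ℝ) => S j (Bm 1 0 p.1 p.2) := by
      have := (continuous_SB 1 j).comp hg
      simpa only [Function.comp_def] using this
    obtain ⟨r, hr, h⟩ := unif_slice hf hK (δ := 1 / 2) (by norm_num)
    refine ⟨r, hr, fun h1 h6 τ hτ x hx => ?_⟩
    have h2 := h τ hτ x hx
    have h3 := S_Bm_zero_zero 1 x h1 h6
    have h4 := abs_lt.1 h2
    simp only at h4
    linarith [h4.1]
  choose T hT0 hT using hτ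
  -- the minimum of the finitely many
  obtain ⟨τ₂, hτ₂, hmin⟩ : ∃ τ₂ > (0 : ℝ), ∀ j, 1 ≤ j → j ≤ 6 → τ₂ ≤ T j := by
    refine ⟨(Finset.Icc 1 6).inf' (by simp) T, ?_, ?_⟩
    · rw [gt_iff_lt, Finset.lt_inf'_iff]
      exact fun j _ => hT0 j
    · intro j h1 h6
      exact Finset.inf'_le _ (Finset.mem_Icc.2 ⟨h1, h6⟩)
  refine ⟨8 * C + 1, by positivity, min (1 / 2) (τ₂ / 2), by positivity, fun τ₁ hτ₁ hle => ?_⟩
  have hle1 : τ₁ ≤ 1 / 2 := le_trans hle (min_le_left _ _)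
  have hle2 : τ₁ ≤ τ₂ / 2 := le_trans hle (min_le_right _ _)
  have hK2 : IsCompact (Set.Icc (-(2 * τ₁)) (2 * τ₁) ×ˢ Metric.closedBall (0 : Fin 6 → ℝ) 2) :=
    isCompact_Icc.prod hK
  have hε : ∀ j : ℕ, ∃ ε₀ > (0 : ℝ), ∀ ε, |ε| ≤ ε₀ → ∀ y ∈ Set.Icc (-(2 * τ₁)) (2 * τ₁) ×ˢ
      Metric.closedBall (0 : Fin 6 → ℝ) 2,
      |S j (Bm τ₁ ε y.1 y.2) - S j (Bm τ₁ 0 y.1 y.2)| < min (1 / 2) (τ₁ ^ 3) := by
    intro j
    have hf : Continuous fun p : ℝ × ℝ × (Fin 6 → ℝ) => S j (Bm τ₁ p.1 p.2.1 p.2.2) :=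
      continuous_SB τ₁ j
    obtain ⟨r, hr, h⟩ := unif_slice hf hK2 (δ := min (1 / 2) (τ₁ ^ 3)) (by positivity)
    exact ⟨r, hr, fun ε hε y hy => h ε hε y hy⟩
  choose E hE0 hE using hε
  refine ⟨(Finset.Icc 1 6).inf' (by simp) E, ?_, fun ε hε0 hε x τ hx hτ => ?_⟩
  · rw [gt_iff_lt, Finset.lt_inf'_iff]
    exact fun j _ => hE0 j
  have hεj : ∀ j, 1 ≤ j → j ≤ 6 → |ε| ≤ E j := by
    intro j h1 h6
    rw [abs_of_pos hε0]
    exact le_trans hε (Finset.inf'_le _ (Finset.mem_Icc.2 ⟨h1, h6⟩))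
  have hxK : x ∈ Metric.closedBall (0 : Fin 6 → ℝ) 2 := by
    refine mem_ball_of_sq (le_trans hx ?_)
    unfold mu
    norm_num
  have hτI : τ ∈ Set.Icc (-(2 * τ₁)) (2 * τ₁) := abs_le.1 hτ
  have hyK : ((τ, x) : ℝ × (Fin 6 → ℝ)) ∈ Set.Icc (-(2 * τ₁)) (2 * τ₁) ×ˢ
      Metric.closedBall (0 : Fin 6 → ℝ) 2 := ⟨hτI, hxK⟩
  constructor
  · have h1 := hE 6 ε (hεj 6 (by norm_num) le_rfl) (τ, x) hyK
    have h1' : |S 6 (Bm τ₁ ε τ x) - S 6 (Bm τ₁ 0 τ x)| < τ₁ ^ 3 := lt_of_lt_of_le h1 (min_le_right _ _)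
    have h2 : |S 6 (Bm τ₁ 0 τ x) - 1| ≤ 8 * C * τ₁ ^ 3 := by
      rw [S6_Bm_zero_eq, abs_mul, abs_pow]
      have h3 : |Er τ x| ≤ C := hC (τ, x) ⟨abs_le.1 (by linarith), hxK⟩
      have h4 : |τ| ^ 3 ≤ (2 * τ₁) ^ 3 := pow_le_pow_left₀ (abs_nonneg _) hτ 3
      calc |τ| ^ 3 * |Er τ x| ≤ (2 * τ₁) ^ 3 * C := mul_le_mul h4 h3 (abs_nonneg _) (by positivity)
        _ = 8 * C * τ₁ ^ 3 := by ring
    calc |S 6 (Bm τ₁ ε τ x) - 1|
        = |(S 6 (Bm τ₁ ε τ x) - S 6 (Bm τ₁ 0 τ x)) + (S 6 (Bm τ₁ 0 τ x) - 1)| := by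
          rw [sub_add_sub_cancel]
      _ ≤ |S 6 (Bm τ₁ ε τ x) - S 6 (Bm τ₁ 0 τ x)| + |S 6 (Bm τ₁ 0 τ x) - 1| := abs_add_le _ _
      _ ≤ (8 * C + 1) * τ₁ ^ 3 := by linarith
  · intro j h1 h6
    have h2 := hE j ε (hεj j h1 h6) (τ, x) hyK
    have h2' : |S j (Bm τ₁ ε τ x) - S j (Bm τ₁ 0 τ x)| < 1 / 2 := lt_of_lt_of_le h2 (min_le_left _ _)
    have h3 := hT j h1 h6 τ (by linarith [hmin j h1 h6]) x hxK
    rw [← Bm_zero_indep τ₁] at h3
    have h4 := (abs_lt.1 h2').1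
    linarith

end Pool.Agent.Work.MP_d9fde0_an
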