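import Mathlib
import Pool.Agent.Work.MP_d9fde0_an.Fn

/-!
# Quasiconvexity of the explicit function
-/

namespace Pool.Agent.Work.MP_d9fde0_an

/-- `D1` with `4 τ⁷ / τ₁⁸` replaced by `β`. -/
noncomputable def D1b (z s τ β α b ζ : ℝ) : ℝ :=
  (6 * τ * z + τ ^ 2 * Xz z s / 2) * α + (1 - τ + τ ^ 2 * Xs z s) * b
    + ((6 * z ^ 2 - s) / 2 + τ * X z s + β) * ζ

/-- `D2` with `28 τ⁶ / τ₁⁸` replaced by `γ`. -/
noncomputable def D2g (z s τ γ α b c ζ : ℝ) : ℝ :=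
  (6 * τ + τ ^ 2 * Xzz z s / 2) * α ^ 2 + 2 * τ ^ 2 * Xzs z * α * b + 2 * τ ^ 2 * Xss * b ^ 2
    + (1 - τ + τ ^ 2 * Xs z s) * c + 2 * (6 * z + τ * Xz z s) * α * ζ
    + 4 * (-1 / 2 + τ * Xs z s) * b * ζ + (X z s + γ) * ζ ^ 2

theorem D1_eq (τ₁ z s τ α b ζ : ℝ) :
    D1 τ₁ z s τ α b ζ = D1b z s τ (4 * τ ^ 7 / τ₁ ^ 8) α b ζ := rfl

theorem D2_eq (τ₁ z s τ α b c ζ : ℝ) :
    D2 τ₁ z s τ α b c ζ = D2g z s τ (28 * τ ^ 6 / τ₁ ^ 8) α b c ζ := rfl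

theorem sq_nonneg' (x : Fin 6 → ℝ) : 0 ≤ sq x := Finset.sum_nonneg fun _ _ => sq_nonneg _

theorem sq_pos {x : Fin 6 → ℝ} (hx : x ≠ 0) : 0 < sq x := by
  obtain ⟨i, hi⟩ := Function.ne_iff.1 hx
  exact Finset.sum_pos' (fun _ _ => sq_nonneg _) ⟨i, Finset.mem_univ _, by
    have : x i ≠ 0 := hi
    positivity⟩

theorem coord_sq_le (x : Fin 6 → ℝ) (i : Fin 6) : x i ^ 2 ≤ sq x :=
  Finset.single_le_sum (f := fun i => x i ^ 2) (fun _ _ => sq_nonneg _) (Finset.mem_univ i)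

theorem dot_sq_le (x ξ : Fin 6 → ℝ) : dot x ξ ^ 2 ≤ sq x * sq ξ :=
  Finset.sum_mul_sq_le_sq_mul_sq Finset.univ x ξ

/-- the polynomial inequality behind quasiconvexity -/
theorem poly_pos {z s : ℝ} (hzs : z ^ 2 ≤ s) (h0 : 0 < s) (hx : s ≤ 1 + mu / 40) :
    0 < (6 * z ^ 2 - s) ^ 2 / 4 + s * (X z s - (24 * z ^ 2 + s)) := by
  have hmu : mu = 1 / 1000 := rfl
  have hid : (6 * z ^ 2 - s) ^ 2 / 4 + s * (X z s - (24 * z ^ 2 + s))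
      = s * mu + (1 - s) / 4 * (36 * (z ^ 2) ^ 2 - 108 / 5 * z ^ 2 * s + 27 / 20 * s ^ 2
        + 35 / 4 * s) := by
    simp only [X]; ring
  rw [hid]
  rw [hmu] at hx ⊢
  set P := 36 * (z ^ 2) ^ 2 - 108 / 5 * z ^ 2 * s + 27 / 20 * s ^ 2 + 35 / 4 * s with hP
  have hpos : 0 < P := by
    nlinarith [sq_nonneg (6 * z ^ 2 - 9 / 5 * s)]
  rcases le_or_gt s 1 with h6 | h6
  · have h7 : 0 ≤ (1 - s) / 4 * P := mul_nonneg (by linarith) hpos.le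
    have : 0 < s * (1 / 1000) := by positivity
    linarith
  · have hub : P ≤ 50 := by
      have hz2 : 0 ≤ z ^ 2 := sq_nonneg z
      have h8 : (z ^ 2) ^ 2 ≤ s ^ 2 := by nlinarith
      have h9 : 0 ≤ z ^ 2 * s := by positivity
      have h10 : s ^ 2 ≤ 101 / 100 := by nlinarith
      rw [hP]
      linarith
    have h7 : 0 ≤ (s - 1) * (50 - P) := mul_nonneg (by linarith) (by linarith)
    nlinarith

/-- the degenerate case `τ = β = 0` -/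
theorem base_pos (x ξ : Fin 6 → ℝ) (ζ : ℝ) (hx : sq x ≤ 1 + mu / 40) (hne : ξ ≠ 0 ∨ ζ ≠ 0)
    (h1 : D1b (x 0) (sq x) 0 0 (ξ 0) (dot x ξ) ζ = 0) :
    0 < D2g (x 0) (sq x) 0 0 (ξ 0) (dot x ξ) (sq ξ) ζ := by
  set z := x 0 with hz
  set s := sq x with hs
  have hs0 : 0 ≤ s := sq_nonneg' x
  have hzs : z ^ 2 ≤ s := coord_sq_le x 0
  have hmu : mu = 1 / 1000 := rfl
  -- the vector `η = ξ + ζ A x`, `A x = 6 z e₀ - x`
  set η : Fin 6 → ℝ := fun i => ξ i + ζ * ((if i = 0 then 6 * z else 0) - x i) with hη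
  have hxη : dot x η = dot x ξ + ζ * (6 * z ^ 2 - s) := by
    simp only [dot, hη, hs, sq, hz, Fin.sum_univ_succ, Fin.sum_univ_zero]
    simp
    ring
  have hηη : sq η = sq ξ + 2 * ζ * (6 * z * ξ 0 - dot x ξ) + ζ ^ 2 * (24 * z ^ 2 + s) := by
    simp only [dot, hη, hs, sq, hz, Fin.sum_univ_succ, Fin.sum_univ_zero]
    simp
    ring
  have hcs := dot_sq_le x η
  have h1' : dot x ξ + (6 * z ^ 2 - s) / 2 * ζ = 0 := by
    have := h1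
    simp only [D1b] at this
    linarith
  have h2 : D2g z s 0 0 (ξ 0) (dot x ξ) (sq ξ) ζ
      = sq ξ + 2 * ζ * (6 * z * ξ 0 - dot x ξ) + X z s * ζ ^ 2 := by
    simp only [D2g]; ring
  rw [h2]
  by_cases hζ : ζ = 0
  · subst hζ
    have hξ : ξ ≠ 0 := by simpa using hne
    have := sq_pos hξ
    simpa using this
  · have hζ2 : 0 < ζ ^ 2 := by positivity
    have h3 : dot x η = ζ * (6 * z ^ 2 - s) / 2 := by rw [hxη]; linarith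
    have hE : sq ξ + 2 * ζ * (6 * z * ξ 0 - dot x ξ) + X z s * ζ ^ 2
        = sq η + (X z s - (24 * z ^ 2 + s)) * ζ ^ 2 := by rw [hηη]; ring
    rw [hE]
    rcases hs0.eq_or_lt with h0 | h0
    · have hz0 : z ^ 2 = 0 := le_antisymm (by rw [h0]; exact hzs) (sq_nonneg _)
      have hz0' : z = 0 := by simpa using hz0
      have : 0 ≤ sq η := sq_nonneg' η
      rw [← h0, hz0']
      have hX : X 0 0 = 1 / 1000 + 35 / 16 := by simp only [X, hmu]; norm_num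
      rw [hX]
      nlinarith
    · -- multiply by `s`
      have h4 : ζ ^ 2 * ((6 * z ^ 2 - s) ^ 2 / 4) ≤ s * sq η := by
        have : dot x η ^ 2 = ζ ^ 2 * ((6 * z ^ 2 - s) ^ 2 / 4) := by rw [h3]; ring
        rw [← this]; exact hcs
      have h5 := poly_pos hzs h0 hx
      have h6 : 0 < s * (sq η + (X z s - (24 * z ^ 2 + s)) * ζ ^ 2) := by nlinarith
      exact (pos_iff_pos_of_mul_pos h6).1 h0

/-- regime of small `τ` and `β`, by compactness -/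
theorem small_pos : ∃ δ > (0 : ℝ), ∀ (x ξ : Fin 6 → ℝ) (τ β ζ : ℝ), sq x ≤ 1 + mu / 40 →
    |τ| ≤ δ → |β| ≤ δ → sq ξ + ζ ^ 2 = 1 →
    D1b (x 0) (sq x) τ β (ξ 0) (dot x ξ) ζ = 0 →
    0 < D2g (x 0) (sq x) τ 0 (ξ 0) (dot x ξ) (sq ξ) ζ := by
  let K : Set ((Fin 6 → ℝ) × (Fin 6 → ℝ) × ℝ × ℝ × ℝ) :=
    {p | sq p.1 ≤ 1 + mu / 40 ∧ sq p.2.1 + p.2.2.1 ^ 2 = 1 ∧ |p.2.2.2.1| ≤ 1 ∧ |p.2.2.2.2| ≤ 1 ∧
      D1b (p.1 0) (sq p.1) p.2.2.2.1 p.2.2.2.2 (p.2.1 0) (dot p.1 p.2.1) p.2.2.1 = 0 ∧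
      D2g (p.1 0) (sq p.1) p.2.2.2.1 0 (p.2.1 0) (dot p.1 p.2.1) (sq p.2.1) p.2.2.1 ≤ 0}
  have hc1 : Continuous fun p : (Fin 6 → ℝ) × (Fin 6 → ℝ) × ℝ × ℝ × ℝ =>
      D1b (p.1 0) (sq p.1) p.2.2.2.1 p.2.2.2.2 (p.2.1 0) (dot p.1 p.2.1) p.2.2.1 := by
    unfold D1b X Xz Xs sq dot; fun_prop
  have hc2 : Continuous fun p : (Fin 6 → ℝ) × (Fin 6 → ℝ) × ℝ × ℝ × ℝ =>
      D2g (p.1 0) (sq p.1) p.2.2.2.1 0 (p.2.1 0) (dot p.1 p.2.1) (sq p.2.1) p.2.2.1 := by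
    unfold D2g X Xz Xs Xzz Xzs sq dot; fun_prop
  have hc3 : Continuous fun p : (Fin 6 → ℝ) × (Fin 6 → ℝ) × ℝ × ℝ × ℝ => sq p.1 := by
    unfold sq; fun_prop
  have hc4 : Continuous fun p : (Fin 6 → ℝ) × (Fin 6 → ℝ) × ℝ × ℝ × ℝ =>
      sq p.2.1 + p.2.2.1 ^ 2 := by
    unfold sq; fun_prop
  have hc5 : Continuous fun p : (Fin 6 → ℝ) × (Fin 6 → ℝ) × ℝ × ℝ × ℝ => |p.2.2.2.1| := by
    fun_prop
  have hc6 : Continuous fun p : (Fin 6 → ℝ) × (Fin 6 → ℝ) × ℝ × ℝ × ℝ => |p.2.2.2.2| := by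
    fun_prop
  have hclosed : IsClosed K :=
    (isClosed_le hc3 continuous_const).inter ((isClosed_eq hc4 continuous_const).inter
      ((isClosed_le hc5 continuous_const).inter ((isClosed_le hc6 continuous_const).inter
      ((isClosed_eq hc1 continuous_const).inter (isClosed_le hc2 continuous_const)))))
  have hbdd : Bornology.IsBounded K := by
    refine (Metric.isBounded_iff_subset_closedBall 0).2 ⟨2, ?_⟩
    rintro ⟨x, ξ, ζ, τ, β⟩ ⟨h1, h2, h3, h4, -, -⟩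
    simp only at h1 h2 h3 h4
    have hmu : mu = 1 / 1000 := rfl
    rw [mem_closedBall_zero_iff]
    have hx : ‖x‖ ≤ 2 := by
      rw [pi_norm_le_iff_of_nonneg (by norm_num)]
      intro i
      have := coord_sq_le x i
      rw [Real.norm_eq_abs]
      apply abs_le_of_sq_le_sq _ (by norm_num)
      rw [hmu] at h1
      linarith
    have hξ : ‖ξ‖ ≤ 2 := by
      rw [pi_norm_le_iff_of_nonneg (by norm_num)]
      intro i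
      have := coord_sq_le ξ i
      rw [Real.norm_eq_abs]
      apply abs_le_of_sq_le_sq _ (by norm_num)
      nlinarith [sq_nonneg ζ]
    have hζ : ‖ζ‖ ≤ 2 := by
      rw [Real.norm_eq_abs]
      apply abs_le_of_sq_le_sq _ (by norm_num)
      nlinarith [sq_nonneg' ξ]
    simp only [Prod.norm_def, Real.norm_eq_abs] at *
    simp only [max_le_iff]
    refine ⟨hx, hξ, hζ, by linarith, by linarith⟩
  have hK : IsCompact K := Metric.isCompact_of_isClosed_isBounded hclosed hbdd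
  rcases K.eq_empty_or_nonempty with hemp | hne
  · refine ⟨1, one_pos, fun x ξ τ β ζ hx hτ hβ h1 h2 => ?_⟩
    by_contra h3
    push Not at h3
    have : ((x, ξ, ζ, τ, β) : (Fin 6 → ℝ) × (Fin 6 → ℝ) × ℝ × ℝ × ℝ) ∈ K :=
      ⟨hx, h1, hτ, hβ, h2, h3⟩
    rw [hemp] at this
    exact this
  · have hm : ContinuousOn (fun p : (Fin 6 → ℝ) × (Fin 6 → ℝ) × ℝ × ℝ × ℝ =>
        max |p.2.2.2.1| |p.2.2.2.2|) K := by
      apply Continuous.continuousOn; fun_prop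
    obtain ⟨⟨x, ξ, ζ, τ, β⟩, hp, hmin⟩ := hK.exists_isMinOn hne hm
    have hpos : 0 < max |τ| |β| := by
      by_contra h0
      push Not at h0
      have hτ : τ = 0 := by
        have : |τ| ≤ 0 := (le_max_left _ _).trans h0
        exact abs_nonpos_iff.1 this
      have hβ : β = 0 := by
        have : |β| ≤ 0 := (le_max_right _ _).trans h0
        exact abs_nonpos_iff.1 this
      obtain ⟨h1, h2, -, -, h5, h6⟩ := hp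
      simp only at h1 h2 h5 h6
      subst hτ; subst hβ
      refine absurd (base_pos x ξ ζ h1 ?_ h5) (not_lt.2 h6)
      by_contra h7
      push Not at h7
      obtain ⟨h8, h9⟩ := h7
      subst h9
      rw [h8] at h2
      simp [sq] at h2
    refine ⟨min 1 (max |τ| |β| / 2), by positivity, fun x' ξ' τ' β' ζ' hx hτ hβ h1 h2 => ?_⟩
    by_contra h3
    push Not at h3
    have hmem : ((x', ξ', ζ', τ', β') : (Fin 6 → ℝ) × (Fin 6 → ℝ) × ℝ × ℝ × ℝ) ∈ K :=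
      ⟨hx, h1, hτ.trans (min_le_left _ _), hβ.trans (min_le_left _ _), h2, h3⟩
    have h4 := hmin hmem
    simp only [Set.mem_ofPred_eq] at h4
    have h5 : max |τ'| |β'| ≤ max |τ| |β| / 2 :=
      max_le (hτ.trans (min_le_right _ _)) (hβ.trans (min_le_right _ _))
    linarith

theorem large_aux {a1 a2 a3 a4 a5 a6 a7 α b c ζ γ : ℝ} (k1 : |a1| ≤ 1 / 10) (k2 : |a2| ≤ 1 / 100)
    (k3 : |a3| ≤ 1 / 100) (k4 : 9 / 10 ≤ a4) (k5 : |a5| ≤ 7) (k6 : |a6| ≤ 1) (k7 : -200 ≤ a7)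
    (hα : α ^ 2 ≤ c) (hb : b ^ 2 ≤ 101 / 100 * c) (hγ : 1000 ≤ γ) (hne : c + ζ ^ 2 = 1) :
    0 < a1 * α ^ 2 + 2 * a2 * (α * b) + 2 * a3 * b ^ 2 + a4 * c + 2 * a5 * α * ζ + 4 * a6 * b * ζ
      + (a7 + γ) * ζ ^ 2 := by
  have hc0 : 0 ≤ c := (sq_nonneg α).trans hα
  have hζ := sq_nonneg ζ
  have k5' : a5 ^ 2 ≤ 49 := by
    have := sq_le_sq' (by linarith [abs_le.1 k5]) (abs_le.1 k5).2
    linarith
  have k6' : a6 ^ 2 ≤ 1 := by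
    have := sq_le_sq' (by linarith [abs_le.1 k6]) (abs_le.1 k6).2
    linarith
  rw [abs_le] at k1 k2 k3
  have m1 : -(1 / 10 * c) ≤ a1 * α ^ 2 := by
    have h := mul_nonneg (by linarith : 0 ≤ a1 + 1 / 10) (sq_nonneg α)
    linarith
  have m2 : -(3 / 100 * c) ≤ 2 * a2 * (α * b) := by
    have h8 : |α * b| ≤ 101 / 100 * c := by
      have h1 : 2 * |α * b| ≤ α ^ 2 + b ^ 2 := by
        rw [abs_mul, ← sq_abs α, ← sq_abs b]; linarith [sq_nonneg (|α| - |b|)]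
      linarith
    have h9 : |2 * a2 * (α * b)| ≤ 2 * (1 / 100) * (101 / 100 * c) := by
      rw [abs_mul, abs_mul]
      have : |a2| ≤ 1 / 100 := abs_le.2 k2
      have h2 : |(2 : ℝ)| = 2 := abs_of_pos two_pos
      rw [h2]
      gcongr
    have := (abs_le.1 h9).1
    linarith
  have m3 : -(3 / 100 * c) ≤ 2 * a3 * b ^ 2 := by
    have h := mul_nonneg (by linarith : 0 ≤ a3 + 1 / 100) (sq_nonneg b)
    linarith
  have m4 : 9 / 10 * c ≤ a4 * c := mul_le_mul_of_nonneg_right k4 hc0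
  have m5 : -(1 / 10 * c + 490 * ζ ^ 2) ≤ 2 * a5 * α * ζ := by
    have h := mul_nonneg (by linarith : 0 ≤ 49 - a5 ^ 2) hζ
    linarith [sq_nonneg (α + 10 * a5 * ζ)]
  have m6 : -(2 / 10 * c + 41 * ζ ^ 2) ≤ 4 * a6 * b * ζ := by
    have h := mul_nonneg (by linarith : 0 ≤ 1 - a6 ^ 2) hζ
    linarith [sq_nonneg (b + 20 * a6 * ζ)]
  have m7 : 800 * ζ ^ 2 ≤ (a7 + γ) * ζ ^ 2 := mul_le_mul_of_nonneg_right (by linarith) hζ
  linarith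

theorem bd1 {z s τ : ℝ} (hz : |z| ≤ 101 / 100) (h0 : 0 ≤ s) (h1 : s ≤ 101 / 100)
    (hτ : |τ| ≤ 1 / 1000) : |6 * τ + τ ^ 2 * Xzz z s / 2| ≤ 1 / 10 := by
  have hX : |Xzz z s| ≤ 200 := by
    have hz2 : z ^ 2 ≤ 2 := by
      rw [← sq_abs]; nlinarith [abs_nonneg z]
    rw [abs_le]; unfold Xzz; constructor <;> nlinarith [sq_nonneg z]
  have h2 : |τ ^ 2| ≤ (1 / 1000) ^ 2 := by
    rw [abs_pow]; gcongr
  have h3 : |τ ^ 2 * Xzz z s| ≤ (1 / 1000) ^ 2 * 200 := by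
    rw [abs_mul]; gcongr
  rw [abs_le] at h3 hτ ⊢
  constructor <;> linarith

theorem bd2 {z τ : ℝ} (hz : |z| ≤ 101 / 100)
    (hτ : |τ| ≤ 1 / 1000) : |τ ^ 2 * Xzs z| ≤ 1 / 100 := by
  have hX : |Xzs z| ≤ 100 := by
    rw [abs_le] at hz ⊢; unfold Xzs; constructor <;> linarith
  have h2 : |τ ^ 2| ≤ (1 / 1000) ^ 2 := by
    rw [abs_pow]; gcongr
  have h3 : |τ ^ 2 * Xzs z| ≤ (1 / 1000) ^ 2 * 100 := by
    rw [abs_mul]; gcongr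
  linarith

theorem bd3 {τ : ℝ} (hτ : |τ| ≤ 1 / 1000) : |τ ^ 2 * Xss| ≤ 1 / 100 := by
  have hX : |Xss| ≤ 100 := by
    unfold Xss; rw [abs_le]; constructor <;> norm_num
  have h2 : |τ ^ 2| ≤ (1 / 1000) ^ 2 := by
    rw [abs_pow]; gcongr
  have h3 : |τ ^ 2 * Xss| ≤ (1 / 1000) ^ 2 * 100 := by
    rw [abs_mul]; gcongr
  linarith

theorem bdXs {z s : ℝ} (hz : |z| ≤ 101 / 100) (h0 : 0 ≤ s) (h1 : s ≤ 101 / 100) :
    |Xs z s| ≤ 50 := by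
  have hz2 : z ^ 2 ≤ 2 := by
    rw [← sq_abs]; nlinarith [abs_nonneg z]
  rw [abs_le]; unfold Xs; constructor <;> nlinarith [sq_nonneg z]

theorem bd4 {z s τ : ℝ} (hz : |z| ≤ 101 / 100) (h0 : 0 ≤ s) (h1 : s ≤ 101 / 100)
    (hτ : |τ| ≤ 1 / 1000) : 9 / 10 ≤ 1 - τ + τ ^ 2 * Xs z s := by
  have hX := bdXs hz h0 h1
  have h2 : |τ ^ 2| ≤ (1 / 1000) ^ 2 := by
    rw [abs_pow]; gcongr
  have h3 : |τ ^ 2 * Xs z s| ≤ (1 / 1000) ^ 2 * 50 := by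
    rw [abs_mul]; gcongr
  rw [abs_le] at h3 hτ
  linarith

theorem bd5 {z s τ : ℝ} (hz : |z| ≤ 101 / 100) (h0 : 0 ≤ s) (h1 : s ≤ 101 / 100)
    (hτ : |τ| ≤ 1 / 1000) : |6 * z + τ * Xz z s| ≤ 7 := by
  have hX : |Xz z s| ≤ 300 := by
    unfold Xz
    have hz4 : |z ^ 3| ≤ 2 := by
      rw [abs_pow]
      calc |z| ^ 3 ≤ (101 / 100) ^ 3 := by gcongr
        _ ≤ 2 := by norm_num
    have h5 : |z * s| ≤ 101 / 100 * (101 / 100) := by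
      rw [abs_mul, abs_of_nonneg h0]; gcongr
    rw [abs_le] at h5 hz hz4 ⊢
    constructor <;> linarith
  have h5 : |τ * Xz z s| ≤ 1 / 1000 * 300 := by
    rw [abs_mul]; gcongr
  rw [abs_le] at h5 hz ⊢; constructor <;> linarith

theorem bd6 {z s τ : ℝ} (hz : |z| ≤ 101 / 100) (h0 : 0 ≤ s) (h1 : s ≤ 101 / 100)
    (hτ : |τ| ≤ 1 / 1000) : |-1 / 2 + τ * Xs z s| ≤ 1 := by
  have hX := bdXs hz h0 h1
  have h5 : |τ * Xs z s| ≤ 1 / 1000 * 50 := by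
    rw [abs_mul]; gcongr
  rw [abs_le] at h5 ⊢; constructor <;> linarith

theorem bd7 {z s : ℝ} (hz : |z| ≤ 101 / 100) (h0 : 0 ≤ s) (h1 : s ≤ 101 / 100) :
    -200 ≤ X z s := by
  have hmu : mu = 1 / 1000 := rfl
  have hz2 : z ^ 2 ≤ 2 := by
    rw [← sq_abs]; nlinarith [abs_nonneg z]
  have hz4 : (z ^ 2) ^ 2 ≤ 4 := by nlinarith [sq_nonneg z]
  have hzs : z ^ 2 * s ≤ 4 := by nlinarith [sq_nonneg z]
  have hs2 : s ^ 2 ≤ 4 := by nlinarith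
  have hzs0 : 0 ≤ z ^ 2 * s := by positivity
  have hz40 : 0 ≤ (z ^ 2) ^ 2 := by positivity
  have e : z ^ 4 = (z ^ 2) ^ 2 := by ring
  unfold X; rw [hmu]
  nlinarith [sq_nonneg z, sq_nonneg s]

theorem large_pos' {z s τ γ α b c ζ : ℝ} (hz : |z| ≤ 101 / 100) (h0 : 0 ≤ s) (h1 : s ≤ 101 / 100)
    (hτ : |τ| ≤ 1 / 1000) (hγ : 1000 ≤ γ) (hα : α ^ 2 ≤ c) (hb : b ^ 2 ≤ 101 / 100 * c)
    (hne : c + ζ ^ 2 = 1) : 0 < D2g z s τ γ α b c ζ := by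
  have h := large_aux (a7 := X z s) (bd1 hz h0 h1 hτ) (bd2 hz hτ) (bd3 hτ) (bd4 hz h0 h1 hτ)
    (bd5 hz h0 h1 hτ) (bd6 hz h0 h1 hτ) (bd7 hz h0 h1) hα hb hγ hne
  have e : D2g z s τ γ α b c ζ
      = (6 * τ + τ ^ 2 * Xzz z s / 2) * α ^ 2 + 2 * (τ ^ 2 * Xzs z) * (α * b)
        + 2 * (τ ^ 2 * Xss) * b ^ 2 + (1 - τ + τ ^ 2 * Xs z s) * c
        + 2 * (6 * z + τ * Xz z s) * α * ζ + 4 * (-1 / 2 + τ * Xs z s) * b * ζ
        + (X z s + γ) * ζ ^ 2 := by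
    unfold D2g; ring
  rw [e]; exact h

/-- regime of large `γ` -/
theorem large_pos (x ξ : Fin 6 → ℝ) (τ γ ζ : ℝ) (hx : sq x ≤ 1 + mu / 40)
    (hτ : |τ| ≤ 1 / 1000) (hγ : 1000 ≤ γ) (hne : sq ξ + ζ ^ 2 = 1) :
    0 < D2g (x 0) (sq x) τ γ (ξ 0) (dot x ξ) (sq ξ) ζ := by
  have hmu : mu = 1 / 1000 := rfl
  rw [hmu] at hx
  have hs0 : 0 ≤ sq x := sq_nonneg' x
  have hz2 := coord_sq_le x 0
  have hc0 : 0 ≤ sq ξ := sq_nonneg' ξ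
  have hs1 : sq x ≤ 101 / 100 := by linarith
  have hz : |x 0| ≤ 101 / 100 := by
    apply abs_le_of_sq_le_sq _ (by norm_num)
    linarith
  refine large_pos' hz hs0 hs1 hτ hγ (coord_sq_le ξ 0) ?_ hne
  have h2 : sq x * sq ξ ≤ 101 / 100 * sq ξ := mul_le_mul_of_nonneg_right hs1 hc0
  exact (dot_sq_le x ξ).trans h2

theorem dot_smul (x ξ : Fin 6 → ℝ) (k : ℝ) : dot x (k • ξ) = k * dot x ξ := by
  simp only [dot, Pi.smul_apply, smul_eq_mul, Finset.mul_sum]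
  exact Finset.sum_congr rfl fun i _ => by ring

theorem sq_smul (ξ : Fin 6 → ℝ) (k : ℝ) : sq (k • ξ) = k ^ 2 * sq ξ := by
  simp only [sq, Pi.smul_apply, smul_eq_mul, Finset.mul_sum]
  exact Finset.sum_congr rfl fun i _ => by ring

theorem qc : ∃ τ₀ > (0 : ℝ), ∀ τ₁, 0 < τ₁ → τ₁ ≤ τ₀ → ∀ (x ξ : Fin 6 → ℝ) (τ ζ : ℝ),
    sq x ≤ 1 + mu / 40 → |τ| ≤ 2 * τ₁ → (ξ ≠ 0 ∨ ζ ≠ 0) →
    D1 τ₁ (x 0) (sq x) τ (ξ 0) (dot x ξ) ζ = 0 →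
    0 < D2 τ₁ (x 0) (sq x) τ (ξ 0) (dot x ξ) (sq ξ) ζ := by
  obtain ⟨δ, hδ, hsmall⟩ := small_pos
  refine ⟨min (1 / 2000) (δ / 1000), by positivity, ?_⟩
  intro τ₁ h1 h2 x ξ τ ζ hx hτ hne hD
  have h3 : τ₁ ≤ 1 / 2000 := h2.trans (min_le_left _ _)
  have h4 : τ₁ ≤ δ / 1000 := h2.trans (min_le_right _ _)
  -- normalise
  have hN : 0 < sq ξ + ζ ^ 2 := by
    rcases hne with h | h
    · have := sq_pos h; positivity
    · have := sq_nonneg' ξ; positivity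
  set N := √(sq ξ + ζ ^ 2) with hNdef
  have hN0 : 0 < N := Real.sqrt_pos.2 hN
  have hNsq : N ^ 2 = sq ξ + ζ ^ 2 := Real.sq_sqrt hN.le
  have hunit : sq (N⁻¹ • ξ) + (N⁻¹ * ζ) ^ 2 = 1 := by
    rw [sq_smul, mul_pow, ← mul_add, ← hNsq]
    field_simp
  have hD' : D1 τ₁ (x 0) (sq x) τ ((N⁻¹ • ξ) 0) (dot x (N⁻¹ • ξ)) (N⁻¹ * ζ) = 0 := by
    have : D1 τ₁ (x 0) (sq x) τ ((N⁻¹ • ξ) 0) (dot x (N⁻¹ • ξ)) (N⁻¹ * ζ)
        = N⁻¹ * D1 τ₁ (x 0) (sq x) τ (ξ 0) (dot x ξ) ζ := by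
      rw [dot_smul]; simp only [D1, Pi.smul_apply, smul_eq_mul]; ring
    rw [this, hD, mul_zero]
  have hscale : D2 τ₁ (x 0) (sq x) τ ((N⁻¹ • ξ) 0) (dot x (N⁻¹ • ξ)) (sq (N⁻¹ • ξ)) (N⁻¹ * ζ)
      = (N⁻¹) ^ 2 * D2 τ₁ (x 0) (sq x) τ (ξ 0) (dot x ξ) (sq ξ) ζ := by
    rw [dot_smul, sq_smul]; simp only [D2, Pi.smul_apply, smul_eq_mul]; ring
  suffices h : 0 < D2 τ₁ (x 0) (sq x) τ ((N⁻¹ • ξ) 0) (dot x (N⁻¹ • ξ)) (sq (N⁻¹ • ξ))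
      (N⁻¹ * ζ) by
    rw [hscale] at h
    exact (pos_iff_pos_of_mul_pos h).1 (by positivity)
  generalize N⁻¹ • ξ = ξ' at *
  generalize N⁻¹ * ζ = ζ' at *
  rw [D2_eq]
  rw [D1_eq] at hD'
  have hγ0 : 0 ≤ 28 * τ ^ 6 / τ₁ ^ 8 := by
    have : 0 ≤ τ ^ 6 := by positivity
    positivity
  rcases le_or_gt 1000 (28 * τ ^ 6 / τ₁ ^ 8) with hγ | hγ
  · exact large_pos x ξ' τ _ ζ' hx (hτ.trans (by linarith)) hγ hunit
  · have hβ : |4 * τ ^ 7 / τ₁ ^ 8| ≤ δ := by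
      have e : 4 * τ ^ 7 / τ₁ ^ 8 = τ * (28 * τ ^ 6 / τ₁ ^ 8) / 7 := by ring
      rw [e, abs_div, abs_mul, abs_of_nonneg hγ0]
      have : |τ| * (28 * τ ^ 6 / τ₁ ^ 8) ≤ (2 * τ₁) * 1000 := by gcongr
      rw [abs_of_pos (by norm_num : (0:ℝ) < 7)]
      linarith
    have h5 := hsmall x ξ' τ _ ζ' hx (hτ.trans (by linarith)) hβ hunit hD'
    have h6 : D2g (x 0) (sq x) τ (28 * τ ^ 6 / τ₁ ^ 8) (ξ' 0) (dot x ξ') (sq ξ') ζ'
        = D2g (x 0) (sq x) τ 0 (ξ' 0) (dot x ξ') (sq ξ') ζ' + (28 * τ ^ 6 / τ₁ ^ 8) * ζ' ^ 2 := by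
      unfold D2g; ring
    rw [h6]
    have : 0 ≤ (28 * τ ^ 6 / τ₁ ^ 8) * ζ' ^ 2 := by positivity
    linarith

end Pool.Agent.Work.MP_d9fde0_an
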