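import Mathlib
import Pool.Agent.Work.MP_d9fde0_an.Defs
import Pool.Agent.Work.MP_d9fde0_an.Fn
import Pool.Agent.Work.MP_d9fde0_an.HessW
import Pool.Agent.Work.MP_d9fde0_an.Qc

/-!
# The domain `Om τ₁ ε` is a smooth, uniformly convex domain
-/

namespace Pool.Agent.Work.MP_d9fde0_an

open Set Filter Topology

lemma G_lower {τ₁ z s τ : ℝ} (hz : z ^ 2 ≤ s) (hs : s ≤ 1 + mu / 40) (hτ : |τ| ≤ 1) :
    (s - 1) / 2 + (τ / τ₁) ^ 8 / 2 - 100 * |τ| ≤ G τ₁ z s τ := by
  have hmu : mu = 1 / 1000 := rfl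
  have h0 : 0 ≤ s := le_trans (sq_nonneg z) hz
  have hs2 : s ≤ 2 := by rw [hmu] at hs; linarith
  have hz0 : 0 ≤ z ^ 2 := sq_nonneg z
  have hz2 : z ^ 2 ≤ 2 := hz.trans hs2
  have h1 : |6 * z ^ 2 - s| ≤ 10 := by rw [abs_le]; constructor <;> linarith
  have h2 : |X z s| ≤ 100 := by
    unfold X; rw [hmu]
    have e1 : z ^ 4 = (z ^ 2) ^ 2 := by ring
    rw [e1]
    set a := z ^ 2
    rw [abs_le]; constructor <;> nlinarith
  have h3 : |τ * (6 * z ^ 2 - s) / 2| ≤ 5 * |τ| := by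
    rw [abs_div, abs_mul]; norm_num
    nlinarith [abs_nonneg τ]
  have h4 : |τ ^ 2 * X z s / 2| ≤ 50 * |τ| := by
    rw [abs_div, abs_mul, abs_pow]; norm_num
    have : |τ| ^ 2 ≤ |τ| := by nlinarith [abs_nonneg τ]
    nlinarith [abs_nonneg τ, abs_nonneg (X z s), sq_nonneg |τ|, sq_abs τ]
  unfold G
  have := (abs_le.mp h3).1
  have := (abs_le.mp h4).1
  have := abs_nonneg τ
  linarith

lemma continuous_xp : Continuous xp := by
  unfold xp
  fun_prop

lemma continuous_sqxp : Continuous fun y => sq (xp y) := by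
  unfold sq xp
  fun_prop

lemma xp_smul (t : ℝ) (v : EuclideanSpace ℝ (Fin 7)) : xp (t • v) = t • xp v := by
  funext i; simp [xp]

lemma xp_zero_iff {v : EuclideanSpace ℝ (Fin 7)} : xp v = 0 ∧ v 6 = 0 ↔ v = 0 := by
  constructor
  · rintro ⟨h, h6⟩
    ext i
    refine Fin.lastCases ?_ (fun j => ?_) i
    · simpa using h6
    · have := congrFun h j
      simpa [xp] using this
  · rintro rfl
    exact ⟨by funext i; simp [xp], by simp⟩

/-- the convexity of the box -/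
lemma sq_convex {x y : Fin 6 → ℝ} {a b c : ℝ} (hx : sq x < c) (hy : sq y < c) (ha : 0 ≤ a)
    (hb : 0 ≤ b) (hab : a + b = 1) : sq (fun i => a * x i + b * y i) < c := by
  have h : sq (fun i => a * x i + b * y i) ≤ a * sq x + b * sq y := by
    unfold sq
    rw [Finset.mul_sum, Finset.mul_sum, ← Finset.sum_add_distrib]
    refine Finset.sum_le_sum fun i _ => ?_
    have hb' : b = 1 - a := by linarith
    subst hb'
    nlinarith [mul_nonneg (mul_nonneg ha hb) (sq_nonneg (x i - y i))]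
  have hb' : b = 1 - a := by linarith
  rcases eq_or_lt_of_le ha with h0 | h0
  · subst h0
    have : b = 1 := by linarith
    subst this
    linarith
  · subst hb'
    have e1 : a * sq x < a * c := mul_lt_mul_of_pos_left hx h0
    have e2 : (1 - a) * sq y ≤ (1 - a) * c := mul_le_mul_of_nonneg_left hy.le hb
    linarith

/-- the open box -/
def Bx (τ₁ ε : ℝ) : Set (EuclideanSpace ℝ (Fin 7)) :=
  {y | sq (xp y) < 1 + mu / 40 ∧ |ε * y 6| < 2 * τ₁}

lemma isOpen_Bx (τ₁ ε : ℝ) : IsOpen (Bx τ₁ ε) := by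
  have hc : Continuous fun y : EuclideanSpace ℝ (Fin 7) => |ε * y 6| := by fun_prop
  apply IsOpen.inter
  · exact isOpen_lt continuous_sqxp continuous_const
  · exact isOpen_lt hc continuous_const

lemma mem_Om {τ₁ ε : ℝ} {y : EuclideanSpace ℝ (Fin 7)} :
    y ∈ Om τ₁ ε ↔ y ∈ Bx τ₁ ε ∧ w τ₁ ε y < 0 := by
  unfold Om Bx
  simp only [Set.mem_ofPred_eq, and_assoc]

lemma Bx_convex (τ₁ ε : ℝ) : Convex ℝ (Bx τ₁ ε) := by
  intro x hx y hy a b ha hb hab
  refine ⟨?_, ?_⟩
  · have := sq_convex hx.1 hy.1 ha hb hab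
    have e : xp (a • x + b • y) = fun i => a * xp x i + b * xp y i := by
      funext i; simp [xp]
    rw [e]; exact this
  · have h1 := abs_lt.mp hx.2
    have h2 := abs_lt.mp hy.2
    have e : ε * (a • x + b • y) 6 = a * (ε * x 6) + b * (ε * y 6) := by
      simp; ring
    rw [e, abs_lt]
    have hb' : b = 1 - a := by linarith
    subst hb'
    rcases eq_or_lt_of_le ha with h0 | h0
    · subst h0
      constructor <;> linarith
    · constructor <;> nlinarith

lemma continuous_w (τ₁ ε : ℝ) : Continuous (w τ₁ ε) := (contDiff_w τ₁ ε).continuous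

lemma isOpen_Om (τ₁ ε : ℝ) : IsOpen (Om τ₁ ε) := by
  have : Om τ₁ ε = Bx τ₁ ε ∩ {y | w τ₁ ε y < 0} := by
    ext y; exact mem_Om
  rw [this]
  exact (isOpen_Bx τ₁ ε).inter (isOpen_lt (continuous_w τ₁ ε) continuous_const)

/-- points of the closure lie in the open box, if `τ₁` is small -/
lemma closure_Om {τ₁ ε : ℝ} (h0 : 0 < τ₁) (h1 : τ₁ ≤ 1 / 10 ^ 8) {y : EuclideanSpace ℝ (Fin 7)}
    (hy : y ∈ closure (Om τ₁ ε)) : y ∈ Bx τ₁ ε ∧ w τ₁ ε y ≤ 0 := by
  have hc : IsClosed {y : EuclideanSpace ℝ (Fin 7) | sq (xp y) ≤ 1 + mu / 40 ∧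
      |ε * y 6| ≤ 2 * τ₁ ∧ w τ₁ ε y ≤ 0} := by
    have hc : Continuous fun y : EuclideanSpace ℝ (Fin 7) => |ε * y 6| := by fun_prop
    apply IsClosed.inter
    · exact isClosed_le continuous_sqxp continuous_const
    · apply IsClosed.inter
      · exact isClosed_le hc continuous_const
      · exact isClosed_le (continuous_w τ₁ ε) continuous_const
  have hsub : Om τ₁ ε ⊆ {y : EuclideanSpace ℝ (Fin 7) | sq (xp y) ≤ 1 + mu / 40 ∧
      |ε * y 6| ≤ 2 * τ₁ ∧ w τ₁ ε y ≤ 0} := fun y hy => ⟨hy.1.le, hy.2.1.le, hy.2.2.le⟩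
  obtain ⟨hs, ht, hw⟩ := hc.closure_subset_iff.mpr hsub hy
  have hmu : mu = 1 / 1000 := rfl
  have hτ : |ε * y 6| ≤ 1 := ht.trans (by norm_num at h1; linarith)
  have hG := G_lower (τ₁ := τ₁) (z := y 0) (s := sq (xp y)) (τ := ε * y 6)
    (coord_sq_le (xp y) 0) hs hτ
  have hw' : G τ₁ (y 0) (sq (xp y)) (ε * y 6) ≤ 0 := hw
  have h8 : 0 ≤ (ε * y 6 / τ₁) ^ 8 := by positivity
  refine ⟨⟨?_, ?_⟩, hw⟩
  · rcases hs.lt_or_eq with h | h
    · exact h
    · exfalso
      rw [h, hmu] at hG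
      rw [h, hmu] at hw'
      norm_num only at h1 hG hw'
      linarith
  · rcases ht.lt_or_eq with h | h
    · exact h
    · exfalso
      have e : (ε * y 6 / τ₁) ^ 8 = 2 ^ 8 := by
        have : |ε * y 6 / τ₁| = 2 := by
          rw [abs_div, h, abs_of_pos h0]; field_simp
        rw [← Even.pow_abs (by decide : Even 8), this]
      rw [e, h] at hG
      have := sq_nonneg' (xp y)
      norm_num at h1 hG
      linarith

lemma frontier_Om {τ₁ ε : ℝ} (h0 : 0 < τ₁) (h1 : τ₁ ≤ 1 / 10 ^ 8) {y : EuclideanSpace ℝ (Fin 7)}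
    (hy : y ∈ frontier (Om τ₁ ε)) : y ∈ Bx τ₁ ε ∧ w τ₁ ε y = 0 := by
  rw [(isOpen_Om τ₁ ε).frontier_eq] at hy
  obtain ⟨hB, hw⟩ := closure_Om h0 h1 hy.1
  refine ⟨hB, le_antisymm hw ?_⟩
  by_contra h
  exact hy.2 (mem_Om.mpr ⟨hB, not_le.mp h⟩)

/-- second derivative test: `f` cannot have a local maximum at `t` -/
lemma no_max {f f' : ℝ → ℝ} {t D : ℝ} (hf : ∀ s, HasDerivAt f (f' s) s)
    (hf' : HasDerivAt f' D t) (h0 : f' t = 0) (hD : 0 < D) : ¬ IsLocalMax f t := by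
  intro hmax
  have hd : deriv f = f' := by funext s; exact (hf s).deriv
  have hmin : IsLocalMin f t := by
    apply isLocalMin_of_deriv_deriv_pos
    · rw [hd, hf'.deriv]; exact hD
    · rw [hd]; exact h0
    · exact (hf t).continuousAt
  have hconst : f =ᶠ[𝓝 t] fun _ => f t := by
    filter_upwards [hmax, hmin] with s h1 h2
    exact le_antisymm h1 h2
  have h2 : f' =ᶠ[𝓝 t] fun _ => 0 := by
    have := hconst.deriv
    rw [hd] at this
    filter_upwards [this] with s hs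
    rw [hs]; simp
  have h3 := h2.deriv_eq
  rw [hf'.deriv] at h3
  simp at h3
  linarith

lemma pos_right {f f' : ℝ → ℝ} {D : ℝ} (hf : ∀ s, HasDerivAt f (f' s) s)
    (hf' : HasDerivAt f' D 0) (h0 : f' 0 = 0) (hD : 0 < D) (hf0 : f 0 = 0) :
    ¬ ∀ t, 0 < t → t ≤ 1 → f t < 0 := by
  intro h
  have hd : deriv f = f' := by funext s; exact (hf s).deriv
  have hmin : IsLocalMin f 0 := by
    apply isLocalMin_of_deriv_deriv_pos
    · rw [hd, hf'.deriv]; exact hD
    · rw [hd]; exact h0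
    · exact (hf 0).continuousAt
  obtain ⟨δ, hδ, hb⟩ := Metric.eventually_nhds_iff.mp hmin
  have hpos : 0 < min (δ / 2) 1 := by positivity
  have h1 := hb (y := min (δ / 2) 1) (by
    rw [Real.dist_eq, sub_zero, abs_of_pos hpos]
    exact (min_le_left _ _).trans_lt (by linarith))
  have h2 := h (min (δ / 2) 1) hpos (min_le_right _ _)
  rw [hf0] at h1
  linarith

theorem om_domain : ∃ τ₀ > (0 : ℝ), ∀ τ₁, 0 < τ₁ → τ₁ ≤ τ₀ → ∀ ε, 0 < ε →
    IsSmoothConvexDomain (Om τ₁ ε) ∧ ∀ y ∈ frontier (Om τ₁ ε), w τ₁ ε y = 0 := by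
  obtain ⟨τ₀, hτ₀, hqc⟩ := qc
  refine ⟨min τ₀ (1 / 10 ^ 8), by positivity, fun τ₁ h0 h1 ε hε => ?_⟩
  have hq := hqc τ₁ h0 (h1.trans (min_le_left _ _))
  have h1' : τ₁ ≤ 1 / 10 ^ 8 := h1.trans (min_le_right _ _)
  have hmu : mu = 1 / 1000 := rfl
  -- the quantitative convexity along lines
  have key : ∀ y ∈ Bx τ₁ ε, ∀ v : EuclideanSpace ℝ (Fin 7), v ≠ 0 →
      D1 τ₁ (y 0) (sq (xp y)) (ε * y 6) (v 0) (dot (xp y) (xp v)) (ε * v 6) = 0 →
      0 < D2 τ₁ (y 0) (sq (xp y)) (ε * y 6) (v 0) (dot (xp y) (xp v)) (sq (xp v)) (ε * v 6) := by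
    intro y hy v hv h
    refine hq (xp y) (xp v) (ε * y 6) (ε * v 6) hy.1.le hy.2.le ?_ h
    by_contra hcon
    push Not at hcon
    apply hv
    rw [← xp_zero_iff]
    refine ⟨hcon.1, ?_⟩
    rcases mul_eq_zero.mp hcon.2 with h | h
    · exact absurd h hε.ne'
    · exact h
  have h0mem : (0 : EuclideanSpace ℝ (Fin 7)) ∈ Om τ₁ ε := by
    refine ⟨?_, ?_, ?_⟩
    · have : sq (xp 0) = 0 := by simp [sq, xp]
      rw [this, hmu]; norm_num
    · simpa using h0
    · have : sq (xp 0) = 0 := by simp [sq, xp]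
      simp only [w, this, G]
      simp
      norm_num
  have hconv : Convex ℝ (Om τ₁ ε) := by
    rw [convex_iff_segment_subset]
    intro p hp q hq' z hz
    rw [segment_eq_image'] at hz
    obtain ⟨t₁, ht₁, rfl⟩ := hz
    have hbox : ∀ t ∈ Icc (0:ℝ) 1, p + t • (q - p) ∈ Bx τ₁ ε := by
      intro t ht
      apply (Bx_convex τ₁ ε).segment_subset (mem_Om.mp hp).1 (mem_Om.mp hq').1
      rw [segment_eq_image']
      exact ⟨t, ht, rfl⟩
    by_cases hpq : q - p = 0
    · simp only [hpq, smul_zero, add_zero]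
      exact hp
    have hc : ContinuousOn (fun t : ℝ => w τ₁ ε (p + t • (q - p))) (Icc 0 1) := by
      apply Continuous.continuousOn
      exact (continuous_w τ₁ ε).comp (by fun_prop)
    obtain ⟨t₀, ht₀, hmax⟩ := isCompact_Icc.exists_isMaxOn ⟨t₁, ht₁⟩ hc
    have hlt : w τ₁ ε (p + t₀ • (q - p)) < 0 := by
      rcases eq_or_lt_of_le ht₀.1 with h | h
      · rw [← h]; simpa using (mem_Om.mp hp).2
      rcases eq_or_lt_of_le ht₀.2 with h' | h'
      · rw [h']; simpa using (mem_Om.mp hq').2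
      exfalso
      have hlm : IsLocalMax (fun t : ℝ => w τ₁ ε (p + t • (q - p))) t₀ :=
        hmax.isLocalMax (Icc_mem_nhds h h')
      have hd0 := hlm.hasDerivAt_eq_zero (hasDerivAt_w τ₁ ε p (q - p) t₀)
      have hpos := key _ (hbox t₀ ht₀) (q - p) hpq hd0
      exact no_max (hasDerivAt_w τ₁ ε p (q - p)) (hasDerivAt_D1 τ₁ ε p (q - p) t₀) hd0 hpos hlm
    exact mem_Om.mpr ⟨hbox t₁ ht₁, (hmax ht₁).trans_lt hlt⟩
  refine ⟨⟨isOpen_Om τ₁ ε, ⟨0, h0mem⟩, ?_, hconv, ?_⟩, fun y hy => (frontier_Om h0 h1' hy).2⟩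
  · -- bounded
    refine (Metric.isBounded_closedBall (x := (0 : EuclideanSpace ℝ (Fin 7)))
      (r := √(7 * (2 + (2 * τ₁ / ε)) ^ 2))).subset fun y hy => ?_
    rw [mem_closedBall_zero_iff, EuclideanSpace.norm_eq]
    apply Real.sqrt_le_sqrt
    have hB := (mem_Om.mp hy).1
    have hs : sq (xp y) ≤ 4 := by
      have := hB.1
      rw [hmu] at this; linarith
    have ht : |y 6| ≤ 2 * τ₁ / ε := by
      rw [le_div_iff₀ hε]
      have := hB.2
      rw [abs_mul, abs_of_pos hε] at this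
      linarith
    have hpos : 0 ≤ 2 * τ₁ / ε := by positivity
    have hi : ∀ i : Fin 7, ‖y i‖ ^ 2 ≤ (2 + 2 * τ₁ / ε) ^ 2 := by
      intro i
      have : |y i| ≤ 2 + 2 * τ₁ / ε := by
        refine Fin.lastCases ?_ (fun j => ?_) i
        · have e : (Fin.last 6 : Fin 7) = 6 := rfl
          rw [e]; linarith
        · have h1 := coord_sq_le (xp y) j
          have h2 : |y j.castSucc| ≤ 2 := by
            apply abs_le_of_sq_le_sq _ (by norm_num)
            calc y j.castSucc ^ 2 = xp y j ^ 2 := rfl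
              _ ≤ 4 := h1.trans hs
              _ = 2 ^ 2 := by norm_num
          linarith
      rw [Real.norm_eq_abs]
      exact pow_le_pow_left₀ (abs_nonneg _) this 2
    calc ∑ i, ‖y i‖ ^ 2 ≤ ∑ i : Fin 7, (2 + 2 * τ₁ / ε) ^ 2 := Finset.sum_le_sum fun i _ => hi i
      _ = 7 * (2 + (2 * τ₁ / ε)) ^ 2 := by simp
  · -- boundary
    intro p hp
    obtain ⟨hB, hw⟩ := frontier_Om h0 h1' hp
    refine ⟨w τ₁ ε, contDiff_w τ₁ ε, ?_, hw, ?_, ?_⟩
    · filter_upwards [(isOpen_Bx τ₁ ε).mem_nhds hB] with x hx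
      rw [mem_Om]
      exact ⟨fun h => h.2, fun h => ⟨hx, h⟩⟩
    · intro hzero
      have hpne : -p ≠ 0 := by
        intro h
        have : p = 0 := by simpa using h
        rw [this] at hp
        rw [(isOpen_Om τ₁ ε).frontier_eq] at hp
        exact hp.2 h0mem
      have hd0 : D1 τ₁ (p 0) (sq (xp p)) (ε * p 6) ((-p) 0) (dot (xp p) (xp (-p))) (ε * (-p) 6)
          = 0 := by
        rw [← fderiv_w, hzero]; rfl
      have hpos := key p hB (-p) hpne hd0
      have hf := hasDerivAt_w τ₁ ε p (-p)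
      have hf' := hasDerivAt_D1 τ₁ ε p (-p) 0
      refine pos_right hf hf' ?_ ?_ ?_ ?_
      · simpa using hd0
      · simpa using hpos
      · simpa using hw
      · intro t ht ht1
        have hmem : p + t • (-p) ∈ Om τ₁ ε := by
          rcases eq_or_lt_of_le ht1 with h | h
          · rw [h]; simpa using h0mem
          have hcl : p ∈ closure (Om τ₁ ε) := frontier_subset_closure hp
          have h0i : (0 : EuclideanSpace ℝ (Fin 7)) ∈ interior (Om τ₁ ε) := by
            rw [(isOpen_Om τ₁ ε).interior_eq]; exact h0mem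
          have := hconv.openSegment_closure_interior_subset_interior hcl h0i
          rw [(isOpen_Om τ₁ ε).interior_eq] at this
          apply this
          refine ⟨1 - t, t, by linarith, ht, by ring, ?_⟩
          module
        exact (mem_Om.mp hmem).2
    · intro v hv hzero
      rw [iteratedFDeriv_w]
      rw [fderiv_w] at hzero
      exact key p hB v hv hzero

end Pool.Agent.Work.MP_d9fde0_an
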