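import Mathlib
import Pool.Agent.Work.MP_d9fde0_an.Fn

/-!
# Failure of midpoint convexity of `-√(-w)` near the end of the axis
-/

namespace Pool.Agent.Work.MP_d9fde0_an

open Filter Topology

/-- `√K` is less than the mean of `p` and `q`, in terms of the squares -/
theorem sqrt_lt_mean {p q K : ℝ} (hp : 0 ≤ p) (hq : 0 ≤ q) (hK : 0 ≤ K)
    (h : ((p ^ 2 - q ^ 2) / 2) ^ 2 < 4 * K * ((p ^ 2 + q ^ 2) / 2 - K)) :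
    √K < (p + q) / 2 := by
  by_contra hcon
  push Not at hcon
  have h1 : (p + q) ^ 2 / 4 ≤ K := by
    have h2 : ((p + q) / 2) ^ 2 ≤ √K ^ 2 := by gcongr
    rw [Real.sq_sqrt hK] at h2
    linarith
  have h3 : 0 < (K - (p + q) ^ 2 / 4) * ((p ^ 2 + q ^ 2) / 2 - K - (p + q) ^ 2 / 4) := by
    have e : (K - (p + q) ^ 2 / 4) * ((p ^ 2 + q ^ 2) / 2 - K - (p + q) ^ 2 / 4)
        = K * ((p ^ 2 + q ^ 2) / 2 - K) - ((p ^ 2 - q ^ 2) / 2) ^ 2 / 4 := by ring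
    rw [e]; linarith
  have h4 : (p ^ 2 + q ^ 2) / 2 - K - (p + q) ^ 2 / 4 ≤ 0 := by
    have := mul_nonneg hp hq
    linarith
  have h5 := mul_nonneg (by linarith : 0 ≤ K - (p + q) ^ 2 / 4)
    (by linarith : 0 ≤ -((p ^ 2 + q ^ 2) / 2 - K - (p + q) ^ 2 / 4))
  linarith

/-- the mean inequality in the form used below -/
theorem sqrt_lt_mean' {a b d U : ℝ} (ha : 0 ≤ a) (hb : 0 ≤ b) (hU : 0 ≤ U) (hd0 : 0 ≤ d)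
    (hd1 : d ≤ 1)
    (h : (1 - d) ^ 2 * ((a - b) / 2) ^ 2 < 4 * (1 + d) * U * ((1 - d) * ((a + b) / 2) - (1 + d) * U)) :
    √(1 + d) * √U < √(1 - d) * (√a + √b) / 2 := by
  have h1 : (√(1 - d) * √a) ^ 2 = (1 - d) * a := by
    rw [mul_pow, Real.sq_sqrt (by linarith), Real.sq_sqrt ha]
  have h2 : (√(1 - d) * √b) ^ 2 = (1 - d) * b := by
    rw [mul_pow, Real.sq_sqrt (by linarith), Real.sq_sqrt hb]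
  have h3 := sqrt_lt_mean (p := √(1 - d) * √a) (q := √(1 - d) * √b) (K := (1 + d) * U)
    (by positivity) (by positivity) (by positivity) (by
      rw [h1, h2]
      calc _ = (1 - d) ^ 2 * ((a - b) / 2) ^ 2 := by ring
        _ < _ := h
        _ = _ := by ring)
  rw [Real.sqrt_mul (by linarith)] at h3
  calc _ < _ := h3
    _ = _ := by ring

/-- `w` on the plane of the axis -/
theorem neg_G_axis (τ₁ r c t : ℝ) : -G τ₁ (r + c * t) ((r + c * t) ^ 2) t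
    = (1 - r ^ 2) / 2 + (-(r * c) - 5 * r ^ 2 / 2) * t
      + (-c ^ 2 / 2 - 5 * r * c - (mu + 35 / 16 + 41 / 2 * r ^ 2 - 63 / 16 * r ^ 4) / 2) * t ^ 2
      + (-5 * c ^ 2 / 2 - (41 * r * c - 63 / 4 * r ^ 3 * c) / 2) * t ^ 3
      - (41 / 2 * c ^ 2 - 189 / 8 * r ^ 2 * c ^ 2) / 2 * t ^ 4
      + 63 / 8 * r * c ^ 3 * t ^ 5 + 63 / 32 * c ^ 4 * t ^ 6 - (t / τ₁) ^ 8 / 2 := by
  unfold G X
  ring

theorem viol (C τ₀ : ℝ) (hC : 0 < C) (h0 : 0 < τ₀) : ∃ τ₁, 0 < τ₁ ∧ τ₁ ≤ τ₀ ∧ C * τ₁ ^ 3 < 1 / 2 ∧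
    ∃ t, 0 < t ∧ t < τ₁ ∧ ∃ z₁ z₂ : ℝ, (z₁ + z₂) / 2 = 72 / 73 ∧ z₁ ^ 2 < 1 ∧ z₂ ^ 2 < 1 ∧
      G τ₁ z₁ (z₁ ^ 2) t < 0 ∧ G τ₁ z₂ (z₂ ^ 2) (-t) < 0 ∧
      √(1 + C * τ₁ ^ 3) * √(-G τ₁ (72 / 73) ((72 / 73) ^ 2) 0)
        < √(1 - C * τ₁ ^ 3) * (√(-G τ₁ z₁ (z₁ ^ 2) t) + √(-G τ₁ z₂ (z₂ ^ 2) (-t))) / 2 := by
  obtain ⟨r, hr⟩ : ∃ r : ℝ, r = 72 / 73 := ⟨_, rfl⟩
  obtain ⟨c, hc⟩ : ∃ c : ℝ, c = -5 * r + 5 / 2 * r ^ 3 := ⟨_, rfl⟩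
  obtain ⟨U0, hU0⟩ : ∃ U : ℝ, U = (1 - r ^ 2) / 2 := ⟨_, rfl⟩
  obtain ⟨U1, hU1⟩ : ∃ U : ℝ, U = -(r * c) - 5 * r ^ 2 / 2 := ⟨_, rfl⟩
  obtain ⟨U2, hU2⟩ : ∃ U : ℝ, U = -c ^ 2 / 2 - 5 * r * c
    - (mu + 35 / 16 + 41 / 2 * r ^ 2 - 63 / 16 * r ^ 4) / 2 := ⟨_, rfl⟩
  obtain ⟨U3, hU3⟩ : ∃ U : ℝ, U = -5 * c ^ 2 / 2 - (41 * r * c - 63 / 4 * r ^ 3 * c) / 2 := ⟨_, rfl⟩
  obtain ⟨U4, hU4⟩ : ∃ U : ℝ, U = (41 / 2 * c ^ 2 - 189 / 8 * r ^ 2 * c ^ 2) / 2 := ⟨_, rfl⟩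
  obtain ⟨U5, hU5⟩ : ∃ U : ℝ, U = 63 / 8 * r * c ^ 3 := ⟨_, rfl⟩
  obtain ⟨U6, hU6⟩ : ∃ U : ℝ, U = 63 / 32 * c ^ 4 := ⟨_, rfl⟩
  have hG : ∀ τ₁ t : ℝ, -G τ₁ (r + c * t) ((r + c * t) ^ 2) t = U0 + U1 * t + U2 * t ^ 2
      + U3 * t ^ 3 - U4 * t ^ 4 + U5 * t ^ 5 + U6 * t ^ 6 - (t / τ₁) ^ 8 / 2 := by
    intro τ₁ t
    rw [neg_G_axis, hU0, hU1, hU2, hU3, hU4, hU5, hU6]
  have hU0pos : 0 < U0 := by rw [hU0, hr]; norm_num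
  have key : U1 ^ 2 < 4 * U0 * (U2 - (1 / 4) ^ 6 / 2) := by
    rw [hU2, hU1, hU0, hc, hr]; unfold mu; norm_num
  -- eventual inequalities in `σ`
  have ev : ∀ f : ℝ → ℝ, Continuous f → 0 < f 0 → ∀ᶠ σ in 𝓝[>] (0 : ℝ), 0 < f σ := by
    intro f hf h
    exact (hf.tendsto 0).eventually_const_lt h |>.filter_mono nhdsWithin_le_nhds
  have e1 := ev (fun σ => τ₀ - σ ^ 3) (by fun_prop) (by simpa using h0)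
  have e2 := ev (fun σ => 1 / 2 - C * (σ ^ 3) ^ 3) (by fun_prop) (by norm_num)
  have e3 := ev (fun σ => 1 - 1 / 4 * σ) (by fun_prop) (by norm_num)
  have e4 := ev (fun σ => 1 - (r + c * (1 / 4 * σ ^ 4)) ^ 2) (by fun_prop) (by
    rw [hr]; norm_num)
  have e5 := ev (fun σ => 1 - (r + c * -(1 / 4 * σ ^ 4)) ^ 2) (by fun_prop) (by
    rw [hr]; norm_num)
  have e6 := ev (fun σ => U0 + U1 * (1 / 4 * σ ^ 4) + U2 * (1 / 4 * σ ^ 4) ^ 2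
      + U3 * (1 / 4 * σ ^ 4) ^ 3 - U4 * (1 / 4 * σ ^ 4) ^ 4 + U5 * (1 / 4 * σ ^ 4) ^ 5
      + U6 * (1 / 4 * σ ^ 4) ^ 6 - (1 / 4 * σ) ^ 8 / 2) (by fun_prop) (by
    norm_num; exact hU0pos)
  have e7 := ev (fun σ => U0 + U1 * -(1 / 4 * σ ^ 4) + U2 * (-(1 / 4 * σ ^ 4)) ^ 2
      + U3 * (-(1 / 4 * σ ^ 4)) ^ 3 - U4 * (-(1 / 4 * σ ^ 4)) ^ 4 + U5 * (-(1 / 4 * σ ^ 4)) ^ 5
      + U6 * (-(1 / 4 * σ ^ 4)) ^ 6 - (1 / 4 * σ) ^ 8 / 2) (by fun_prop) (by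
    norm_num; exact hU0pos)
  have e8 := ev (fun σ => 4 * (1 + C * (σ ^ 3) ^ 3) * U0 *
      ((1 - C * (σ ^ 3) ^ 3) * (U2 - U4 * (1 / 4 * σ ^ 4) ^ 2 + U6 * (1 / 4 * σ ^ 4) ^ 4
        - (1 / 4) ^ 6 / 2) - 32 * C * σ * U0)
      - (1 - C * (σ ^ 3) ^ 3) ^ 2 * (U1 + U3 * (1 / 4 * σ ^ 4) ^ 2 + U5 * (1 / 4 * σ ^ 4) ^ 4) ^ 2)
    (by fun_prop) (by norm_num; norm_num at key; linarith)
  have hpos : ∀ᶠ σ in 𝓝[>] (0 : ℝ), 0 < σ := self_mem_nhdsWithin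
  obtain ⟨σ, hσ, f1, f2, f3, f4, f5, f6, f7, f8⟩ :=
    (hpos.and (e1.and (e2.and (e3.and (e4.and (e5.and (e6.and (e7.and e8)))))))).exists
  have hσ3 : 0 < σ ^ 3 := by positivity
  have hq : ∀ e : ℝ, (e * (1 / 4 * σ ^ 4) / σ ^ 3) ^ 8 = (e * (1 / 4 * σ)) ^ 8 := by
    intro e
    congr 1
    field_simp
  have ha : -G (σ ^ 3) (r + c * (1 / 4 * σ ^ 4)) ((r + c * (1 / 4 * σ ^ 4)) ^ 2) (1 / 4 * σ ^ 4)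
      = U0 + U1 * (1 / 4 * σ ^ 4) + U2 * (1 / 4 * σ ^ 4) ^ 2
      + U3 * (1 / 4 * σ ^ 4) ^ 3 - U4 * (1 / 4 * σ ^ 4) ^ 4 + U5 * (1 / 4 * σ ^ 4) ^ 5
      + U6 * (1 / 4 * σ ^ 4) ^ 6 - (1 / 4 * σ) ^ 8 / 2 := by
    rw [hG]
    have := hq 1
    rw [one_mul, one_mul] at this
    rw [this]
  have hb : -G (σ ^ 3) (r + c * -(1 / 4 * σ ^ 4)) ((r + c * -(1 / 4 * σ ^ 4)) ^ 2)
      (-(1 / 4 * σ ^ 4))
      = U0 + U1 * -(1 / 4 * σ ^ 4) + U2 * (-(1 / 4 * σ ^ 4)) ^ 2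
      + U3 * (-(1 / 4 * σ ^ 4)) ^ 3 - U4 * (-(1 / 4 * σ ^ 4)) ^ 4 + U5 * (-(1 / 4 * σ ^ 4)) ^ 5
      + U6 * (-(1 / 4 * σ ^ 4)) ^ 6 - (1 / 4 * σ) ^ 8 / 2 := by
    rw [hG]
    have := hq (-1)
    rw [neg_one_mul, neg_one_mul, Even.neg_pow (by decide) (1 / 4 * σ)] at this
    rw [this]
  have hd : 0 ≤ C * (σ ^ 3) ^ 3 := by positivity
  refine ⟨σ ^ 3, hσ3, by linarith, by linarith, 1 / 4 * σ ^ 4, by positivity, ?_,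
    r + c * (1 / 4 * σ ^ 4), r + c * -(1 / 4 * σ ^ 4), ?_, by linarith, by linarith, ?_, ?_, ?_⟩
  · have h1 := mul_pos hσ3 f3
    have e : σ ^ 3 * (1 - 1 / 4 * σ) = σ ^ 3 - 1 / 4 * σ ^ 4 := by ring
    rw [e] at h1
    linarith
  · rw [hr]; ring
  · rw [← ha] at f6; linarith
  · rw [← hb] at f7; linarith
  · have hU : -G (σ ^ 3) (72 / 73) ((72 / 73) ^ 2) 0 = U0 := by
      have := hG (σ ^ 3) 0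
      rw [hr] at this
      simp only [mul_zero, add_zero] at this
      rw [this]
      ring
    rw [hU, ha, hb]
    refine sqrt_lt_mean' f6.le f7.le hU0pos.le hd (by linarith) ?_
    have hσ8 : 0 < (1 / 4 * σ ^ 4) ^ 2 := by positivity
    have h9 := mul_pos hσ8 f8
    refine lt_of_sub_pos (h9.trans_le (le_of_eq ?_))
    ring

end Pool.Agent.Work.MP_d9fde0_an
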