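import Mathlib
import Pool.Agent.Work.MP_d9fde0_an.Defs
import Pool.Agent.Work.MP_d9fde0_an.Fn
import Pool.Agent.Work.MP_d9fde0_an.LinAlg
import Pool.Agent.Work.MP_d9fde0_an.Compare
import Pool.Agent.Work.MP_d9fde0_an.HessW
import Pool.Agent.Work.MP_d9fde0_an.DetB
import Pool.Agent.Work.MP_d9fde0_an.Domain
import Pool.Agent.Work.MP_d9fde0_an.Viol

/-!
# The counterexample to square root convexity for the `6`-Hessian torsion problem in `ℝ⁷`
-/

namespace Pool.Agent.Work.MP_d9fde0_an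

open Matrix

namespace Main

/-- the point `(z, 0, …, 0, b)` -/
noncomputable def pt (z b : ℝ) : EuclideanSpace ℝ (Fin 7) :=
  (WithLp.toLp 2 (fun i : Fin 7 => if i = 0 then z else if i = 6 then b else 0))

theorem pt_zero (z b : ℝ) : pt z b 0 = z := by simp [pt]

theorem pt_six (z b : ℝ) : pt z b 6 = b := by simp [pt]

theorem sq_pt (z b : ℝ) : sq (xp (pt z b)) = z ^ 2 := by
  rw [sq, Finset.sum_eq_single (0 : Fin 6)]
  · simp [xp, pt]
  · intro i _ hi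
    have h0 : i.castSucc ≠ (0 : Fin 7) := by
      intro h
      exact hi (Fin.castSucc_eq_zero_iff.1 h)
    have h6 : i.castSucc ≠ (6 : Fin 7) := by
      intro h
      have := congrArg Fin.val h
      simp at this
      omega
    simp [xp, pt, h0, h6]
  · simp

theorem w_pt (τ₁ ε z b : ℝ) : w τ₁ ε (pt z b) = G τ₁ z (z ^ 2) (ε * b) := by
  simp only [w, sq_pt, pt_zero, pt_six]

theorem mid_pt (z₁ z₂ b : ℝ) :
    (1 / 2 : ℝ) • pt z₁ b + (1 / 2 : ℝ) • pt z₂ (-b) = pt ((z₁ + z₂) / 2) 0 := by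
  ext i
  simp only [pt, PiLp.add_apply, PiLp.smul_apply, smul_eq_mul]
  by_cases h0 : i = 0
  · simp [h0]; ring
  · by_cases h6 : i = 6
    · simp [h6]
    · simp [h0, h6]

end Main

open Main

theorem main : ∃ Ω : Set (EuclideanSpace ℝ (Fin 7)), IsSmoothConvexDomain Ω ∧
    ∀ u : EuclideanSpace ℝ (Fin 7) → ℝ, IsSolutionT 6 Ω u →
      ¬ ConvexOn ℝ Ω (fun x => -√(-u x)) := by
  obtain ⟨C, hC, τa, hτa, hS⟩ := S_bounds
  obtain ⟨τb, hτb, hD⟩ := om_domain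
  obtain ⟨τ₁, h1, h1', hd, t, ht, htτ, z₁, z₂, hz, hz1, hz2, hG1, hG2, hviol⟩ :=
    viol C (min τa τb) hC (lt_min hτa hτb)
  obtain ⟨ε, hε, hS⟩ := hS τ₁ h1 (h1'.trans (min_le_left _ _))
  obtain ⟨hΩ, hfr⟩ := hD τ₁ h1 (h1'.trans (min_le_right _ _)) ε hε
  have hS := hS ε hε le_rfl
  refine ⟨Om τ₁ ε, hΩ, fun u hu hconv => ?_⟩
  set d := C * τ₁ ^ 3 with hd_def
  have hd0 : 0 < d := by positivity
  have hmu : (0 : ℝ) < mu / 40 := by norm_num [mu]
  -- the Hessian of multiples of `w`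
  have hw2 : ContDiff ℝ 2 (w τ₁ ε) := (contDiff_w τ₁ ε).of_le (by exact le_top)
  have hhess : ∀ (c : ℝ) (y : EuclideanSpace ℝ (Fin 7)),
      hess (fun y => c * w τ₁ ε y) y = c • Bm τ₁ ε (ε * y 6) (xp y) := by
    intro c y
    rw [hess_const_smul hw2.contDiffAt, hess_w]
  have hcd : ∀ c : ℝ, ContDiff ℝ 2 (fun y => c * w τ₁ ε y) := fun c =>
    contDiff_const.mul hw2
  have hB : ∀ y ∈ Om τ₁ ε, |S 6 (Bm τ₁ ε (ε * y 6) (xp y)) - 1| ≤ d ∧
      ∀ j, 1 ≤ j → j ≤ 6 → 0 < S j (Bm τ₁ ε (ε * y 6) (xp y)) := by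
    intro y hy
    exact hS (xp y) (ε * y 6) hy.1.le hy.2.1.le
  have hbdd := hΩ.isBounded
  -- upper bound
  have hup : ∀ y ∈ Om τ₁ ε, u y ≤ (1 - d) * w τ₁ ε y := by
    refine le_of_super (n := 7) (by norm_num) hΩ.isOpen hbdd hu (hcd (1 - d)) ?_ ?_
    · intro y hy
      simp [hfr y hy]
    · intro y hy
      rw [hhess, S_smul (by norm_num)]
      have hb := (abs_le.1 (hB y hy).1).2
      have h6 : S 6 (Bm τ₁ ε (ε * y 6) (xp y)) ≤ 1 + d := by linarith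
      have h0 : 0 ≤ 1 - d := by linarith
      have hp5 : (1 - d) ^ 5 ≤ 1 := pow_le_one₀ h0 (by linarith)
      have hp6 : (0 : ℝ) ≤ (1 - d) ^ 6 := by positivity
      calc (1 - d) ^ (7 - 1) * S (7 - 1) (Bm τ₁ ε (ε * y 6) (xp y))
          ≤ (1 - d) ^ 6 * (1 + d) := mul_le_mul_of_nonneg_left h6 hp6
        _ = (1 - d) ^ 5 * (1 - d ^ 2) := by ring
        _ ≤ 1 * (1 - d ^ 2) := by
            apply mul_le_mul_of_nonneg_right hp5
            nlinarith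
        _ < 1 := by nlinarith [pow_pos hd0 2]
  -- lower bound
  have hlo : ∀ y ∈ Om τ₁ ε, (1 + d) * w τ₁ ε y ≤ u y := by
    refine ge_of_sub (n := 7) (by norm_num) hΩ.isOpen hbdd hu (hcd (1 + d)) ?_ ?_ ?_
    · intro y hy
      simp [hfr y hy]
    · intro y hy i hi hi'
      rw [hhess, S_smul (by omega)]
      exact mul_pos (pow_pos (by linarith) _) ((hB y hy).2 i hi hi')
    · intro y hy
      rw [hhess, S_smul (by norm_num)]
      have hb := (abs_le.1 (hB y hy).1).1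
      have h6 : 1 - d ≤ S 6 (Bm τ₁ ε (ε * y 6) (xp y)) := by linarith
      have hp2 : (1 + 4 * d) ≤ (1 + d) ^ 5 := by
        have := one_add_mul_le_pow (show (-2 : ℝ) ≤ d by linarith) 5
        push_cast at this
        linarith
      have hp6 : (0 : ℝ) ≤ (1 + d) ^ 6 := by positivity
      calc (1 : ℝ) < (1 + 4 * d) * (1 - d ^ 2) := by nlinarith
        _ ≤ (1 + d) ^ 5 * (1 - d ^ 2) := by
            apply mul_le_mul_of_nonneg_right hp2
            nlinarith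
        _ = (1 + d) ^ 6 * (1 - d) := by ring
        _ ≤ (1 + d) ^ (7 - 1) * S (7 - 1) (Bm τ₁ ε (ε * y 6) (xp y)) :=
            mul_le_mul_of_nonneg_left h6 hp6
  -- the points
  have hεt : ε * (t / ε) = t := by field_simp
  have hw1 : w τ₁ ε (pt z₁ (t / ε)) = G τ₁ z₁ (z₁ ^ 2) t := by rw [w_pt, hεt]
  have hw2' : w τ₁ ε (pt z₂ (-(t / ε))) = G τ₁ z₂ (z₂ ^ 2) (-t) := by
    rw [w_pt, mul_neg, hεt]
  have hP1 : pt z₁ (t / ε) ∈ Om τ₁ ε := by
    refine ⟨?_, ?_, ?_⟩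
    · rw [sq_pt]; linarith
    · rw [pt_six, hεt, abs_of_pos ht]; linarith
    · rw [hw1]; exact hG1
  have hP2 : pt z₂ (-(t / ε)) ∈ Om τ₁ ε := by
    refine ⟨?_, ?_, ?_⟩
    · rw [sq_pt]; linarith
    · rw [pt_six, mul_neg, hεt, abs_neg, abs_of_pos ht]; linarith
    · rw [hw2']; exact hG2
  have hmid : (1 / 2 : ℝ) • pt z₁ (t / ε) + (1 / 2 : ℝ) • pt z₂ (-(t / ε)) = pt (72 / 73) 0 := by
    rw [mid_pt, hz]
  have hM : pt (72 / 73) 0 ∈ Om τ₁ ε := by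
    rw [← hmid]
    exact hΩ.convex hP1 hP2 (by norm_num) (by norm_num) (by norm_num)
  have hwM : w τ₁ ε (pt (72 / 73) 0) = G τ₁ (72 / 73) ((72 / 73) ^ 2) 0 := by
    rw [w_pt, mul_zero]
  have hc := hconv.2 hP1 hP2 (show (0 : ℝ) ≤ 1 / 2 by norm_num) (show (0 : ℝ) ≤ 1 / 2 by norm_num)
    (by norm_num)
  rw [hmid] at hc
  simp only [smul_eq_mul] at hc
  -- the bounds at the three points
  have hb1 : √(1 - d) * √(-G τ₁ z₁ (z₁ ^ 2) t) ≤ √(-u (pt z₁ (t / ε))) := by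
    rw [← Real.sqrt_mul (by linarith)]
    apply Real.sqrt_le_sqrt
    have := hup _ hP1
    rw [hw1] at this
    linarith
  have hb2 : √(1 - d) * √(-G τ₁ z₂ (z₂ ^ 2) (-t)) ≤ √(-u (pt z₂ (-(t / ε)))) := by
    rw [← Real.sqrt_mul (by linarith)]
    apply Real.sqrt_le_sqrt
    have := hup _ hP2
    rw [hw2'] at this
    linarith
  have hb3 : √(-u (pt (72 / 73) 0)) ≤ √(1 + d) * √(-G τ₁ (72 / 73) ((72 / 73) ^ 2) 0) := by
    rw [← Real.sqrt_mul (by linarith)]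
    apply Real.sqrt_le_sqrt
    have := hlo _ hM
    rw [hwM] at this
    linarith
  linarith

end Pool.Agent.Work.MP_d9fde0_an
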